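import Mathlib
import Pool.Agent.Lib.MP_d0d59f_nt.Basic

/-!
Cycles and orbits: sums of `1 / (|x| + |d|)` over odd elements with a unique preimage in a forward
invariant set, from lower bounds for predecessor sets; the cycle equation in logarithmic form.
-/

namespace Pool.Agent.Lib.MP_d0d59f_nt.CY

open Finset

/-- The lower bound for predecessor sets which is used. -/
def TreeLow (c0 : ℝ) : Prop := ∀ d a : ℤ, Odd d → ¬ (3 : ℤ) ∣ d → ¬ (3 : ℤ) ∣ a →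
    ∀ X : ℝ, |(a : ℝ)| + |(d : ℝ)| ≤ X →
      c0 * (X / (|(a : ℝ)| + |(d : ℝ)|)) ≤
        (Set.ncard {m : ℤ | |(m : ℝ)| ≤ X ∧
          ∃ k : ℕ, (T d)^[k] m = a ∧ ∀ i ≤ k, 1 ≤ (((T d)^[i] m : ℤ) : ℝ) / (a : ℝ)} : ℝ)

/-- The predecessor set of `3 x + d` which is used. -/
def tr (d : ℤ) (X : ℝ) (x : ℤ) : Set ℤ := {m : ℤ | |(m : ℝ)| ≤ X ∧
          ∃ k : ℕ, (T d)^[k] m = 3 * x + d ∧ ∀ i ≤ k, 1 ≤ (((T d)^[i] m : ℤ) : ℝ) / ((3 * x + d : ℤ) : ℝ)}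

theorem T_sib {d x : ℤ} (hd : Odd d) (hx : Odd x) : T d (3 * x + d) = T d x := by
  have h1 : x % 2 = 1 := Int.odd_iff.1 hx
  have h2 : d % 2 = 1 := Int.odd_iff.1 hd
  have h3 : (3 * x + d) % 2 = 0 := by omega
  unfold T
  rw [if_pos h3, if_neg (by omega)]

theorem it_sib {d x : ℤ} (hd : Odd d) (hx : Odd x) (j : ℕ) :
    (T d)^[j + 1] (3 * x + d) = (T d)^[j + 1] x := by
  rw [Function.iterate_succ_apply, Function.iterate_succ_apply, T_sib hd hx]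

theorem it_mem {d : ℤ} {P : Set ℤ} (hP : Set.MapsTo (T d) P P) {x : ℤ} (hx : x ∈ P) (j : ℕ) :
    (T d)^[j] x ∈ P := by
  induction j with
  | zero => exact hx
  | succ j ih => rw [Function.iterate_succ_apply']; exact hP ih

/-- Siblings are not in `P`. -/
theorem sib_notMem {d : ℤ} (hd : Odd d) {P : Set ℤ} {x : ℤ} (hx : Odd x)
    (hu : ∀ y ∈ P, T d y = T d x → y = x) : 3 * x + d ∉ P := by
  intro h
  have h1 := hu _ h (T_sib hd hx)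
  have h2 : d % 2 = 1 := Int.odd_iff.1 hd
  have h3 : x % 2 = 1 := Int.odd_iff.1 hx
  omega

theorem tr_disj_aux {d : ℤ} (hd : Odd d) {P : Set ℤ} (hP : Set.MapsTo (T d) P P) {x y m : ℤ}
    (hxP : x ∈ P) (hx : Odd x) (hy : Odd y) (huy : ∀ z ∈ P, T d z = T d y → z = y) {k l : ℕ}
    (hk : (T d)^[k] m = 3 * x + d) (hl : (T d)^[l] m = 3 * y + d) (hkl : k ≤ l) : x = y := by
  obtain ⟨j, rfl⟩ := Nat.exists_eq_add_of_le hkl
  rw [add_comm, Function.iterate_add_apply, hk] at hl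
  rcases j with _ | j
  · simp only [Function.iterate_zero, id] at hl
    omega
  · rw [it_sib hd hx] at hl
    exact absurd (hl ▸ it_mem hP hxP (j + 1)) (sib_notMem hd hy huy)

theorem tr_disj {d : ℤ} (hd : Odd d) {P : Set ℤ} (hP : Set.MapsTo (T d) P P) {x y : ℤ} (X : ℝ)
    (hxP : x ∈ P) (hyP : y ∈ P) (hx : Odd x) (hy : Odd y)
    (hux : ∀ z ∈ P, T d z = T d x → z = x) (huy : ∀ z ∈ P, T d z = T d y → z = y) (hxy : x ≠ y) :
    Disjoint (tr d X x) (tr d X y) := by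
  rw [Set.disjoint_left]
  rintro m ⟨_, k, hk, _⟩ ⟨_, l, hl, _⟩
  rcases le_total k l with h | h
  · exact hxy (tr_disj_aux hd hP hxP hx hy huy hk hl h)
  · exact hxy (tr_disj_aux hd hP hyP hy hx hux hl hk h).symm

theorem fin_int (X : ℝ) (Q : ℤ → Prop) : {m : ℤ | |(m : ℝ)| ≤ X ∧ Q m}.Finite := by
  refine Set.Finite.subset (Set.finite_Icc (-⌊X⌋) ⌊X⌋) ?_
  rintro m ⟨h, _⟩
  rw [abs_le] at h
  have h1 : m ≤ ⌊X⌋ := Int.le_floor.2 h.2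
  have h2 : -m ≤ ⌊X⌋ := Int.le_floor.2 (by push_cast; linarith)
  exact ⟨by omega, h1⟩

theorem ncard_int {X : ℝ} (hX : 0 ≤ X) (Q : ℤ → Prop) :
    (Set.ncard {m : ℤ | |(m : ℝ)| ≤ X ∧ Q m} : ℝ) ≤ 2 * X + 1 := by
  have h1 : {m : ℤ | |(m : ℝ)| ≤ X ∧ Q m} ⊆ ((Finset.Icc (-⌊X⌋) ⌊X⌋ : Finset ℤ) : Set ℤ) := by
    rintro m ⟨h, _⟩
    rw [abs_le] at h
    have h1 : m ≤ ⌊X⌋ := Int.le_floor.2 h.2
    have h2 : -m ≤ ⌊X⌋ := Int.le_floor.2 (by push_cast; linarith)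
    simp only [Finset.coe_Icc, Set.mem_Icc]
    exact ⟨by omega, h1⟩
  have h2 := Set.ncard_le_ncard h1 (Finset.finite_toSet _)
  rw [Set.ncard_coe_finset, Int.card_Icc] at h2
  have h0 : 0 ≤ ⌊X⌋ := Int.floor_nonneg.2 hX
  have h3 : ((⌊X⌋ + 1 - -⌊X⌋).toNat : ℝ) = 2 * (⌊X⌋ : ℝ) + 1 := by
    have : (((⌊X⌋ + 1 - -⌊X⌋).toNat : ℤ) : ℝ) = ((⌊X⌋ + 1 - -⌊X⌋ : ℤ) : ℝ) := by
      rw [Int.toNat_of_nonneg (by omega)]
    rw [Int.cast_natCast] at this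
    rw [this]
    push_cast
    ring
  have h4 : ((Set.ncard {m : ℤ | |(m : ℝ)| ≤ X ∧ Q m} : ℕ) : ℝ) ≤ ((⌊X⌋ + 1 - -⌊X⌋).toNat : ℝ) := by
    exact_mod_cast h2
  have h5 := Int.floor_le X
  linarith

/-- The sum over `S` is bounded by a count of integers whose orbits stay in the domain. -/
theorem sum_le_count {c0 : ℝ} (hc0 : 0 < c0) (hlow : TreeLow c0) {d : ℤ} (hd : Odd d)
    (h3 : ¬ (3 : ℤ) ∣ d) {P : Set ℤ} (hP : Set.MapsTo (T d) P P) (S : Finset ℤ)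
    (hS : ∀ x ∈ S, x ∈ P ∧ Odd x ∧ ∀ y ∈ P, T d y = T d x → y = x)
    (Q : ℤ → Prop) (hQ : ∀ x ∈ S, ∀ X : ℝ, ∀ m ∈ tr d X x, Q m) {X : ℝ}
    (hX : ∀ x ∈ S, |((3 * x + d : ℤ) : ℝ)| + |(d : ℝ)| ≤ X) (hX0 : 0 < X) :
    ∑ x ∈ S, 1 / (|(x : ℝ)| + |(d : ℝ)|) ≤
      3 / c0 * ((Set.ncard {m : ℤ | |(m : ℝ)| ≤ X ∧ Q m} : ℝ) / X) := by
  classical
  have hd0 : (0 : ℝ) < |(d : ℝ)| := by
    have : d ≠ 0 := by rintro rfl; exact absurd hd (by decide)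
    exact abs_pos.2 (by exact_mod_cast this)
  have hfin : ∀ x, (tr d X x).Finite := fun x => fin_int X _
  have hsum : ∑ x ∈ S, (Set.ncard (tr d X x)) ≤ Set.ncard {m : ℤ | |(m : ℝ)| ≤ X ∧ Q m} := by
    have hU : ∑ x ∈ S, (Set.ncard (tr d X x)) = (S.biUnion fun x => (hfin x).toFinset).card := by
      rw [Finset.card_biUnion]
      · refine Finset.sum_congr rfl fun x _ => ?_
        rw [Set.ncard_eq_toFinset_card _ (hfin x)]
      · intro x hx y hy hxy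
        rw [Function.onFun, ← Finset.disjoint_coe, Set.Finite.coe_toFinset, Set.Finite.coe_toFinset]
        obtain ⟨hx1, hx2, hx3⟩ := hS x hx
        obtain ⟨hy1, hy2, hy3⟩ := hS y hy
        exact tr_disj hd hP X hx1 hy1 hx2 hy2 hx3 hy3 hxy
    rw [hU, Set.ncard_eq_toFinset_card _ (fin_int X Q)]
    refine Finset.card_le_card ?_
    intro m hm
    rw [Finset.mem_biUnion] at hm
    obtain ⟨x, hx, hm⟩ := hm
    rw [Set.Finite.mem_toFinset] at hm ⊢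
    exact ⟨hm.1, hQ x hx X m hm⟩
  have hlow' : ∀ x ∈ S, c0 * (X / (3 * (|(x : ℝ)| + |(d : ℝ)|))) ≤ (Set.ncard (tr d X x) : ℝ) := by
    intro x hx
    obtain ⟨hx1, hx2, hx3⟩ := hS x hx
    have h3a : ¬ (3 : ℤ) ∣ 3 * x + d := by omega
    have h1 := hlow d (3 * x + d) hd h3 h3a X (hX x hx)
    refine le_trans ?_ h1
    have h2 : |((3 * x + d : ℤ) : ℝ)| + |(d : ℝ)| ≤ 3 * (|(x : ℝ)| + |(d : ℝ)|) := by
      push_cast
      have := abs_add_le (3 * (x : ℝ)) d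
      rw [abs_mul, abs_of_pos (by norm_num : (0 : ℝ) < 3)] at this
      linarith
    have h4 : 0 < |((3 * x + d : ℤ) : ℝ)| + |(d : ℝ)| := by positivity
    gcongr
  have h1 : ∑ x ∈ S, c0 * (X / (3 * (|(x : ℝ)| + |(d : ℝ)|))) ≤
      (Set.ncard {m : ℤ | |(m : ℝ)| ≤ X ∧ Q m} : ℝ) := by
    refine (Finset.sum_le_sum hlow').trans ?_
    exact_mod_cast hsum
  have h2 : ∑ x ∈ S, c0 * (X / (3 * (|(x : ℝ)| + |(d : ℝ)|))) =
      c0 * X / 3 * ∑ x ∈ S, 1 / (|(x : ℝ)| + |(d : ℝ)|) := by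
    rw [Finset.mul_sum]
    refine Finset.sum_congr rfl fun x _ => ?_
    have : 0 < |(x : ℝ)| + |(d : ℝ)| := by positivity
    field_simp
  rw [h2] at h1
  have h4 : 0 < c0 * X / 3 := by positivity
  rw [← le_div_iff₀' h4] at h1
  refine h1.trans (le_of_eq ?_)
  field_simp

end Pool.Agent.Lib.MP_d0d59f_nt.CY
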