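import Mathlib
import Pool.Agent.Lib.MP_d0d59f_nt.Basic

/-!
Cycles and orbits: logarithmic form of the identity for `T^n`, and the sum of the logarithms over
small odd elements.
-/

namespace Pool.Agent.Lib.MP_d0d59f_nt.CY

open Finset

/-- The logarithm of `|1 + d / (3 y)|`. -/
noncomputable def rr (d y : ℤ) : ℝ := Real.log (|3 * (y : ℝ) + d| / (3 * |(y : ℝ)|))

theorem log_iter {d : ℤ} (hd : Odd d) (x : ℤ) (n : ℕ) (hz : ∀ i ≤ n, (T d)^[i] x ≠ 0) :
    Real.log |(((T d)^[n] x : ℤ) : ℝ)| - Real.log |(x : ℝ)| =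
      (∑ i ∈ (range n).filter (fun i => (T d)^[i] x % 2 = 1), rr d ((T d)^[i] x)) +
        (ones d x n : ℝ) * Real.log 3 - (n : ℝ) * Real.log 2 := by
  induction n with
  | zero => simp [ones_zero]
  | succ n ih =>
    have ih' := ih fun i hi => hz i (by omega)
    rw [Finset.range_add_one, Finset.filter_insert, ones_succ, Function.iterate_succ_apply']
    set y := (T d)^[n] x with hy
    have hy0 : y ≠ 0 := hz n (by omega)
    have hTy0 : T d y ≠ 0 := by
      have := hz (n + 1) le_rfl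
      rwa [Function.iterate_succ_apply'] at this
    have hyR : (0 : ℝ) < |(y : ℝ)| := abs_pos.2 (by exact_mod_cast hy0)
    have hTR : (0 : ℝ) < |((T d y : ℤ) : ℝ)| := abs_pos.2 (by exact_mod_cast hTy0)
    rcases Int.emod_two_eq_zero_or_one y with h0 | h1
    · rw [if_neg (by omega), if_neg (by omega)]
      have e : (2 : ℝ) * (T d y : ℝ) = y := by exact_mod_cast T_even (d := d) h0
      have e1 : |(y : ℝ)| = 2 * |((T d y : ℤ) : ℝ)| := by rw [← e, abs_mul]; norm_num
      have e2 : Real.log |(y : ℝ)| = Real.log 2 + Real.log |((T d y : ℤ) : ℝ)| := by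
        rw [e1, Real.log_mul (by norm_num) hTR.ne']
      push_cast
      linarith
    · rw [if_pos h1, if_pos h1, Finset.sum_insert (by simp)]
      have e : (2 : ℝ) * (T d y : ℝ) = 3 * y + d := by exact_mod_cast T_odd hd h1
      have e1 : |3 * (y : ℝ) + d| = 2 * |((T d y : ℤ) : ℝ)| := by rw [← e, abs_mul]; norm_num
      have e2 : rr d y = Real.log 2 + Real.log |((T d y : ℤ) : ℝ)| - (Real.log 3 + Real.log |(y : ℝ)|) := by
        unfold rr
        rw [e1, Real.log_div (by positivity) (by positivity), Real.log_mul (by norm_num) hTR.ne',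
          Real.log_mul (by norm_num) hyR.ne']
      rw [← hy, e2]
      push_cast
      linarith

/-- `|log |1 + d/(3y)|| ≤ |d| / (|y| + |d|)` if `|y| ≥ |d|`. -/
theorem rr_large {d y : ℤ} (hd : d ≠ 0) (h : |(d : ℝ)| ≤ |(y : ℝ)|) :
    |rr d y| ≤ |(d : ℝ)| / (|(y : ℝ)| + |(d : ℝ)|) := by
  have hd0 : (0 : ℝ) < |(d : ℝ)| := abs_pos.2 (by exact_mod_cast hd)
  have hy0 : (0 : ℝ) < |(y : ℝ)| := lt_of_lt_of_le hd0 h
  set u : ℝ := |(d : ℝ)| with hu
  set v : ℝ := |(y : ℝ)| with hv
  have h1 : |3 * (y : ℝ) + d| ≤ 3 * v + u := by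
    have := abs_add_le (3 * (y : ℝ)) d
    rw [abs_mul, abs_of_pos (by norm_num : (0 : ℝ) < 3)] at this
    exact this
  have h2 : 3 * v - u ≤ |3 * (y : ℝ) + d| := by
    have := abs_sub_abs_le_abs_sub (3 * (y : ℝ)) (-d)
    rw [abs_mul, abs_of_pos (by norm_num : (0 : ℝ) < 3), abs_neg, sub_neg_eq_add] at this
    exact this
  have h3 : 0 < |3 * (y : ℝ) + d| := by linarith
  obtain ⟨w, hw⟩ : ∃ w, w = |3 * (y : ℝ) + d| / (3 * v) := ⟨_, rfl⟩
  have hw0 : 0 < w := by rw [hw]; positivity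
  have hw1 : w ≤ 1 + u / (3 * v) := by
    rw [hw, div_le_iff₀ (by positivity)]
    have : (1 + u / (3 * v)) * (3 * v) = 3 * v + u := by field_simp
    linarith
  have hw2 : 1 - u / (3 * v) ≤ w := by
    rw [hw, le_div_iff₀ (by positivity)]
    have : (1 - u / (3 * v)) * (3 * v) = 3 * v - u := by field_simp
    linarith
  have hr : rr d y = Real.log w := by rw [hw]; rfl
  have hq : u / (3 * v) ≤ 1 / 3 := by
    rw [div_le_div_iff₀ (by positivity) (by norm_num)]
    linarith
  have hq0 : 0 ≤ u / (3 * v) := by positivity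
  have hmain : u / (3 * v) * (3 / 2) ≤ u / (v + u) := by
    rw [div_mul_eq_mul_div, div_le_div_iff₀ (by positivity) (by positivity)]
    nlinarith
  rw [hr, abs_le]
  constructor
  · have e1 : 1 - 1 / w ≤ Real.log w := by
      have := Real.one_sub_inv_le_log_of_pos hw0
      rwa [inv_eq_one_div] at this
    have e2 : (2 / 3 : ℝ) ≤ w := by linarith
    have e3 : 1 / w - 1 ≤ u / (3 * v) * (3 / 2) := by
      rw [div_sub' hw0.ne', div_le_iff₀ hw0]
      nlinarith
    linarith
  · have e1 : Real.log w ≤ w - 1 := Real.log_le_sub_one_of_pos hw0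
    linarith

/-- `∑_{1 ≤ n ≤ N} log (N / n) ≤ N`. -/
theorem sum_log_nat (N : ℕ) (hN : 1 ≤ N) : ∑ n ∈ Icc 1 N, Real.log ((N : ℝ) / n) ≤ N := by
  have h1 : ∑ n ∈ Icc 1 N, Real.log ((N : ℝ) / n) = Real.log ((N : ℝ) ^ N / (N.factorial : ℝ)) := by
    have hne : ∀ n ∈ Icc 1 N, ((N : ℝ) / n) ≠ 0 := by
      intro n hn
      rw [mem_Icc] at hn
      have : (0 : ℝ) < n := by exact_mod_cast (by omega : 0 < n)
      have : (0 : ℝ) < N := by exact_mod_cast (by omega : 0 < N)
      positivity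
    rw [← Real.log_prod hne]
    congr 1
    rw [Finset.prod_div_distrib]
    congr 1
    · rw [Finset.prod_const, Nat.card_Icc]; simp
    · have hfac : ∀ M : ℕ, ∏ n ∈ Icc 1 M, (n : ℝ) = (M.factorial : ℝ) := by
        intro M
        induction M with
        | zero => simp
        | succ k ih =>
          rw [Finset.prod_Icc_succ_top (by omega), ih, Nat.factorial_succ]
          push_cast
          ring
      exact hfac N
  rw [h1]
  have h2 := Real.pow_div_factorial_le_exp (N : ℝ) (by positivity) N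
  have h3 : 0 < (N : ℝ) ^ N / (N.factorial : ℝ) := by
    have : (0 : ℝ) < N := by exact_mod_cast (by omega : 0 < N)
    positivity
  calc Real.log ((N : ℝ) ^ N / (N.factorial : ℝ)) ≤ Real.log (Real.exp N) := Real.log_le_log h3 h2
    _ = N := Real.log_exp _

/-- The logarithms `log (N / |z|)` over nonzero integers `z` with `|z| ≤ N` sum up to at most `2 N`. -/
theorem sum_log_int (N : ℕ) (hN : 1 ≤ N) (A : Finset ℤ) (hA : ∀ z ∈ A, z ≠ 0 ∧ |(z : ℝ)| ≤ N) :
    ∑ z ∈ A, Real.log ((N : ℝ) / |(z : ℝ)|) ≤ 2 * N := by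
  classical
  have hN0 : (0 : ℝ) < N := by exact_mod_cast (by omega : 0 < N)
  have key : ∀ s : ℤ, s = 1 ∨ s = -1 → ∑ z ∈ A.filter (fun z => 0 < s * z), Real.log ((N : ℝ) / |(z : ℝ)|) ≤ N := by
    intro s hs
    refine le_trans ?_ (sum_log_nat N hN)
    have hinj : Set.InjOn (fun z : ℤ => (s * z).toNat) (A.filter (fun z => 0 < s * z) : Finset ℤ) := by
      intro z hz w hw hzw
      simp only [coe_filter, Set.mem_ofPred_eq] at hz hw
      have h1 : s * z = s * w := by
        have := hzw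
        simp only at this
        omega
      rcases hs with rfl | rfl <;> omega
    have e1 : ∑ z ∈ A.filter (fun z => 0 < s * z), Real.log ((N : ℝ) / |(z : ℝ)|) =
        ∑ n ∈ (A.filter (fun z => 0 < s * z)).image (fun z : ℤ => (s * z).toNat), Real.log ((N : ℝ) / n) := by
      rw [Finset.sum_image hinj]
      refine Finset.sum_congr rfl fun z hz => ?_
      rw [mem_filter] at hz
      have h2 : (((s * z).toNat : ℕ) : ℝ) = |(z : ℝ)| := by
        have h3 : (((s * z).toNat : ℤ) : ℝ) = ((s * z : ℤ) : ℝ) := by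
          rw [Int.toNat_of_nonneg hz.2.le]
        rw [Int.cast_natCast] at h3
        rw [h3]
        push_cast
        have h4 : (0 : ℝ) < (s : ℝ) * z := by exact_mod_cast hz.2
        rw [← abs_of_pos h4, abs_mul]
        rcases hs with rfl | rfl <;> simp
      rw [h2]
    rw [e1]
    refine Finset.sum_le_sum_of_subset_of_nonneg ?_ ?_
    · intro n hn
      rw [mem_image] at hn
      obtain ⟨z, hz, rfl⟩ := hn
      rw [mem_filter] at hz
      rw [mem_Icc]
      have h5 := (hA z hz.1).2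
      have h6 : |z| ≤ (N : ℤ) := by exact_mod_cast h5
      rw [abs_le] at h6
      constructor
      · omega
      · rcases hs with rfl | rfl <;> omega
    · intro n hn _
      rw [mem_Icc] at hn
      have hn0 : (0 : ℝ) < n := by exact_mod_cast (by omega : 0 < n)
      apply Real.log_nonneg
      rw [le_div_iff₀ hn0]
      have : (n : ℝ) ≤ N := by exact_mod_cast hn.2
      linarith
  have hsplit : ∑ z ∈ A, Real.log ((N : ℝ) / |(z : ℝ)|) =
      ∑ z ∈ A.filter (fun z => 0 < 1 * z), Real.log ((N : ℝ) / |(z : ℝ)|) +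
      ∑ z ∈ A.filter (fun z => 0 < -1 * z), Real.log ((N : ℝ) / |(z : ℝ)|) := by
    rw [← Finset.sum_filter_add_sum_filter_not A (fun z => 0 < 1 * z)]
    congr 1
    refine Finset.sum_congr ?_ fun _ _ => rfl
    ext z
    simp only [mem_filter]
    constructor
    · rintro ⟨h1, h2⟩
      exact ⟨h1, by have := (hA z h1).1; omega⟩
    · rintro ⟨h1, h2⟩
      exact ⟨h1, by omega⟩
  rw [hsplit]
  have h1 := key 1 (Or.inl rfl)
  have h2 := key (-1) (Or.inr rfl)
  linarith

/-- Sum of `|log |1 + d/(3y)||` over distinct nonzero integers `y` with `|y| ≤ |d|`. -/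
theorem rr_small {d : ℤ} (h3 : ¬ (3 : ℤ) ∣ d) (A : Finset ℤ)
    (hA : ∀ y ∈ A, y ≠ 0 ∧ |(y : ℝ)| ≤ |(d : ℝ)|) : ∑ y ∈ A, |rr d y| ≤ 16 * |(d : ℝ)| := by
  classical
  have hd : d ≠ 0 := by rintro rfl; exact h3 (dvd_zero _)
  have hd0 : (0 : ℝ) < |(d : ℝ)| := abs_pos.2 (by exact_mod_cast hd)
  obtain ⟨N, hN⟩ : ∃ N : ℕ, N = 4 * d.natAbs := ⟨_, rfl⟩
  have hNR : (N : ℝ) = 4 * |(d : ℝ)| := by
    rw [hN]
    push_cast
    rw [Nat.cast_natAbs]
    push_cast
    ring
  have hN1 : 1 ≤ N := by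
    have := Int.natAbs_pos.2 hd
    omega
  have hN0 : (0 : ℝ) < N := by exact_mod_cast hN1
  have i1 : Set.InjOn (fun y : ℤ => 3 * y) (A : Set ℤ) := fun y _ z _ h => by
    simp only at h; omega
  have i2 : Set.InjOn (fun y : ℤ => 3 * y + d) (A : Set ℤ) := fun y _ z _ h => by
    simp only at h; omega
  have s1 := sum_log_int N hN1 (A.image fun y : ℤ => 3 * y) (by
    intro z hz
    rw [mem_image] at hz
    obtain ⟨y, hy, rfl⟩ := hz
    have := hA y hy
    refine ⟨by omega, ?_⟩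
    push_cast
    rw [abs_mul, abs_of_pos (by norm_num : (0 : ℝ) < 3), hNR]
    linarith [this.2])
  have s2 := sum_log_int N hN1 (A.image fun y : ℤ => 3 * y + d) (by
    intro z hz
    rw [mem_image] at hz
    obtain ⟨y, hy, rfl⟩ := hz
    have := hA y hy
    refine ⟨by omega, ?_⟩
    push_cast
    have h4 := abs_add_le (3 * (y : ℝ)) d
    rw [abs_mul, abs_of_pos (by norm_num : (0 : ℝ) < 3)] at h4
    rw [hNR]
    linarith [this.2])
  rw [Finset.sum_image i1] at s1
  rw [Finset.sum_image i2] at s2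
  have hpt : ∀ y ∈ A, |rr d y| ≤ Real.log ((N : ℝ) / |((3 * y : ℤ) : ℝ)|) +
      Real.log ((N : ℝ) / |((3 * y + d : ℤ) : ℝ)|) := by
    intro y hy
    obtain ⟨hy0, hyd⟩ := hA y hy
    have hyR : (0 : ℝ) < |(y : ℝ)| := abs_pos.2 (by exact_mod_cast hy0)
    have hne : 3 * y + d ≠ 0 := by omega
    have hnR : (0 : ℝ) < |3 * (y : ℝ) + d| := abs_pos.2 (by exact_mod_cast hne)
    have h4 := abs_add_le (3 * (y : ℝ)) d
    rw [abs_mul, abs_of_pos (by norm_num : (0 : ℝ) < 3)] at h4
    push_cast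
    rw [abs_mul, abs_of_pos (by norm_num : (0 : ℝ) < 3)]
    have a1 : 0 ≤ Real.log ((N : ℝ) / (3 * |(y : ℝ)|)) := by
      apply Real.log_nonneg
      rw [le_div_iff₀ (by positivity), hNR]
      linarith
    have a2 : 0 ≤ Real.log ((N : ℝ) / |3 * (y : ℝ) + d|) := by
      apply Real.log_nonneg
      rw [le_div_iff₀ hnR, hNR]
      linarith
    have a3 : rr d y = Real.log ((N : ℝ) / (3 * |(y : ℝ)|)) - Real.log ((N : ℝ) / |3 * (y : ℝ) + d|) := by
      unfold rr
      rw [Real.log_div hnR.ne' (by positivity), Real.log_div hN0.ne' (by positivity),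
        Real.log_div hN0.ne' hnR.ne']
      ring
    rw [a3]
    rw [abs_le]
    constructor <;> linarith
  refine (Finset.sum_le_sum hpt).trans ?_
  rw [Finset.sum_add_distrib]
  rw [hNR] at s1 s2
  rw [hNR]
  linarith

end Pool.Agent.Lib.MP_d0d59f_nt.CY
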