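import Mathlib
import Pool.Agent.Lib.MP_d0d59f_nt.CY.Cyc
import Pool.Agent.Lib.MP_d0d59f_nt.CY.Log

/-!
Cycles and orbits: decay of the sum of `1 / (|x| + |d|)` with the height of the set, the sum of
`|k log 2 - l log 3|` over all cycles, and the linearisation of orbit segments.
-/

namespace Pool.Agent.Lib.MP_d0d59f_nt.CY

open Finset

/-- The upper bound for the exceptional set which is used. -/
def PowerSav (c C : ℝ) : Prop := ∀ d : ℤ, Odd d → ¬ (3 : ℤ) ∣ d → ∀ B X : ℝ, 2 ≤ B → |(d : ℝ)| ≤ X →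
  (Set.ncard {x : ℤ | |(x : ℝ)| ≤ X ∧ ∀ k : ℕ, (k : ℝ) ≤ C * Real.log (X / |(d : ℝ)|) →
        B * |(d : ℝ)| < |(((T d)^[k] x : ℤ) : ℝ)|} : ℝ) ≤ C * X / B ^ c

theorem tr_high {d : ℤ} (hd : Odd d) {P : Set ℤ} (hP : Set.MapsTo (T d) P P) {B : ℝ} (hB : 1 ≤ B)
    (hPB : ∀ x ∈ P, B * |(d : ℝ)| < |(x : ℝ)|) {x : ℤ} (hxP : x ∈ P) (hx : Odd x) {X : ℝ} {m : ℤ}
    (hm : m ∈ tr d X x) (n : ℕ) : B * |(d : ℝ)| < |(((T d)^[n] m : ℤ) : ℝ)| := by
  obtain ⟨_, k, hk, hbar⟩ := hm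
  have hd0 : (0 : ℝ) ≤ |(d : ℝ)| := abs_nonneg _
  rcases le_or_gt n k with h | h
  · have h1 := hbar n h
    have hx1 := hPB x hxP
    have h2 : 3 * |(x : ℝ)| - |(d : ℝ)| ≤ |((3 * x + d : ℤ) : ℝ)| := by
      push_cast
      have := abs_sub_abs_le_abs_sub (3 * (x : ℝ)) (-d)
      rw [abs_mul, abs_of_pos (by norm_num : (0 : ℝ) < 3), abs_neg, sub_neg_eq_add] at this
      exact this
    have h3 : B * |(d : ℝ)| < |((3 * x + d : ℤ) : ℝ)| := by nlinarith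
    have h4 : |((3 * x + d : ℤ) : ℝ)| ≤ |(((T d)^[n] m : ℤ) : ℝ)| := by
      have h5 : (1 : ℝ) ≤ |(((T d)^[n] m : ℤ) : ℝ) / ((3 * x + d : ℤ) : ℝ)| := h1.trans (le_abs_self _)
      rw [abs_div] at h5
      have h6 : 0 < |((3 * x + d : ℤ) : ℝ)| := lt_of_le_of_lt (by positivity) h3
      rwa [le_div_iff₀ h6, one_mul] at h5
    linarith
  · obtain ⟨j, rfl⟩ := Nat.exists_eq_add_of_lt h
    have h1 : (T d)^[k + j + 1] m = (T d)^[j + 1] x := by
      rw [show k + j + 1 = (j + 1) + k by ring, Function.iterate_add_apply, hk, it_sib hd hx]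
    rw [h1]
    exact hPB _ (it_mem hP hxP _)

/-- The sum over odd elements with a unique preimage in `P`. -/
theorem sum_decay {c0 c C : ℝ} (hc0 : 0 < c0) (hlow : TreeLow c0) (hc : 0 < c) (hC : 0 < C)
    (hps : PowerSav c C) : ∃ C1 : ℝ, 0 < C1 ∧ ∀ d : ℤ, Odd d → ¬ (3 : ℤ) ∣ d → ∀ B : ℝ, 0 ≤ B →
      ∀ P : Set ℤ, Set.MapsTo (T d) P P → (∀ x ∈ P, B * |(d : ℝ)| < |(x : ℝ)|) → ∀ S : Finset ℤ,
        (∀ x ∈ S, x ∈ P ∧ Odd x ∧ ∀ y ∈ P, T d y = T d x → y = x) →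
          ∑ x ∈ S, 1 / (|(x : ℝ)| + |(d : ℝ)|) ≤ C1 / (1 + B) ^ c := by
  refine ⟨3 / c0 * C * (3 / 2) ^ c + 9 / c0 * 3 ^ c, by positivity, ?_⟩
  intro d hd h3 B hB P hP hPB S hS
  have hd0 : (1 : ℝ) ≤ |(d : ℝ)| := by
    have h : d ≠ 0 := by rintro rfl; exact absurd hd (by decide)
    have h1 : 1 ≤ |d| := Int.one_le_abs h
    exact_mod_cast h1
  have hB1 : (0 : ℝ) < 1 + B := by linarith
  obtain ⟨X, hXdef⟩ : ∃ X : ℝ, X = ∑ x ∈ S, |((3 * x + d : ℤ) : ℝ)| + |(d : ℝ)| := ⟨_, rfl⟩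
  have hX : ∀ x ∈ S, |((3 * x + d : ℤ) : ℝ)| + |(d : ℝ)| ≤ X := by
    intro x hx
    rw [hXdef]
    have := Finset.single_le_sum (f := fun x : ℤ => |((3 * x + d : ℤ) : ℝ)|) (fun _ _ => abs_nonneg _) hx
    linarith
  have hXd : |(d : ℝ)| ≤ X := by
    rw [hXdef]
    have : 0 ≤ ∑ x ∈ S, |((3 * x + d : ℤ) : ℝ)| := Finset.sum_nonneg fun _ _ => abs_nonneg _
    linarith
  have hX0 : 0 < X := by linarith
  rw [add_div]
  rcases le_or_gt 2 B with h2 | h2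
  · have h1 := sum_le_count hc0 hlow hd h3 hP S hS
      (fun m => ∀ k : ℕ, (k : ℝ) ≤ C * Real.log (X / |(d : ℝ)|) →
        B * |(d : ℝ)| < |(((T d)^[k] m : ℤ) : ℝ)|)
      (fun x hx X' m hm k _ => tr_high hd hP (by linarith) hPB (hS x hx).1 (hS x hx).2.1 hm k) hX hX0
    have h4 := hps d hd h3 B X h2 hXd
    have h5 : 3 / c0 * ((Set.ncard {m : ℤ | |(m : ℝ)| ≤ X ∧ ∀ k : ℕ, (k : ℝ) ≤ C * Real.log (X / |(d : ℝ)|) →
        B * |(d : ℝ)| < |(((T d)^[k] m : ℤ) : ℝ)|} : ℝ) / X) ≤ 3 / c0 * (C / B ^ c) := by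
      refine mul_le_mul_of_nonneg_left ?_ (by positivity)
      rw [div_le_iff₀ hX0]
      refine h4.trans (le_of_eq ?_)
      ring
    have h6 : C / B ^ c ≤ C * (3 / 2) ^ c / (1 + B) ^ c := by
      have hBc : 0 < B ^ c := Real.rpow_pos_of_pos (by linarith) c
      have hBc1 : 0 < (1 + B) ^ c := Real.rpow_pos_of_pos hB1 c
      rw [div_le_div_iff₀ hBc hBc1]
      have h7 : (1 + B) ^ c ≤ (3 / 2) ^ c * B ^ c := by
        rw [← Real.mul_rpow (by norm_num) (by linarith)]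
        exact Real.rpow_le_rpow hB1.le (by linarith) hc.le
      nlinarith
    have h8 : 0 ≤ 9 / c0 * 3 ^ c / (1 + B) ^ c := by positivity
    have h9 : 3 / c0 * (C / B ^ c) ≤ 3 / c0 * (C * (3 / 2) ^ c / (1 + B) ^ c) :=
      mul_le_mul_of_nonneg_left h6 (by positivity)
    have h10 : 3 / c0 * (C * (3 / 2) ^ c / (1 + B) ^ c) = 3 / c0 * C * (3 / 2) ^ c / (1 + B) ^ c := by ring
    linarith
  · have h1 := sum_le_count hc0 hlow hd h3 hP S hS (fun _ => True) (fun _ _ _ _ _ => trivial) hX hX0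
    have h4 := ncard_int hX0.le (fun _ => True)
    have h5 : 3 / c0 * ((Set.ncard {m : ℤ | |(m : ℝ)| ≤ X ∧ True} : ℝ) / X) ≤ 3 / c0 * 3 := by
      refine mul_le_mul_of_nonneg_left ?_ (by positivity)
      rw [div_le_iff₀ hX0]
      linarith
    have h6 : 3 / c0 * 3 ≤ 9 / c0 * 3 ^ c / (1 + B) ^ c := by
      have h7 : (1 + B) ^ c ≤ 3 ^ c := Real.rpow_le_rpow hB1.le (by linarith) hc.le
      have hBc1 : 0 < (1 + B) ^ c := Real.rpow_pos_of_pos hB1 c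
      rw [le_div_iff₀ hBc1]
      have : 3 / c0 * 3 = 9 / c0 := by ring
      rw [this]
      exact mul_le_mul_of_nonneg_left h7 (by positivity)
    have h8 : 0 ≤ 3 / c0 * C * (3 / 2) ^ c / (1 + B) ^ c := by positivity
    linarith

/-- Sum of `|log |1 + d/(3y)||` over distinct odd elements, all but those of a set `A` with a unique
preimage in `P`. -/
theorem rr_sum {C1 c : ℝ} (hc1 : c ≤ 1) {d : ℤ} (hd : Odd d)
    (h3 : ¬ (3 : ℤ) ∣ d) {B : ℝ} (hB : 0 ≤ B) {P : Set ℤ} (hPB : ∀ x ∈ P, B * |(d : ℝ)| < |(x : ℝ)|)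
    (hsum : ∀ S : Finset ℤ, (∀ x ∈ S, x ∈ P ∧ Odd x ∧ ∀ y ∈ P, T d y = T d x → y = x) →
          ∑ x ∈ S, 1 / (|(x : ℝ)| + |(d : ℝ)|) ≤ C1 / (1 + B) ^ c)
    (S : Finset ℤ) (hS : ∀ x ∈ S, x ∈ P ∧ Odd x)
    (hone : ∀ x ∈ S, ∀ x' ∈ S, (∃ y ∈ P, T d y = T d x ∧ y ≠ x) → (∃ y ∈ P, T d y = T d x' ∧ y ≠ x') → x = x') :
    ∑ y ∈ S, |rr d y| ≤ (C1 + 40) * |(d : ℝ)| / (1 + B) ^ c := by
  classical
  have hd00 : d ≠ 0 := by rintro rfl; exact absurd hd (by decide)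
  have hd0 : (1 : ℝ) ≤ |(d : ℝ)| := by
    have h1 : 1 ≤ |d| := Int.one_le_abs hd00
    exact_mod_cast h1
  have hB1 : (0 : ℝ) < 1 + B := by linarith
  have hBc1 : 0 < (1 + B) ^ c := Real.rpow_pos_of_pos hB1 c
  have hBle : (1 + B) ^ c ≤ 1 + B := by
    have h1 : (1 : ℝ) ≤ 1 + B := by linarith
    calc (1 + B) ^ c ≤ (1 + B) ^ (1 : ℝ) := Real.rpow_le_rpow_of_exponent_le h1 hc1
      _ = 1 + B := Real.rpow_one _
  -- the three parts
  set S1 := S.filter (fun y : ℤ => |(y : ℝ)| < |(d : ℝ)|) with hS1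
  set S2 := S.filter (fun y : ℤ => ¬ |(y : ℝ)| < |(d : ℝ)|) with hS2
  set S3 := S2.filter fun x => ∃ y ∈ P, T d y = T d x ∧ y ≠ x with hS3
  set S4 := S2.filter fun x => ¬ ∃ y ∈ P, T d y = T d x ∧ y ≠ x with hS4
  have hsplit : ∑ y ∈ S, |rr d y| = ∑ y ∈ S1, |rr d y| + (∑ y ∈ S3, |rr d y| + ∑ y ∈ S4, |rr d y|) := by
    rw [hS3, hS4, Finset.sum_filter_add_sum_filter_not, hS1, hS2, Finset.sum_filter_add_sum_filter_not]
  have b1 : ∑ y ∈ S1, |rr d y| ≤ 32 * |(d : ℝ)| / (1 + B) ^ c := by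
    rcases le_or_gt 1 B with h | h
    · have : S1 = ∅ := by
        rw [hS1, Finset.filter_eq_empty_iff]
        intro y hy hlt
        have h1 := hPB y (hS y hy).1
        nlinarith
      rw [this, Finset.sum_empty]
      positivity
    · have h1 := rr_small h3 S1 (by
        intro y hy
        rw [hS1, mem_filter] at hy
        refine ⟨?_, hy.2.le⟩
        have := (hS y hy.1).2
        rintro rfl
        exact absurd this (by decide))
      refine h1.trans ?_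
      rw [le_div_iff₀ hBc1]
      nlinarith
  have b3 : ∑ y ∈ S3, |rr d y| ≤ 8 * |(d : ℝ)| / (1 + B) ^ c := by
    have hcard : S3.card ≤ 1 := by
      rw [Finset.card_le_one]
      intro x hx x' hx'
      rw [hS3, mem_filter, hS2, mem_filter] at hx hx'
      exact hone x hx.1.1 x' hx'.1.1 hx.2 hx'.2
    have hpt : ∀ y ∈ S3, |rr d y| ≤ 8 * |(d : ℝ)| / (1 + B) ^ c := by
      intro y hy
      rw [hS3, mem_filter, hS2, mem_filter] at hy
      have h1 := rr_large hd00 (not_lt.1 hy.1.2)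
      have h2 := hPB y (hS y hy.1.1).1
      refine h1.trans ?_
      rw [div_le_div_iff₀ (by positivity) hBc1]
      have h4 : (1 + B) ≤ 8 * (|(y : ℝ)| + |(d : ℝ)|) := by nlinarith
      have h5 : (1 + B) ^ c ≤ 8 * (|(y : ℝ)| + |(d : ℝ)|) := hBle.trans h4
      nlinarith
    calc ∑ y ∈ S3, |rr d y| ≤ ∑ _y ∈ S3, 8 * |(d : ℝ)| / (1 + B) ^ c := Finset.sum_le_sum hpt
      _ = S3.card * (8 * |(d : ℝ)| / (1 + B) ^ c) := by rw [Finset.sum_const, nsmul_eq_mul]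
      _ ≤ 1 * (8 * |(d : ℝ)| / (1 + B) ^ c) := by
          refine mul_le_mul_of_nonneg_right (by exact_mod_cast hcard) (by positivity)
      _ = _ := one_mul _
  have b4 : ∑ y ∈ S4, |rr d y| ≤ C1 * |(d : ℝ)| / (1 + B) ^ c := by
    have h1 := hsum S4 (by
      intro x hx
      rw [hS4, mem_filter, hS2, mem_filter] at hx
      refine ⟨(hS x hx.1.1).1, (hS x hx.1.1).2, fun y hy hyx => ?_⟩
      by_contra hne
      exact hx.2 ⟨y, hy, hyx, hne⟩)
    have hpt : ∀ y ∈ S4, |rr d y| ≤ |(d : ℝ)| * (1 / (|(y : ℝ)| + |(d : ℝ)|)) := by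
      intro y hy
      rw [hS4, mem_filter, hS2, mem_filter] at hy
      have h1 := rr_large hd00 (not_lt.1 hy.1.2)
      refine h1.trans (le_of_eq ?_)
      ring
    refine (Finset.sum_le_sum hpt).trans ?_
    rw [← Finset.mul_sum]
    calc |(d : ℝ)| * ∑ x ∈ S4, 1 / (|(x : ℝ)| + |(d : ℝ)|) ≤ |(d : ℝ)| * (C1 / (1 + B) ^ c) :=
          mul_le_mul_of_nonneg_left h1 (abs_nonneg _)
      _ = _ := by ring
  rw [hsplit]
  have : (C1 + 40) * |(d : ℝ)| / (1 + B) ^ c = 32 * |(d : ℝ)| / (1 + B) ^ c +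
      (8 * |(d : ℝ)| / (1 + B) ^ c + C1 * |(d : ℝ)| / (1 + B) ^ c) := by ring
  rw [this]
  exact add_le_add b1 (add_le_add b3 b4)

theorem merge_aux {d x : ℤ} {a b : ℕ} (hab : a < b) (hne : (T d)^[a] x ≠ (T d)^[b] x)
    (h : (T d)^[a + 1] x = (T d)^[b + 1] x) :
    (T d)^[a + 1] x ∈ Function.periodicPts (T d) ∧ (T d)^[a] x ∉ Function.periodicPts (T d) := by
  obtain ⟨j, rfl⟩ := Nat.exists_eq_add_of_lt hab
  constructor
  · refine Function.mk_mem_periodicPts (Nat.succ_pos j) ?_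
    unfold Function.IsPeriodicPt Function.IsFixedPt
    rw [← Function.iterate_add_apply, show j.succ + (a + 1) = a + j + 1 + 1 by omega]
    exact h.symm
  · intro hper
    apply hne
    refine (Function.bijOn_periodicPts (T d)).injOn hper ?_ ?_
    · obtain ⟨n, hn, hn'⟩ := hper
      rw [show a + j + 1 = (j + 1) + a by ring, Function.iterate_add_apply]
      exact Function.mk_mem_periodicPts hn (hn'.apply_iterate _)
    · rw [Function.iterate_succ_apply' (T d) a, Function.iterate_succ_apply' (T d) (a + j + 1)] at h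
      exact h

theorem per_add {d x : ℤ} {a : ℕ} (h : (T d)^[a] x ∈ Function.periodicPts (T d)) (j : ℕ) :
    (T d)^[a + j] x ∈ Function.periodicPts (T d) := by
  obtain ⟨n, hn, hn'⟩ := h
  rw [add_comm, Function.iterate_add_apply]
  exact Function.mk_mem_periodicPts hn (hn'.apply_iterate _)

theorem merge_unique {d x : ℤ} {a b a' b' : ℕ} (hne : (T d)^[a] x ≠ (T d)^[b] x)
    (h : (T d)^[a + 1] x = (T d)^[b + 1] x) (hne' : (T d)^[a'] x ≠ (T d)^[b'] x)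
    (h' : (T d)^[a' + 1] x = (T d)^[b' + 1] x) : (T d)^[a + 1] x = (T d)^[a' + 1] x := by
  have key : ∀ a b a' b' : ℕ, a < b → a' < b' → (T d)^[a] x ≠ (T d)^[b] x →
      (T d)^[a + 1] x = (T d)^[b + 1] x → (T d)^[a'] x ≠ (T d)^[b'] x →
      (T d)^[a' + 1] x = (T d)^[b' + 1] x → a = a' := by
    intro a b a' b' hab hab' hne h hne' h'
    obtain ⟨h1, h2⟩ := merge_aux hab hne h
    obtain ⟨h3, h4⟩ := merge_aux hab' hne' h'
    rcases lt_trichotomy a a' with hlt | heq | hgt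
    · obtain ⟨j, rfl⟩ := Nat.exists_eq_add_of_lt hlt
      exact absurd (by rw [show a + j + 1 = a + 1 + j by ring]; exact per_add h1 j) h4
    · exact heq
    · obtain ⟨j, rfl⟩ := Nat.exists_eq_add_of_lt hgt
      exact absurd (by rw [show a' + j + 1 = a' + 1 + j by ring]; exact per_add h3 j) h2
  have hab : a ≠ b := by rintro rfl; exact hne rfl
  have hab' : a' ≠ b' := by rintro rfl; exact hne' rfl
  rcases lt_or_gt_of_ne hab with h1 | h1 <;> rcases lt_or_gt_of_ne hab' with h2 | h2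
  · rw [key a b a' b' h1 h2 hne h hne' h']
  · rw [key a b b' a' h1 h2 hne h hne'.symm h'.symm, h']
  · rw [h, key b a a' b' h1 h2 hne.symm h.symm hne' h']
  · rw [h, key b a b' a' h1 h2 hne.symm h.symm hne'.symm h'.symm, h']

theorem high_ne {d : ℤ} {B : ℝ} (hB : 0 ≤ B) {y : ℤ} (h : B * |(d : ℝ)| < |(y : ℝ)|) : y ≠ 0 := by
  rintro rfl
  simp only [Int.cast_zero, abs_zero] at h
  have : 0 ≤ B * |(d : ℝ)| := by positivity
  linarith

/-- Linearisation of orbit segments without repetition. -/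
theorem segment {C1 c : ℝ} (hc1 : c ≤ 1) {d : ℤ} (hd : Odd d)
    (h3 : ¬ (3 : ℤ) ∣ d) {B : ℝ} (hB : 0 ≤ B)
    (hsum : ∀ P : Set ℤ, Set.MapsTo (T d) P P → (∀ x ∈ P, B * |(d : ℝ)| < |(x : ℝ)|) → ∀ S : Finset ℤ,
      (∀ x ∈ S, x ∈ P ∧ Odd x ∧ ∀ y ∈ P, T d y = T d x → y = x) →
          ∑ x ∈ S, 1 / (|(x : ℝ)| + |(d : ℝ)|) ≤ C1 / (1 + B) ^ c)
    (x : ℤ) (n : ℕ) (hh : ∀ i : ℕ, B * |(d : ℝ)| < |(((T d)^[i] x : ℤ) : ℝ)|)
    (hinj : ∀ i < n, ∀ j < n, (T d)^[i] x = (T d)^[j] x → i = j) :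
    |Real.log |(((T d)^[n] x : ℤ) : ℝ)| - Real.log |(x : ℝ)| -
      ((ones d x n : ℝ) * Real.log 3 - (n : ℝ) * Real.log 2)| ≤ (C1 + 40) * |(d : ℝ)| / (1 + B) ^ c := by
  classical
  have h0 := log_iter hd x n (fun i _ => high_ne hB (hh i))
  set I := (range n).filter (fun i => (T d)^[i] x % 2 = 1) with hI
  have hinjI : Set.InjOn (fun i => (T d)^[i] x) (I : Set ℕ) := by
    intro i hi j hj hij
    rw [mem_coe, hI, mem_filter, mem_range] at hi hj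
    exact hinj i hi.1 j hj.1 hij
  have h1 : ∑ i ∈ I, |rr d ((T d)^[i] x)| = ∑ y ∈ I.image (fun i => (T d)^[i] x), |rr d y| := by
    rw [Finset.sum_image hinjI]
  set P : Set ℤ := Set.range (fun i : ℕ => (T d)^[i] x) with hP
  have hPm : Set.MapsTo (T d) P P := by
    rintro _ ⟨i, rfl⟩
    exact ⟨i + 1, Function.iterate_succ_apply' _ _ _⟩
  have hPB : ∀ y ∈ P, B * |(d : ℝ)| < |(y : ℝ)| := by
    rintro _ ⟨i, rfl⟩
    exact hh i
  have h2 := rr_sum (C1 := C1) hc1 hd h3 hB hPB (hsum P hPm hPB) (I.image (fun i => (T d)^[i] x)) (by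
    intro y hy
    rw [mem_image] at hy
    obtain ⟨i, hi, rfl⟩ := hy
    rw [hI, mem_filter] at hi
    exact ⟨⟨i, rfl⟩, Int.odd_iff.2 hi.2⟩) (by
    intro y hy y' hy' hex hex'
    rw [mem_image] at hy hy'
    obtain ⟨a, ha, rfl⟩ := hy
    obtain ⟨a', ha', rfl⟩ := hy'
    obtain ⟨_, ⟨b, rfl⟩, hb1, hb2⟩ := hex
    obtain ⟨_, ⟨b', rfl⟩, hb1', hb2'⟩ := hex'
    simp only at hb1 hb2 hb1' hb2' ⊢
    rw [hI, mem_filter] at ha ha'
    rw [← Function.iterate_succ_apply' (T d), ← Function.iterate_succ_apply' (T d)] at hb1 hb1'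
    have h5 := merge_unique (Ne.symm hb2) hb1.symm (Ne.symm hb2') hb1'.symm
    rw [Function.iterate_succ_apply', Function.iterate_succ_apply'] at h5
    have e1 := T_odd hd ha.2
    have e2 := T_odd hd ha'.2
    rw [h5] at e1
    omega)
  have h3' : Real.log |(((T d)^[n] x : ℤ) : ℝ)| - Real.log |(x : ℝ)| -
      ((ones d x n : ℝ) * Real.log 3 - (n : ℝ) * Real.log 2) = ∑ i ∈ I, rr d ((T d)^[i] x) := by
    rw [h0]
    ring
  rw [h3']
  refine (Finset.abs_sum_le_sum_abs _ _).trans ?_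
  rw [h1]
  exact h2

/-- The sum of `|k log 2 - l log 3|` over distinct cycles. -/
theorem cycles {C1 c : ℝ} (hc1 : c ≤ 1) {d : ℤ} (hd : Odd d)
    (h3 : ¬ (3 : ℤ) ∣ d) {B : ℝ} (hB : 0 ≤ B)
    (hsum : ∀ P : Set ℤ, Set.MapsTo (T d) P P → (∀ x ∈ P, B * |(d : ℝ)| < |(x : ℝ)|) → ∀ S : Finset ℤ,
      (∀ x ∈ S, x ∈ P ∧ Odd x ∧ ∀ y ∈ P, T d y = T d x → y = x) →
          ∑ x ∈ S, 1 / (|(x : ℝ)| + |(d : ℝ)|) ≤ C1 / (1 + B) ^ c)
    (S : Finset ℤ) (hS : ∀ x ∈ S, x ∈ Function.periodicPts (T d) ∧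
      ∀ i : ℕ, B * |(d : ℝ)| < |(((T d)^[i] x : ℤ) : ℝ)|)
    (hdist : ∀ x ∈ S, ∀ y ∈ S, ∀ i : ℕ, (T d)^[i] x = y → x = y) :
    ∑ x ∈ S, |(Function.minimalPeriod (T d) x : ℝ) * Real.log 2 -
      (ones d x (Function.minimalPeriod (T d) x) : ℝ) * Real.log 3| ≤
        (C1 + 40) * |(d : ℝ)| / (1 + B) ^ c := by
  classical
  obtain ⟨k, hk⟩ : ∃ k : ℤ → ℕ, k = fun x => Function.minimalPeriod (T d) x := ⟨_, rfl⟩
  have hkx : ∀ x, Function.minimalPeriod (T d) x = k x := fun x => by rw [hk]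
  set I : ℤ → Finset ℕ := fun x => (range (k x)).filter (fun i => (T d)^[i] x % 2 = 1) with hI
  set P : Set ℤ := {z | ∃ x ∈ S, ∃ i : ℕ, (T d)^[i] x = z} with hP
  have hPper : ∀ z ∈ P, z ∈ Function.periodicPts (T d) := by
    rintro z ⟨x, hx, i, rfl⟩
    have := per_add (a := 0) (x := x) (d := d) (by simpa using (hS x hx).1) i
    simpa using this
  have hPm : Set.MapsTo (T d) P P := by
    rintro _ ⟨x, hx, i, rfl⟩
    exact ⟨x, hx, i + 1, Function.iterate_succ_apply' _ _ _⟩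
  have hPB : ∀ y ∈ P, B * |(d : ℝ)| < |(y : ℝ)| := by
    rintro _ ⟨x, hx, i, rfl⟩
    exact (hS x hx).2 i
  have hinjI : ∀ x ∈ S, Set.InjOn (fun i => (T d)^[i] x) (I x : Set ℕ) := by
    intro x hx i hi j hj hij
    rw [mem_coe, hI, mem_filter, mem_range] at hi hj
    have h4 := Function.iterate_injOn_Iio_minimalPeriod (f := T d) (x := x)
    refine h4 ?_ ?_ hij
    · rw [Set.mem_Iio, hkx]; exact hi.1
    · rw [Set.mem_Iio, hkx]; exact hj.1
  have hdisj : (S : Set ℤ).PairwiseDisjoint (fun x => (I x).image (fun i => (T d)^[i] x)) := by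
    intro x hx y hy hxy
    rw [Function.onFun, Finset.disjoint_left]
    intro z hz hz'
    rw [mem_image] at hz hz'
    obtain ⟨i, hi, rfl⟩ := hz
    obtain ⟨j, hj, hij⟩ := hz'
    apply hxy
    rw [mem_coe] at hx hy
    rw [hI, mem_filter, mem_range] at hj
    refine hdist x hx y hy (k y - j + i) ?_
    rw [Function.iterate_add_apply, ← hij, ← Function.iterate_add_apply,
      show k y - j + j = k y by omega, ← hkx]
    exact Function.iterate_minimalPeriod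
  have hpt : ∀ x ∈ S, |(Function.minimalPeriod (T d) x : ℝ) * Real.log 2 -
      (ones d x (Function.minimalPeriod (T d) x) : ℝ) * Real.log 3| ≤ ∑ i ∈ I x, |rr d ((T d)^[i] x)| := by
    intro x hx
    have h0 := log_iter hd x (k x) (fun i _ => high_ne hB ((hS x hx).2 i))
    have h1 : (T d)^[k x] x = x := by rw [← hkx]; exact Function.iterate_minimalPeriod
    rw [h1, sub_self] at h0
    rw [hkx]
    have h2 : (k x : ℝ) * Real.log 2 - (ones d x (k x) : ℝ) * Real.log 3 =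
        ∑ i ∈ I x, rr d ((T d)^[i] x) := by
      rw [hI]
      linarith
    rw [h2]
    exact Finset.abs_sum_le_sum_abs _ _
  refine (Finset.sum_le_sum hpt).trans ?_
  have h1 : ∑ x ∈ S, ∑ i ∈ I x, |rr d ((T d)^[i] x)| =
      ∑ y ∈ S.biUnion (fun x => (I x).image (fun i => (T d)^[i] x)), |rr d y| := by
    rw [Finset.sum_biUnion hdisj]
    refine Finset.sum_congr rfl fun x hx => ?_
    rw [Finset.sum_image (hinjI x hx)]
  rw [h1]
  refine rr_sum (C1 := C1) hc1 hd h3 hB hPB (hsum P hPm hPB) _ ?_ ?_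
  · intro y hy
    rw [mem_biUnion] at hy
    obtain ⟨x, hx, hy⟩ := hy
    rw [mem_image] at hy
    obtain ⟨i, hi, rfl⟩ := hy
    rw [hI, mem_filter] at hi
    exact ⟨⟨x, hx, i, rfl⟩, Int.odd_iff.2 hi.2⟩
  · intro y hy y' hy' hex _
    exfalso
    obtain ⟨z, hz, hz1, hz2⟩ := hex
    rw [mem_biUnion] at hy
    obtain ⟨x, hx, hy⟩ := hy
    rw [mem_image] at hy
    obtain ⟨i, hi, rfl⟩ := hy
    exact hz2 ((Function.bijOn_periodicPts (T d)).injOn (hPper z hz) (hPper _ ⟨x, hx, i, rfl⟩) hz1)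

end Pool.Agent.Lib.MP_d0d59f_nt.CY
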