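import Mathlib
import Pool.Agent.Lib.MP_d0d59f_nt.CY.Main

/-!
Power saving together with the consequences for invariant sets, orbit segments and cycles.
-/

namespace Pool.Agent.Lib.MP_d0d59f_nt.CY

open Finset

theorem full {c0 : ℝ} (hc0 : 0 < c0) (hlow : TreeLow c0) {κ : ℝ} (hκ0 : 0 ≤ κ) (hκ1 : κ < 1)
    {c C : ℝ} (hκ : κ < c) (hC : 0 < C) (hps : PowerSav c C) :
    ∃ c' : ℝ, κ < c' ∧ ∃ C' : ℝ, 0 < C' ∧ ∀ d : ℤ, Odd d → ¬ (3 : ℤ) ∣ d →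
      (∀ B X : ℝ, 2 ≤ B → |(d : ℝ)| ≤ X →
        (Set.ncard {x : ℤ | |(x : ℝ)| ≤ X ∧ ∀ k : ℕ, (k : ℝ) ≤ C' * Real.log (X / |(d : ℝ)|) →
          B * |(d : ℝ)| < |(((T d)^[k] x : ℤ) : ℝ)|} : ℝ) ≤ C' * X / B ^ c') ∧
      ∀ B : ℝ, 0 ≤ B →
        (∀ P : Set ℤ, Set.MapsTo (T d) P P → (∀ x ∈ P, B * |(d : ℝ)| < |(x : ℝ)|) → ∀ S : Finset ℤ,
          (∀ x ∈ S, x ∈ P ∧ Odd x ∧ ∀ y ∈ P, T d y = T d x → y = x) →
            ∑ x ∈ S, 1 / (|(x : ℝ)| + |(d : ℝ)|) ≤ C' / (1 + B) ^ c') ∧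
        (∀ (x : ℤ) (n : ℕ), (∀ i : ℕ, B * |(d : ℝ)| < |(((T d)^[i] x : ℤ) : ℝ)|) →
          (∀ i < n, ∀ j < n, (T d)^[i] x = (T d)^[j] x → i = j) →
            |Real.log |(((T d)^[n] x : ℤ) : ℝ)| - Real.log |(x : ℝ)| -
              ((ones d x n : ℝ) * Real.log 3 - (n : ℝ) * Real.log 2)| ≤ C' * |(d : ℝ)| / (1 + B) ^ c') ∧
        (∀ S : Finset ℤ, (∀ x ∈ S, x ∈ Function.periodicPts (T d) ∧
            ∀ i : ℕ, B * |(d : ℝ)| < |(((T d)^[i] x : ℤ) : ℝ)|) →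
          (∀ x ∈ S, ∀ y ∈ S, ∀ i : ℕ, (T d)^[i] x = y → x = y) →
            ∑ x ∈ S, |(Function.minimalPeriod (T d) x : ℝ) * Real.log 2 -
              (ones d x (Function.minimalPeriod (T d) x) : ℝ) * Real.log 3| ≤
                C' * |(d : ℝ)| / (1 + B) ^ c') := by
  obtain ⟨c', hc'⟩ : ∃ c', c' = min c 1 := ⟨_, rfl⟩
  have hc'κ : κ < c' := by rw [hc']; exact lt_min hκ hκ1
  have hc'0 : 0 < c' := lt_of_le_of_lt hκ0 hc'κ
  have hc'1 : c' ≤ 1 := by rw [hc']; exact min_le_right _ _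
  have hps' : PowerSav c' C := by
    intro d hd h3 B X hB hX
    refine (hps d hd h3 B X hB hX).trans ?_
    have hX0 : 0 ≤ X := (abs_nonneg _).trans hX
    have h1 : B ^ c' ≤ B ^ c := Real.rpow_le_rpow_of_exponent_le (by linarith) (by rw [hc']; exact min_le_left _ _)
    have h2 : 0 < B ^ c' := Real.rpow_pos_of_pos (by linarith) _
    gcongr
  obtain ⟨C1, hC1, hsum⟩ := sum_decay hc0 hlow hc'0 hC hps'
  refine ⟨c', hc'κ, C + (C1 + 40), by positivity, ?_⟩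
  intro d hd h3
  have hd0 : (1 : ℝ) ≤ |(d : ℝ)| := by
    have h : d ≠ 0 := by rintro rfl; exact absurd hd (by decide)
    have h1 : 1 ≤ |d| := Int.one_le_abs h
    exact_mod_cast h1
  refine ⟨?_, ?_⟩
  · intro B X hB hX
    have hX0 : 0 < X := by linarith
    have hlog : 0 ≤ Real.log (X / |(d : ℝ)|) := Real.log_nonneg (by rwa [le_div_iff₀ (by linarith), one_mul])
    have h1 := hps' d hd h3 B X hB hX
    have hsub : {x : ℤ | |(x : ℝ)| ≤ X ∧ ∀ k : ℕ, (k : ℝ) ≤ (C + (C1 + 40)) * Real.log (X / |(d : ℝ)|) →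
          B * |(d : ℝ)| < |(((T d)^[k] x : ℤ) : ℝ)|} ⊆
        {x : ℤ | |(x : ℝ)| ≤ X ∧ ∀ k : ℕ, (k : ℝ) ≤ C * Real.log (X / |(d : ℝ)|) →
          B * |(d : ℝ)| < |(((T d)^[k] x : ℤ) : ℝ)|} := by
      rintro x ⟨hx1, hx2⟩
      refine ⟨hx1, fun k hk => hx2 k (hk.trans ?_)⟩
      exact mul_le_mul_of_nonneg_right (by linarith) hlog
    have h2 := Set.ncard_le_ncard hsub (fin_int X _)
    have h3 : 0 < B ^ c' := Real.rpow_pos_of_pos (by linarith) _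
    calc (Set.ncard {x : ℤ | |(x : ℝ)| ≤ X ∧ ∀ k : ℕ, (k : ℝ) ≤ (C + (C1 + 40)) * Real.log (X / |(d : ℝ)|) →
          B * |(d : ℝ)| < |(((T d)^[k] x : ℤ) : ℝ)|} : ℝ)
        ≤ (Set.ncard {x : ℤ | |(x : ℝ)| ≤ X ∧ ∀ k : ℕ, (k : ℝ) ≤ C * Real.log (X / |(d : ℝ)|) →
          B * |(d : ℝ)| < |(((T d)^[k] x : ℤ) : ℝ)|} : ℝ) := by exact_mod_cast h2
      _ ≤ C * X / B ^ c' := h1
      _ ≤ (C + (C1 + 40)) * X / B ^ c' := by
          exact div_le_div_of_nonneg_right (mul_le_mul_of_nonneg_right (by linarith) hX0.le) h3.le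
  · intro B hB
    have hB1 : (0 : ℝ) < 1 + B := by linarith
    have hBc : 0 < (1 + B) ^ c' := Real.rpow_pos_of_pos hB1 _
    have hs := hsum d hd h3 B hB
    have hle : (C1 + 40) * |(d : ℝ)| / (1 + B) ^ c' ≤ (C + (C1 + 40)) * |(d : ℝ)| / (1 + B) ^ c' :=
      div_le_div_of_nonneg_right (mul_le_mul_of_nonneg_right (by linarith) (abs_nonneg _)) hBc.le
    refine ⟨?_, ?_, ?_⟩
    · intro P hP hPB S hS
      exact (hs P hP hPB S hS).trans (div_le_div_of_nonneg_right (by linarith) hBc.le)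
    · intro x n hh hinj
      exact (segment hc'1 hd h3 hB hs x n hh hinj).trans hle
    · intro S hS hdist
      exact (cycles hc'1 hd h3 hB hs S hS hdist).trans hle

end Pool.Agent.Lib.MP_d0d59f_nt.CY
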