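import Mathlib
import Pool.Agent.Lib.MP_d0d59f_nt.PZ.K033
import Pool.Agent.Lib.MP_d0d59f_nt.PZ.K036

section

/-! Row pd-P06: sums of a periodic function over an interval. -/

namespace Pool.Agent.Lib.MP_d0d59f_nt.PD

open Finset

end Pool.Agent.Lib.MP_d0d59f_nt.PD

end

section

/-! Row C1 (about 200 lines): Fourier analysis on `ZMod (3^K)`. -/

namespace Pool.Agent.Lib.MP_d0d59f_nt.AA

open Finset

end Pool.Agent.Lib.MP_d0d59f_nt.AA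

end

section

/-! Row C1 (about 200 lines): Fourier analysis on `ZMod (3^K)`. -/

namespace Pool.Agent.Lib.MP_d0d59f_nt.AA

open Finset

end Pool.Agent.Lib.MP_d0d59f_nt.AA

end

section

/-! Row pd-P14a. -/

namespace Pool.Agent.Lib.MP_d0d59f_nt.PD

open Finset

private theorem p14a_m (n : ℕ) : (n : ℝ) + 1 ≤ 60 * (((n / 60 : ℕ) : ℝ) + 1) := by
  have h : n + 1 ≤ 60 * (n / 60 + 1) := by omega
  exact_mod_cast h

/-- Elementary: there is `K` with `n (3 n + 101)/(n/60 + 1)^5 ≤ K/(n+1)^2`-type bounds: since `60 (m + 1) ≥ n + 1`. -/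
theorem poly_bound (C : ℝ) (hC : 0 ≤ C) : ∃ K : ℝ, 0 ≤ K ∧ ∀ n : ℕ,
    2 ^ 60 * ((n : ℝ) + 1) * (C * ((3 * n + 100 : ℕ) + 1) / (((n / 60 : ℕ) : ℝ) + 1) ^ 5) ≤
      K / ((n : ℝ) + 1) ^ 2 := by
  obtain ⟨T, hT, hT0⟩ : ∃ T : ℝ, 2 ^ 60 = T ∧ 0 < T := ⟨_, rfl, by positivity⟩
  rw [hT]
  refine ⟨T * C * 101 * 60 ^ 5, by positivity, fun n => ?_⟩
  have hm := p14a_m n
  set x : ℝ := (n : ℝ) + 1 with hx
  set y : ℝ := ((n / 60 : ℕ) : ℝ) + 1 with hy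
  have hx1 : 1 ≤ x := by
    have : (0 : ℝ) ≤ n := Nat.cast_nonneg n
    linarith
  have hy0 : 0 < y := by linarith
  have h1 : (((3 * n + 100 : ℕ) : ℝ) + 1) ≤ 101 * x := by
    push_cast
    have : (0 : ℝ) ≤ n := Nat.cast_nonneg n
    linarith
  have h5 : x ^ 5 ≤ 60 ^ 5 * y ^ 5 := by
    rw [← mul_pow]
    exact pow_le_pow_left₀ (by linarith) hm 5
  rw [mul_div_assoc', div_le_div_iff₀ (by positivity) (by positivity)]
  have h2 : T * x * (C * (((3 * n + 100 : ℕ) : ℝ) + 1)) * x ^ 2 ≤ T * C * 101 * x ^ 4 := by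
    have : T * x * (C * (((3 * n + 100 : ℕ) : ℝ) + 1)) * x ^ 2 ≤
        T * x * (C * (101 * x)) * x ^ 2 := by gcongr
    refine this.trans (le_of_eq ?_)
    ring
  have h3 : T * C * 101 * x ^ 4 ≤ T * C * 101 * x ^ 5 := by
    apply mul_le_mul_of_nonneg_left _ (by positivity)
    exact pow_le_pow_right₀ hx1 (by norm_num)
  have h4 : T * C * 101 * x ^ 5 ≤ T * C * 101 * (60 ^ 5 * y ^ 5) :=
    mul_le_mul_of_nonneg_left h5 (by positivity)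
  linarith

/-- Elementary: `(n+1)^3 (97/100)^(n/60)` is bounded. -/
theorem exp_bound : ∃ K : ℝ, 0 ≤ K ∧ ∀ n : ℕ,
    2 ^ 60 * ((n : ℝ) + 1) * (70 * (97 / 100) ^ (n / 60)) ≤ K / ((n : ℝ) + 1) ^ 2 := by
  have ht := tendsto_pow_const_mul_const_pow_of_abs_lt_one 3 (r := (97 / 100 : ℝ))
    (by rw [abs_of_pos (by norm_num)]; norm_num)
  obtain ⟨B, hB⟩ := ht.bddAbove_range
  have hB' : ∀ m : ℕ, ((m : ℝ) + 1) ^ 3 * (97 / 100) ^ m ≤ B * (100 / 97) := by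
    intro m
    have h1 := hB ⟨m + 1, rfl⟩
    simp only at h1
    rw [pow_succ] at h1
    push_cast at h1
    have h2 : ((m : ℝ) + 1) ^ 3 * (97 / 100) ^ m =
        ((m : ℝ) + 1) ^ 3 * ((97 / 100) ^ m * (97 / 100)) * (100 / 97) := by ring
    rw [h2]
    exact mul_le_mul_of_nonneg_right h1 (by norm_num)
  have hB0 : 0 ≤ B := by
    have h1 := hB' 0
    norm_num at h1
    linarith
  refine ⟨2 ^ 60 * 70 * 60 ^ 3 * (B * (100 / 97)), by positivity, fun n => ?_⟩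
  have hm := p14a_m n
  have h1 := hB' (n / 60)
  have hx0 : 0 < (n : ℝ) + 1 := by positivity
  rw [le_div_iff₀ (by positivity)]
  have h3 : ((n : ℝ) + 1) ^ 3 ≤ 60 ^ 3 * (((n / 60 : ℕ) : ℝ) + 1) ^ 3 := by
    rw [← mul_pow]
    exact pow_le_pow_left₀ hx0.le hm 3
  calc 2 ^ 60 * ((n : ℝ) + 1) * (70 * (97 / 100) ^ (n / 60)) * ((n : ℝ) + 1) ^ 2
      = 2 ^ 60 * 70 * (((n : ℝ) + 1) ^ 3 * (97 / 100) ^ (n / 60)) := by ring
    _ ≤ 2 ^ 60 * 70 * (60 ^ 3 * (((n / 60 : ℕ) : ℝ) + 1) ^ 3 * (97 / 100) ^ (n / 60)) := by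
        apply mul_le_mul_of_nonneg_left _ (by positivity)
        exact mul_le_mul_of_nonneg_right h3 (by positivity)
    _ = 2 ^ 60 * 70 * 60 ^ 3 * ((((n / 60 : ℕ) : ℝ) + 1) ^ 3 * (97 / 100) ^ (n / 60)) := by ring
    _ ≤ 2 ^ 60 * 70 * 60 ^ 3 * (B * (100 / 97)) := by
        apply mul_le_mul_of_nonneg_left h1 (by positivity)

end Pool.Agent.Lib.MP_d0d59f_nt.PD

end
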