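import Mathlib
import Pool.Agent.Lib.MP_d0d59f_nt.PZ.K033
import Pool.Agent.Lib.MP_d0d59f_nt.PZ.K036
import Pool.Agent.Lib.MP_d0d59f_nt.CY.N002

section

/-!
Growth exponent of predecessor sets of `T_d`: definitions.

Words are lists of natural numbers; the HEAD of a word is the first step DOWN from the root of the
inverse tree (= the last step in time).  A path of `n` blocks is a list of `n` words.
-/

namespace Pool.Agent.Lib.MP_d0d59f_nt.GE

open Finset

/-! ### finite weighted sets, masses, entropies -/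

open Classical in
/-- Mass of the event `f = a` on the finite set `Ω` with the weights `p`. -/
noncomputable def mass {ι A : Type*} (Ω : Finset ι) (p : ι → ℝ) (f : ι → A) (a : A) : ℝ :=
  ∑ i ∈ Ω, if f i = a then p i else 0

/-- Shannon entropy of the random variable `f`. -/
noncomputable def ent {ι A : Type*} (Ω : Finset ι) (p : ι → ℝ) (f : ι → A) : ℝ :=
  ∑ i ∈ Ω, p i * (-Real.log (mass Ω p f (f i)))

/-- Conditional mutual information `I(a ; b | c)`. -/
noncomputable def cmi {ι A B C : Type*} (Ω : Finset ι) (p : ι → ℝ) (a : ι → A) (b : ι → B)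
    (c : ι → C) : ℝ :=
  ent Ω p (fun i => (a i, c i)) + ent Ω p (fun i => (b i, c i))
    - ent Ω p (fun i => (a i, b i, c i)) - ent Ω p c

/-- Mutual information `I(a ; b)`. -/
noncomputable def mi {ι A B : Type*} (Ω : Finset ι) (p : ι → ℝ) (a : ι → A) (b : ι → B) : ℝ :=
  ent Ω p a + ent Ω p b - ent Ω p (fun i => (a i, b i))

/-- `p` is a probability on `Ω`. -/
def IsProb {ι : Type*} (Ω : Finset ι) (p : ι → ℝ) : Prop :=
  (∀ i ∈ Ω, 0 ≤ p i) ∧ ∑ i ∈ Ω, p i = 1

/-! ### the inverse tree -/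

/-- One step down: `x ↦ (2^a x - 1)/3`. -/
def stp (a : ℕ) (x : ℤ) : ℤ := (2 ^ a * x - 1) / 3

/-- End point of a word started at `x`. -/
def act : List ℕ → ℤ → ℤ
  | [], x => x
  | a :: α, x => act α (stp a x)

/-- All nodes of the word started at `x` are integers prime to `3`, all entries are `≥ 1`. -/
def valid : List ℕ → ℤ → Prop
  | [], x => ¬ (3 : ℤ) ∣ x
  | a :: α, x => ¬ (3 : ℤ) ∣ x ∧ 1 ≤ a ∧ (3 : ℤ) ∣ 2 ^ a * x - 1 ∧ valid α (stp a x)

/-- Weight `3^n / 2^{|α|}` of a word of length `n`. -/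
noncomputable def wt (α : List ℕ) : ℝ := 3 ^ α.length / 2 ^ α.sum

/-- Words of length `n` with entries in `[1, M]`. -/
def wds (M : ℕ) : ℕ → Finset (List ℕ)
  | 0 => {[]}
  | n + 1 => (Icc 1 M ×ˢ wds M n).image fun q => q.1 :: q.2

/-- The blocks: words of length `L`, entries in `[1, M]`, even sum `≥ 17 L / 10`. -/
def blk (L M : ℕ) : Finset (List ℕ) :=
  (wds M L).filter fun α => Even α.sum ∧ 17 * L ≤ 10 * α.sum

open Classical in
/-- Total weight of the blocks valid at `x`. -/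
noncomputable def NN (L M : ℕ) (x : ℤ) : ℝ := ∑ α ∈ blk L M, if valid α x then wt α else 0

open Classical in
/-- The natural kernel. -/
noncomputable def kp (L M : ℕ) (x : ℤ) (α : List ℕ) : ℝ :=
  (if valid α x then wt α else 0) / NN L M x

/-- A finite-range transition kernel on the inverse tree: one transition is a word (block) of length
`L` with even sum, chosen with probability `κ x α`, which depends on `x` modulo `3^(L+1)` only. -/
structure Ker where
  L : ℕ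
  M : ℕ
  B : Finset (List ℕ)
  κ : ℤ → List ℕ → ℝ
  hL : 1 ≤ L
  len : ∀ α ∈ B, α.length = L
  bd : ∀ α ∈ B, ∀ a ∈ α, 1 ≤ a ∧ a ≤ M
  even : ∀ α ∈ B, Even α.sum
  nonneg : ∀ x α, 0 ≤ κ x α
  sum_one : ∀ x : ℤ, ¬ (3 : ℤ) ∣ x → ∑ α ∈ B, κ x α = 1
  supp : ∀ x : ℤ, ∀ α ∈ B, κ x α ≠ 0 → valid α x
  per : ∀ x y : ℤ, x ≡ y [ZMOD 3 ^ (L + 1)] → ∀ α ∈ B, κ x α = κ y α
  c0 : ℝ
  c0_pos : 0 < c0
  ent_ge : ∀ x : ℤ, ¬ (3 : ℤ) ∣ x → c0 ≤ ∑ α ∈ B, Real.negMulLog (κ x α)

/-- All paths of `n` blocks. -/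
def wn (B : Finset (List ℕ)) : ℕ → Finset (List (List ℕ))
  | 0 => {[]}
  | n + 1 => (B ×ˢ wn B n).image fun q => q.1 :: q.2

/-- End point of a path. -/
def run : List (List ℕ) → ℤ → ℤ
  | [], x => x
  | α :: u, x => run u (act α x)

/-- Probability of a path started at `x`. -/
noncomputable def prb (κ : ℤ → List ℕ → ℝ) : List (List ℕ) → ℤ → ℝ
  | [], _ => 1
  | α :: u, x => κ x α * prb κ u (act α x)

/-- Transition operator. -/
noncomputable def PP (K : Ker) (f : ℤ → ℝ) (x : ℤ) : ℝ := ∑ α ∈ K.B, K.κ x α * f (act α x)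

/-- Transition operator of `n` blocks. -/
noncomputable def PN (K : Ker) (n : ℕ) (f : ℤ → ℝ) (x : ℤ) : ℝ :=
  ∑ u ∈ wn K.B n, prb K.κ u x * f (run u x)

/-- Entropy of `X_n mod 3^k`, where `X_n` is the end point of the random path of `n` blocks
started at `x`. -/
noncomputable def hh (K : Ker) (n : ℕ) (x : ℤ) (k : ℕ) : ℝ :=
  ent (wn K.B n) (fun u => prb K.κ u x) fun u => ((run u x : ℤ) : ZMod (3 ^ k))

/-- Conditional entropy of the `j`-th ternary digit of `X_n` given `X_n mod 3^j`. -/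
noncomputable def dg (K : Ker) (n : ℕ) (x : ℤ) (j : ℕ) : ℝ := hh K n x (j + 1) - hh K n x j

/-- Bounded functions. -/
def Bdd (f : ℤ → ℝ) : Prop := ∃ C : ℝ, ∀ x, |f x| ≤ C

/-- A mean on the integers prime to `3`, invariant under the kernel. -/
structure Mean (K : Ker) where
  Θ : (ℤ → ℝ) → ℝ
  add : ∀ f g : ℤ → ℝ, Bdd f → Bdd g → Θ (fun x => f x + g x) = Θ f + Θ g
  smul : ∀ (c : ℝ) (f : ℤ → ℝ), Bdd f → Θ (fun x => c * f x) = c * Θ f
  mono : ∀ f g : ℤ → ℝ, Bdd f → Bdd g → (∀ x : ℤ, ¬ (3 : ℤ) ∣ x → f x ≤ g x) → Θ f ≤ Θ g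
  one : Θ (fun _ => 1) = 1
  inv : ∀ f : ℤ → ℝ, Bdd f → Θ (PP K f) = Θ f

/-- Average over the residue class `c` modulo `3` of a function of period `3^(k+1)`. -/
noncomputable def avg (k : ℕ) (c : ℤ) (f : ℤ → ℝ) : ℝ :=
  (∑ i ∈ range (3 ^ k), f (c + 3 * i)) / 3 ^ k

end Pool.Agent.Lib.MP_d0d59f_nt.GE

end

section

/-! Row pd-P01: words, barrier. -/

namespace Pool.Agent.Lib.MP_d0d59f_nt.PD

open Finset

end Pool.Agent.Lib.MP_d0d59f_nt.PD

end

section

/-! Row ge_A1a: words acting on integers. -/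

namespace Pool.Agent.Lib.MP_d0d59f_nt.GE

open Finset

theorem act_append (α β : List ℕ) (x : ℤ) : act (α ++ β) x = act β (act α x) := by
  induction α generalizing x with
  | nil => rfl
  | cons a α ih => exact ih (stp a x)

theorem valid_append (α β : List ℕ) (x : ℤ) :
    valid (α ++ β) x ↔ valid α x ∧ valid β (act α x) := by
  induction α generalizing x with
  | nil =>
    constructor
    · intro h
      refine ⟨?_, h⟩
      cases β with
      | nil => exact h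
      | cons b β => exact h.1
    · intro h
      exact h.2
  | cons a α ih =>
    have h1 : valid (a :: α ++ β) x ↔
        (¬ (3 : ℤ) ∣ x ∧ 1 ≤ a ∧ (3 : ℤ) ∣ 2 ^ a * x - 1 ∧ valid (α ++ β) (stp a x)) := Iff.rfl
    have h2 : valid (a :: α) x ↔
        (¬ (3 : ℤ) ∣ x ∧ 1 ≤ a ∧ (3 : ℤ) ∣ 2 ^ a * x - 1 ∧ valid α (stp a x)) := Iff.rfl
    have h3 : act (a :: α) x = act α (stp a x) := rfl
    rw [h1, h2, h3, ih]
    tauto

theorem a1a_head {α : List ℕ} {x : ℤ} (h : valid α x) : ¬ (3 : ℤ) ∣ x := by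
  cases α with
  | nil => exact h
  | cons a α => exact h.1

/-- Both ends of a valid word are units. -/
theorem valid_unit {α : List ℕ} {x : ℤ} (h : valid α x) :
    ¬ (3 : ℤ) ∣ x ∧ ¬ (3 : ℤ) ∣ act α x := by
  refine ⟨a1a_head h, ?_⟩
  induction α generalizing x with
  | nil => exact h
  | cons a α ih => exact ih h.2.2.2

theorem valid_pos {α : List ℕ} {x : ℤ} (h : valid α x) : ∀ a ∈ α, 1 ≤ a := by
  induction α generalizing x with
  | nil =>
    intro a ha
    simp at ha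
  | cons b α ih =>
    intro a ha
    rcases List.mem_cons.1 ha with rfl | ha
    · exact h.2.1
    · exact ih h.2.2.2 a ha

theorem a1a_stp {a : ℕ} {x : ℤ} (h : (3 : ℤ) ∣ 2 ^ a * x - 1) : 3 * stp a x = 2 ^ a * x - 1 :=
  Int.mul_ediv_cancel' h

/-- `3^n (α.x) = 2^{|α|} x - C(α)`. Induction: `3 (stp a x) = 2^a x - 1`,
`cc (a :: α) = 2^{|α|} + 3 cc α`. -/
theorem act_identity {α : List ℕ} {x : ℤ} (h : valid α x) :
    3 ^ α.length * act α x = 2 ^ α.sum * x - (AA.cc α : ℤ) := by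
  induction α generalizing x with
  | nil => simp [act, AA.cc]
  | cons a α ih =>
    have h1 := ih h.2.2.2
    have h2 := a1a_stp h.2.2.1
    have h3 : act (a :: α) x = act α (stp a x) := rfl
    rw [h3, List.length_cons, List.sum_cons, AA.cc, pow_succ, pow_add]
    push_cast
    linear_combination 3 * h1 + 2 ^ α.sum * h2

/-- Validity of a word of length `n` depends on `x` modulo `3^(n+1)`. -/
theorem valid_congr {α : List ℕ} {x y : ℤ} (h : x ≡ y [ZMOD 3 ^ (α.length + 1)]) :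
    valid α x ↔ valid α y := by
  have key : ∀ (α : List ℕ) (x y : ℤ), x ≡ y [ZMOD 3 ^ (α.length + 1)] → valid α x →
      valid α y := by
    intro α
    induction α with
    | nil =>
      intro x y h hv
      have h1 : (3 : ℤ) ∣ y - x := by simpa using h.dvd
      have hv' : ¬ (3 : ℤ) ∣ x := hv
      show ¬ (3 : ℤ) ∣ y
      intro h2
      exact hv' ((dvd_sub_right h2).1 h1)
    | cons a α ih =>
      intro x y h hv
      have h1 : (3 : ℤ) ^ (α.length + 2) ∣ y - x := h.dvd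
      have h3 : (3 : ℤ) ∣ y - x := (dvd_pow_self 3 (by omega)).trans h1
      obtain ⟨hv1, hv2, hv3, hv4⟩ := hv
      have hy3 : (3 : ℤ) ∣ 2 ^ a * y - 1 := by
        have e : (2 : ℤ) ^ a * y - 1 = (2 ^ a * x - 1) + 2 ^ a * (y - x) := by ring
        rw [e]
        exact dvd_add hv3 (Dvd.dvd.mul_left h3 _)
      refine ⟨fun h2 => hv1 ((dvd_sub_right h2).1 h3), hv2, hy3, ih _ _ ?_ hv4⟩
      rw [Int.modEq_iff_dvd]
      have e : 3 * (stp a y - stp a x) = 2 ^ a * (y - x) := by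
        rw [mul_sub, a1a_stp hy3, a1a_stp hv3]
        ring
      have h4 : (3 : ℤ) * 3 ^ (α.length + 1) ∣ 3 * (stp a y - stp a x) := by
        rw [e, ← pow_succ']
        exact Dvd.dvd.mul_left h1 _
      exact Int.dvd_of_mul_dvd_mul_left (by norm_num) h4
  exact ⟨key α x y h, key α y x h.symm⟩

/-- For a word `α` of length `n` valid at `x` and at `y`: `x ≡ y mod 3^(k+n)` iff
`α.x ≡ α.y mod 3^k` (`act_identity`; `2^{|α|}` is a unit). -/
theorem act_congr {α : List ℕ} {x y : ℤ} (hx : valid α x) (hy : valid α y) (k : ℕ) :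
    x ≡ y [ZMOD 3 ^ (k + α.length)] ↔ act α x ≡ act α y [ZMOD 3 ^ k] := by
  have e : 3 ^ α.length * (act α y - act α x) = 2 ^ α.sum * (y - x) := by
    rw [mul_sub, act_identity hx, act_identity hy]
    ring
  have hc : IsCoprime ((3 : ℤ) ^ (k + α.length)) (2 ^ α.sum) := by
    refine IsCoprime.pow ?_
    norm_num [Int.isCoprime_iff_gcd_eq_one]
  rw [Int.modEq_iff_dvd, Int.modEq_iff_dvd]
  constructor
  · intro h
    have h1 : (3 : ℤ) ^ α.length * 3 ^ k ∣ 3 ^ α.length * (act α y - act α x) := by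
      rw [e, ← pow_add, add_comm]
      exact Dvd.dvd.mul_left h _
    exact Int.dvd_of_mul_dvd_mul_left (by positivity) h1
  · intro h
    have h1 : (3 : ℤ) ^ (k + α.length) ∣ 2 ^ α.sum * (y - x) := by
      rw [← e, add_comm k, pow_add]
      exact mul_dvd_mul_left _ h
    exact hc.dvd_of_dvd_mul_left h1

end Pool.Agent.Lib.MP_d0d59f_nt.GE

/-! Row ge_A1b: two words from the same point; separation of words. -/

namespace Pool.Agent.Lib.MP_d0d59f_nt.GE

open Finset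

/-- `C(α) < 3^n 2^{|α|}` for entries `≥ 1` and `n ≥ 1`; we state `cc α < 3^n * 2^{|α|}` for all `n`
(`cc [] = 0 < 1`). Induction: `2^{|α|} + 3 cc α < 3^{n+1} 2^{a+|α|}`. -/
theorem cc_lt {α : List ℕ} (h : ∀ a ∈ α, 1 ≤ a) : AA.cc α < 3 ^ α.length * 2 ^ α.sum := by
  induction α with
  | nil => simp [AA.cc]
  | cons a e ih =>
    have h1 := ih fun x hx => h x (List.mem_cons_of_mem _ hx)
    have ha : 1 ≤ a := h a (by simp)
    rw [AA.cc, List.length_cons, List.sum_cons, pow_add]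
    have h2 : 2 ≤ 2 ^ a := by
      calc 2 = 2 ^ 1 := by norm_num
        _ ≤ 2 ^ a := Nat.pow_le_pow_right (by norm_num) ha
    have h3 : 1 ≤ 3 ^ (e.length + 1) := Nat.one_le_pow _ _ (by norm_num)
    have h4 : 2 ^ e.sum ≤ 3 ^ (e.length + 1) * 2 ^ e.sum := Nat.le_mul_of_pos_left _ (by omega)
    have h5 : 3 * AA.cc e < 3 ^ (e.length + 1) * 2 ^ e.sum := by
      rw [pow_succ]
      nlinarith
    calc 2 ^ e.sum + 3 * AA.cc e < 2 * (3 ^ (e.length + 1) * 2 ^ e.sum) := by omega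
      _ ≤ 2 ^ a * (3 ^ (e.length + 1) * 2 ^ e.sum) := Nat.mul_le_mul_right _ h2
      _ = _ := by ring

/-- Words are determined by length, sum and `cc` (`AA.cc_inj`; see `AA.mem_comps`). -/
theorem word_inj {α β : List ℕ} (hα : ∀ a ∈ α, 1 ≤ a) (hβ : ∀ a ∈ β, 1 ≤ a)
    (hl : α.length = β.length) (hs : α.sum = β.sum) (hc : AA.cc α = AA.cc β) : α = β :=
  AA.cc_inj (t := α.length) (s := α.sum) (AA.mem_comps.2 ⟨rfl, rfl, hα⟩)
    (AA.mem_comps.2 ⟨hl.symm, hs.symm, hβ⟩) hc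

/-- Separation: two words of the same length `n` and sum valid at `x`, whose end points agree
modulo `3^k`, `k ≥ |α|`, are equal: `cc α ≡ cc β mod 3^{k+n}`, both are `< 3^n 2^{|α|} ≤ 3^{n+k}`, and
`word_inj`. -/
theorem word_sep {α β : List ℕ} {x : ℤ} (hα : valid α x) (hβ : valid β x)
    (hl : α.length = β.length) (hs : α.sum = β.sum) {k : ℕ} (hk : α.sum ≤ k)
    (h : act α x ≡ act β x [ZMOD 3 ^ k]) : α = β := by
  refine word_inj (valid_pos hα) (valid_pos hβ) hl hs ?_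
  have h1 := act_identity hα
  have h2 := act_identity hβ
  have c1 := cc_lt (valid_pos hα)
  have c2 := cc_lt (valid_pos hβ)
  rw [← hl, ← hs] at h2 c2
  obtain ⟨D, hD⟩ := h.dvd
  have h3 : (AA.cc α : ℤ) - AA.cc β = 3 ^ α.length * (3 ^ k) * D := by
    have : (AA.cc α : ℤ) - AA.cc β = 3 ^ α.length * (act β x - act α x) := by linarith
    rw [this, hD]
    ring
  have h4 : (2 : ℤ) ^ α.sum ≤ 3 ^ k :=
    calc (2 : ℤ) ^ α.sum ≤ 3 ^ α.sum := pow_le_pow_left₀ (by norm_num) (by norm_num) _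
      _ ≤ 3 ^ k := pow_le_pow_right₀ (by norm_num) hk
  have c1' : (AA.cc α : ℤ) < 3 ^ α.length * 3 ^ k := by
    have : (AA.cc α : ℤ) < 3 ^ α.length * 2 ^ α.sum := by exact_mod_cast c1
    exact this.trans_le (mul_le_mul_of_nonneg_left h4 (by positivity))
  have c2' : (AA.cc β : ℤ) < 3 ^ α.length * 3 ^ k := by
    have : (AA.cc β : ℤ) < 3 ^ α.length * 2 ^ α.sum := by exact_mod_cast c2
    exact this.trans_le (mul_le_mul_of_nonneg_left h4 (by positivity))
  have p1 : (0 : ℤ) ≤ AA.cc α := Int.natCast_nonneg _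
  have p2 : (0 : ℤ) ≤ AA.cc β := Int.natCast_nonneg _
  have hDz : D = 0 := by
    set P : ℤ := 3 ^ α.length * 3 ^ k with hP
    have hPpos : 0 < P := by positivity
    have hlt : D < 1 := by
      by_contra hcon
      push Not at hcon
      have : P * 1 ≤ P * D := mul_le_mul_of_nonneg_left hcon hPpos.le
      linarith
    have hgt : -1 < D := by
      by_contra hcon
      push Not at hcon
      have : P * D ≤ P * (-1) := mul_le_mul_of_nonneg_left hcon hPpos.le
      linarith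
    omega
  rw [hDz, mul_zero] at h3
  have : (AA.cc α : ℤ) = AA.cc β := by linarith
  exact_mod_cast this

/-- Two words of the same length `n` from the point `x`:
`3^n (2^{|α|} (β.x) - 2^{|β|} (α.x)) = 2^{|β|} C(α) - 2^{|α|} C(β)`. -/
theorem two_words {α β : List ℕ} {x : ℤ} (hα : valid α x) (hβ : valid β x)
    (hl : α.length = β.length) :
    3 ^ α.length * (2 ^ α.sum * act β x - 2 ^ β.sum * act α x) =
      2 ^ β.sum * (AA.cc α : ℤ) - 2 ^ α.sum * (AA.cc β : ℤ) := by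
  have h1 := act_identity hα
  have h2 := act_identity hβ
  rw [← hl] at h2
  linear_combination (2 : ℤ) ^ α.sum * h2 - (2 : ℤ) ^ β.sum * h1

/-- The digits `j, j+1` of an integer, as an element of `ℤ/9`. -/
def zj (j : ℕ) (x : ℤ) : ZMod 9 := ((x / 3 ^ j : ℤ) : ZMod 9)

theorem a1b_zj_sub {j : ℕ} {x y D : ℤ} (h : x - y = 3 ^ j * D) : zj j x - zj j y = (D : ZMod 9) := by
  have hx : x = y + 3 ^ j * D := by linarith
  have h1 : x / 3 ^ j = y / 3 ^ j + D := by
    rw [hx, Int.add_mul_ediv_left _ _ (by positivity)]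
  unfold zj
  rw [h1]
  push_cast
  ring

theorem a1b_dvd_iff (k : ℕ) (x y : ℤ) :
    (((x : ℤ) : ZMod (3 ^ k)) = ((y : ℤ) : ZMod (3 ^ k))) ↔ (3 : ℤ) ^ k ∣ x - y := by
  rw [← sub_eq_zero, ← Int.cast_sub, ZMod.intCast_zmod_eq_zero_iff_dvd]
  push_cast
  exact Iff.rfl

/-- The pair `(x mod 3^j, digits j, j+1)` is the same as `x mod 3^(j+2)`. -/
theorem zj_iff (j : ℕ) (x y : ℤ) :
    (((x : ℤ) : ZMod (3 ^ (j + 2))) = ((y : ℤ) : ZMod (3 ^ (j + 2)))) ↔
      (((x : ℤ) : ZMod (3 ^ j)) = ((y : ℤ) : ZMod (3 ^ j)) ∧ zj j x = zj j y) := by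
  rw [a1b_dvd_iff, a1b_dvd_iff]
  constructor
  · rintro ⟨D, hD⟩
    refine ⟨⟨9 * D, by rw [hD]; ring⟩, ?_⟩
    have h1 : x - y = 3 ^ j * (9 * D) := by rw [hD]; ring
    have h2 := a1b_zj_sub h1
    rw [← sub_eq_zero, h2]
    push_cast
    have : (9 : ZMod 9) = 0 := by decide
    rw [this, zero_mul]
  · rintro ⟨⟨D, hD⟩, hz⟩
    have h2 := a1b_zj_sub hD
    rw [hz, sub_self] at h2
    have h3 : (9 : ℤ) ∣ D := by
      have := (ZMod.intCast_zmod_eq_zero_iff_dvd D 9).1 h2.symm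
      exact_mod_cast this
    obtain ⟨E, hE⟩ := h3
    exact ⟨E, by rw [hD, hE]; ring⟩

theorem a1b_val (m : ℤ) : (((m : ZMod 9).val : ℕ) : ZMod 3) = (m : ZMod 3) := by
  rw [ZMod.natCast_val]
  exact ZMod.cast_intCast (by norm_num : 3 ∣ 9) m

/-- `x mod 3^j` and the first of the two digits give `x mod 3^(j+1)`. -/
theorem zj_iff_one (j : ℕ) (x y : ℤ) :
    (((x : ℤ) : ZMod (3 ^ (j + 1))) = ((y : ℤ) : ZMod (3 ^ (j + 1)))) ↔
      (((x : ℤ) : ZMod (3 ^ j)) = ((y : ℤ) : ZMod (3 ^ j)) ∧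
        ((zj j x).val : ZMod 3) = ((zj j y).val : ZMod 3)) := by
  have key : ∀ D : ℤ, x - y = 3 ^ j * D →
      (((zj j x).val : ZMod 3) = ((zj j y).val : ZMod 3) ↔ (3 : ℤ) ∣ D) := by
    intro D hD
    have hx : x = y + 3 ^ j * D := by linarith
    have h1 : x / 3 ^ j = y / 3 ^ j + D := by
      rw [hx, Int.add_mul_ediv_left _ _ (by positivity)]
    unfold zj
    rw [a1b_val, a1b_val, h1, ← sub_eq_zero, ← Int.cast_sub, add_sub_cancel_left,
      ZMod.intCast_zmod_eq_zero_iff_dvd]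
    exact Iff.rfl
  rw [a1b_dvd_iff, a1b_dvd_iff]
  constructor
  · rintro ⟨D, hD⟩
    have h1 : x - y = 3 ^ j * (3 * D) := by rw [hD]; ring
    exact ⟨⟨3 * D, h1⟩, (key _ h1).2 ⟨D, rfl⟩⟩
  · rintro ⟨⟨D, hD⟩, hz⟩
    obtain ⟨E, hE⟩ := (key D hD).1 hz
    exact ⟨E, by rw [hD, hE]; ring⟩

/-- Transport of digits: let `2^s Y = 2^t X + Q` and `2^s Y' = 2^t X' + Q` with the same `s, t, Q`, and
`X ≡ X' mod 3^j`. Then `Y ≡ Y' mod 3^j` and `zj Y - zj Y' = U (zj X - zj X')` with `U = 2^t 5^s` in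
`ℤ/9` (`5 = 1/2`): `X - X' = 3^j D`, `2^s (Y - Y') = 2^t 3^j D`, so `Y - Y' = 3^j E` with `2^s E = 2^t D`, and
`zj X - zj X' = D`, `zj Y - zj Y' = E` modulo `9` (`(x + 3^j D)/3^j = x/3^j + D`). -/
theorem zj_transport {j s t : ℕ} {X Y X' Y' Q : ℤ} (h1 : 2 ^ s * Y = 2 ^ t * X + Q)
    (h2 : 2 ^ s * Y' = 2 ^ t * X' + Q) (hX : X ≡ X' [ZMOD 3 ^ j]) :
    Y ≡ Y' [ZMOD 3 ^ j] ∧ zj j Y - zj j Y' = 2 ^ t * 5 ^ s * (zj j X - zj j X') := by
  obtain ⟨D, hD⟩ := hX.symm.dvd
  have h3 : (2 : ℤ) ^ s * (Y - Y') = 3 ^ j * (2 ^ t * D) := by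
    have : (2 : ℤ) ^ s * (Y - Y') = 2 ^ t * (X - X') := by linarith
    rw [this, hD]
    ring
  have hcop : IsCoprime ((3 : ℤ) ^ j) (2 ^ s) := by
    refine IsCoprime.pow ?_
    exact ⟨1, -1, by norm_num⟩
  have h4 : (3 : ℤ) ^ j ∣ Y - Y' := by
    refine hcop.dvd_of_dvd_mul_left ?_
    exact ⟨_, h3⟩
  obtain ⟨E, hE⟩ := h4
  have h5 : (2 : ℤ) ^ s * E = 2 ^ t * D := by
    have h6 : (3 : ℤ) ^ j * (2 ^ s * E) = 3 ^ j * (2 ^ t * D) := by
      rw [← h3, hE]
      ring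
    exact mul_left_cancel₀ (by positivity) h6
  refine ⟨(Int.modEq_iff_dvd.2 ⟨-E, by linarith⟩), ?_⟩
  rw [a1b_zj_sub hE, a1b_zj_sub hD]
  have h7 : ((2 : ZMod 9) ^ s) * (E : ZMod 9) = 2 ^ t * (D : ZMod 9) := by
    have := congrArg (fun z : ℤ => (z : ZMod 9)) h5
    push_cast at this
    exact this
  have h8 : (2 : ZMod 9) ^ s * 5 ^ s = 1 := by
    rw [← mul_pow]
    have : (2 * 5 : ZMod 9) = 1 := by decide
    rw [this, one_pow]
  calc (E : ZMod 9) = ((2 : ZMod 9) ^ s * 5 ^ s) * E := by rw [h8, one_mul]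
    _ = 5 ^ s * ((2 : ZMod 9) ^ s * E) := by ring
    _ = 5 ^ s * (2 ^ t * (D : ZMod 9)) := by rw [h7]
    _ = _ := by ring

end Pool.Agent.Lib.MP_d0d59f_nt.GE

/-! Row ge_A1c: kids with labels in `[3, 8]`; extension of words. -/

namespace Pool.Agent.Lib.MP_d0d59f_nt.GE

open Finset

theorem a1c_two_pow (k : ℕ) : (2 : ℤ) ^ (2 * k) ≡ 1 [ZMOD 3] := by
  rw [pow_mul]
  have h : ((2 : ℤ) ^ 2) ≡ 1 [ZMOD 3] := by decide
  simpa using h.pow k

theorem a1c_two_pow' (k : ℕ) : (2 : ℤ) ^ (2 * k + 1) ≡ 2 [ZMOD 3] := by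
  rw [pow_succ]
  simpa using (a1c_two_pow k).mul_right 2

theorem a1c_cases {x : ℤ} (hx : ¬ (3 : ℤ) ∣ x) : x ≡ 1 [ZMOD 3] ∨ x ≡ 2 [ZMOD 3] := by
  unfold Int.ModEq
  omega

/-- A letter `a ≥ 1` can be applied at the unit `x` iff `a` is even (`x ≡ 1`) or odd (`x ≡ 2`). -/
theorem letter_iff {x : ℤ} (hx : ¬ (3 : ℤ) ∣ x) (a : ℕ) :
    (3 : ℤ) ∣ 2 ^ a * x - 1 ↔ (Even a ↔ x ≡ 1 [ZMOD 3]) := by
  have key : ∀ u : ℤ, 2 ^ a ≡ u [ZMOD 3] → ((3 : ℤ) ∣ 2 ^ a * x - 1 ↔ (3 : ℤ) ∣ u * x - 1) := by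
    intro u hu
    have h1 : (2 : ℤ) ^ a * x - 1 ≡ u * x - 1 [ZMOD 3] := (hu.mul_right x).sub_right 1
    rw [Int.dvd_iff_emod_eq_zero, Int.dvd_iff_emod_eq_zero, h1.eq]
  rcases Nat.even_or_odd' a with ⟨k, rfl | rfl⟩
  · rw [key 1 (a1c_two_pow k)]
    have he : Even (2 * k) := even_two_mul k
    simp only [he, true_iff]
    unfold Int.ModEq
    omega
  · rw [key 2 (a1c_two_pow' k)]
    have he : ¬ Even (2 * k + 1) := by
      rw [Nat.not_even_iff_odd]; exact odd_two_mul_add_one k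
    simp only [he, false_iff]
    unfold Int.ModEq
    omega

/-- `stp (a+2) x = 4 stp a x + 1`. -/
theorem stp_add_two {x : ℤ} {a : ℕ} (h : (3 : ℤ) ∣ 2 ^ a * x - 1) :
    stp (a + 2) x = 4 * stp a x + 1 := by
  obtain ⟨q, hq⟩ := h
  have h1 : stp a x = q := by
    unfold stp; rw [hq]; simp
  have h2 : (2 : ℤ) ^ (a + 2) * x - 1 = 3 * (4 * q + 1) := by
    rw [pow_add]; linear_combination 4 * hq
  rw [h1]
  unfold stp
  rw [h2]
  simp

/-- A unit `x` has, for every class `c ∈ {1, 2}` modulo `3`, a kid in the class `c` with a letter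
`a ∈ [3, 8]`: the three letters `a, a+2, a+4` of the right parity (`3,5,7` or `4,6,8`) give the classes
`r, r+1, r+2` (`stp_add_two`). -/
theorem kid {x : ℤ} (hx : ¬ (3 : ℤ) ∣ x) {c : ℤ} (hc : c = 1 ∨ c = 2) :
    ∃ a : ℕ, 3 ≤ a ∧ a ≤ 8 ∧ (3 : ℤ) ∣ 2 ^ a * x - 1 ∧ stp a x ≡ c [ZMOD 3] ∧
      (Even a ↔ x ≡ 1 [ZMOD 3]) := by
  -- the first letter
  obtain ⟨b, hb1, hb2, hb⟩ : ∃ b : ℕ, 3 ≤ b ∧ b ≤ 4 ∧ (Even b ↔ x ≡ 1 [ZMOD 3]) := by
    by_cases h : x ≡ 1 [ZMOD 3]
    · exact ⟨4, by norm_num, le_rfl, by simp [h]; decide⟩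
    · exact ⟨3, le_rfl, by norm_num, by simp [h]; decide⟩
  have hb' : (Even (b + 2) ↔ x ≡ 1 [ZMOD 3]) := by
    rw [← hb]; simp [Nat.even_add]
  have hb'' : (Even (b + 4) ↔ x ≡ 1 [ZMOD 3]) := by
    rw [← hb]
    have : Even 4 := by decide
    simp [Nat.even_add, this]
  have d0 := (letter_iff hx b).2 hb
  have d1 := (letter_iff hx (b + 2)).2 hb'
  have d2 := (letter_iff hx (b + 4)).2 hb''
  have e1 := stp_add_two d0
  have e2 : stp (b + 4) x = 4 * stp (b + 2) x + 1 := stp_add_two d1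
  have hcases : stp b x ≡ c [ZMOD 3] ∨ stp (b + 2) x ≡ c [ZMOD 3] ∨
      stp (b + 4) x ≡ c [ZMOD 3] := by
    rw [e2, e1]
    unfold Int.ModEq
    have h3 : stp b x % 3 = 0 ∨ stp b x % 3 = 1 ∨ stp b x % 3 = 2 := by omega
    rcases hc with rfl | rfl <;> rcases h3 with h3 | h3 | h3 <;> omega
  rcases hcases with h | h | h
  · exact ⟨b, hb1, by omega, d0, h, hb⟩
  · exact ⟨b + 2, by omega, by omega, d1, h, hb'⟩
  · exact ⟨b + 4, by omega, by omega, d2, h, hb''⟩

theorem a1c_not_dvd {y c : ℤ} (hc : c = 1 ∨ c = 2) (h : y ≡ c [ZMOD 3]) : ¬ (3 : ℤ) ∣ y := by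
  unfold Int.ModEq at h
  rcases hc with rfl | rfl <;> omega

/-- Every unit `x` has a valid word of length `n` with letters in `[3,8]`, ending in the class
`c` (if `n ≥ 1`): induction with `kid`. -/
theorem exists_word {x : ℤ} (hx : ¬ (3 : ℤ) ∣ x) (n : ℕ) :
    ∃ α : List ℕ, α.length = n ∧ (∀ a ∈ α, 3 ≤ a ∧ a ≤ 8) ∧ valid α x := by
  induction n generalizing x with
  | zero => exact ⟨[], rfl, by simp, hx⟩
  | succ n ih =>
    obtain ⟨a, h1, h2, h3, h4, -⟩ := kid hx (c := 1) (Or.inl rfl)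
    obtain ⟨α, hα1, hα2, hα3⟩ := ih (a1c_not_dvd (Or.inl rfl) h4)
    refine ⟨a :: α, by simp [hα1], ?_, hx, by omega, h3, hα3⟩
    intro b hb
    rcases List.mem_cons.1 hb with rfl | hb
    · exact ⟨h1, h2⟩
    · exact hα2 b hb

/-- Extension by two letters to a word of EVEN sum: for a word `α` valid at `x` and `c ∈ {1,2}` there
are `a, a' ∈ [3,8]` with `α ++ [a, a']` valid at `x`, of even sum, with end point in the class `c`.
`a` has the parity given by the class of `y = α.x`, and goes to the class `c'` for either `c' = 1` or `2`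
(`kid`), `a'` is even iff `c' = 1`: choose `c'` so that the total is even. -/
theorem extend_two {α : List ℕ} {x : ℤ} (h : valid α x) {c : ℤ} (hc : c = 1 ∨ c = 2) :
    ∃ a a' : ℕ, 3 ≤ a ∧ a ≤ 8 ∧ 3 ≤ a' ∧ a' ≤ 8 ∧ valid (α ++ [a, a']) x ∧
      Even (α ++ [a, a']).sum ∧ act (α ++ [a, a']) x ≡ c [ZMOD 3] := by
  have hy : ¬ (3 : ℤ) ∣ act α x := (valid_unit h).2
  set y := act α x with hydef
  -- choice of the intermediate class
  have hch : ∃ c' : ℤ, (c' = 1 ∨ c' = 2) ∧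
      ((c' ≡ 1 [ZMOD 3]) ↔ (Even α.sum ↔ y ≡ 1 [ZMOD 3])) := by
    by_cases h0 : (Even α.sum ↔ y ≡ 1 [ZMOD 3])
    · exact ⟨1, Or.inl rfl, by simp [h0]⟩
    · refine ⟨2, Or.inr rfl, ?_⟩
      have : ¬ ((2 : ℤ) ≡ 1 [ZMOD 3]) := by decide
      simp only [this, h0]
  obtain ⟨c', hc', hcc⟩ := hch
  obtain ⟨a, a1, a2, a3, a4, a5⟩ := kid hy hc'
  have hz : ¬ (3 : ℤ) ∣ stp a y := a1c_not_dvd hc' a4
  obtain ⟨a', b1, b2, b3, b4, b5⟩ := kid hz hc
  refine ⟨a, a', a1, a2, b1, b2, ?_, ?_, ?_⟩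
  · rw [valid_append]
    exact ⟨h, hy, by omega, a3, hz, by omega, b3, a1c_not_dvd hc b4⟩
  · have hs : (α ++ [a, a']).sum = α.sum + (a + a') := by simp
    rw [hs, Nat.even_add, Nat.even_add, a5, b5]
    have h6 : (stp a y ≡ 1 [ZMOD 3]) ↔ (c' ≡ 1 [ZMOD 3]) := ⟨fun h => a4.symm.trans h, a4.trans⟩
    rw [h6, hcc]
    by_cases p1 : Even α.sum <;> by_cases p2 : y ≡ 1 [ZMOD 3] <;> simp [p1, p2]
  · rw [act_append]
    exact b4

/-- Members of `wds M n`. -/
theorem mem_wds {M n : ℕ} {α : List ℕ} :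
    α ∈ wds M n ↔ α.length = n ∧ ∀ a ∈ α, 1 ≤ a ∧ a ≤ M := by
  induction n generalizing α with
  | zero =>
    simp only [wds, mem_singleton]
    constructor
    · rintro rfl
      simp
    · rintro ⟨h, -⟩
      exact List.length_eq_zero_iff.1 h
  | succ n ih =>
    simp only [wds, mem_image, mem_product, mem_Icc, Prod.exists]
    constructor
    · rintro ⟨a, β, ⟨h1, h2⟩, rfl⟩
      obtain ⟨h3, h4⟩ := ih.1 h2
      refine ⟨by simp [h3], ?_⟩
      intro b hb
      rcases List.mem_cons.1 hb with rfl | hb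
      · exact h1
      · exact h4 b hb
    · rintro ⟨h1, h2⟩
      cases α with
      | nil => simp at h1
      | cons a β =>
        refine ⟨a, β, ⟨h2 a (by simp), ih.2 ⟨by simpa using h1, fun b hb => h2 b (by simp [hb])⟩⟩, rfl⟩

end Pool.Agent.Lib.MP_d0d59f_nt.GE

/-! Row ge_A2: the natural kernel. -/

namespace Pool.Agent.Lib.MP_d0d59f_nt.GE

open Finset

theorem a2_mem_blk {L M : ℕ} {α : List ℕ} :
    α ∈ blk L M ↔ (α.length = L ∧ ∀ a ∈ α, 1 ≤ a ∧ a ≤ M) ∧ Even α.sum ∧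
      17 * L ≤ 10 * α.sum := by
  unfold blk
  rw [mem_filter, mem_wds]

theorem a2_sum_ge (w : List ℕ) (h : ∀ a ∈ w, 3 ≤ a) : 3 * w.length ≤ w.sum := by
  induction w with
  | nil => simp
  | cons a w ih =>
    rw [List.sum_cons, List.length_cons]
    have h1 := h a (by simp)
    have h2 := ih (fun b hb => h b (by simp [hb]))
    omega

theorem a2_sum_le (w : List ℕ) (h : ∀ a ∈ w, a ≤ 8) : w.sum ≤ 8 * w.length := by
  induction w with
  | nil => simp
  | cons a w ih =>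
    rw [List.sum_cons, List.length_cons]
    have h1 := h a (by simp)
    have h2 := ih (fun b hb => h b (by simp [hb]))
    omega

/-- A valid block ending in a prescribed class. -/
theorem a2_block {L M : ℕ} (hL : 2 ≤ L) (hM : 8 ≤ M) {x : ℤ} (hx : ¬ (3 : ℤ) ∣ x) {c : ℤ}
    (hc : c = 1 ∨ c = 2) : ∃ α ∈ blk L M, valid α x ∧ act α x ≡ c [ZMOD 3] ∧
      (3 / 256 : ℝ) ^ L ≤ wt α := by
  obtain ⟨β, b1, b2, b3⟩ := exists_word hx (L - 2)
  obtain ⟨a, a', h1, h2, h3, h4, h5, h6, h7⟩ := extend_two b3 hc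
  have hlen : (β ++ [a, a']).length = L := by
    rw [List.length_append, b1]
    simp only [List.length_cons, List.length_nil]
    omega
  have hall : ∀ b ∈ β ++ [a, a'], 3 ≤ b ∧ b ≤ 8 := by
    intro b hb
    rcases List.mem_append.1 hb with hb | hb
    · exact b2 b hb
    · simp only [List.mem_cons, List.not_mem_nil, or_false] at hb
      rcases hb with rfl | rfl
      · exact ⟨h1, h2⟩
      · exact ⟨h3, h4⟩
  have hs1 := a2_sum_ge _ (fun b hb => (hall b hb).1)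
  have hs2 := a2_sum_le _ (fun b hb => (hall b hb).2)
  rw [hlen] at hs1 hs2
  refine ⟨β ++ [a, a'], a2_mem_blk.2 ⟨⟨hlen, fun b hb => ?_⟩, h6, by omega⟩, h5, h7, ?_⟩
  · have := hall b hb
    omega
  · unfold wt
    rw [hlen, div_pow]
    have h8 : (256 : ℝ) ^ L = 2 ^ (8 * L) := by
      rw [pow_mul]; norm_num
    rw [h8]
    apply div_le_div_of_nonneg_left (by positivity) (by positivity)
    exact pow_le_pow_right₀ (by norm_num) hs2

theorem a2_wt_pos (α : List ℕ) : 0 < wt α := by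
  unfold wt; positivity

open Classical in
theorem a2_term_nonneg (x : ℤ) (α : List ℕ) : 0 ≤ (if valid α x then wt α else 0) := by
  split_ifs
  · exact (a2_wt_pos α).le
  · exact le_rfl

theorem a2_NN_nonneg (L M : ℕ) (x : ℤ) : 0 ≤ NN L M x := by
  unfold NN
  exact sum_nonneg fun α _ => a2_term_nonneg x α

/-- Lower bound: `NN L M x ≥ (3/256)^L` for `L ≥ 2`, `M ≥ 8`, `x` a unit: `exists_word` of length `L - 2`
and `extend_two` give a valid block with letters in `[3,8]` (sum `≥ 3 L`, even), of weight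
`≥ (3/2^8)^L`; all terms are nonnegative. -/
theorem NN_ge {L M : ℕ} (hL : 2 ≤ L) (hM : 8 ≤ M) {x : ℤ} (hx : ¬ (3 : ℤ) ∣ x) :
    (3 / 256 : ℝ) ^ L ≤ NN L M x := by
  classical
  obtain ⟨α, h1, h2, -, h3⟩ := a2_block hL hM hx (c := 1) (Or.inl rfl)
  refine h3.trans ?_
  unfold NN
  have h4 := single_le_sum (f := fun α => if valid α x then wt α else 0)
    (fun β _ => a2_term_nonneg x β) h1
  simpa only [if_pos h2] using h4

theorem NN_pos {L M : ℕ} (hL : 2 ≤ L) (hM : 8 ≤ M) {x : ℤ} (hx : ¬ (3 : ℤ) ∣ x) :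
    0 < NN L M x := lt_of_lt_of_le (by positivity) (NN_ge hL hM hx)

/-- `NN L M` has period `3^(L+1)`. -/
theorem NN_congr {L M : ℕ} {x y : ℤ} (h : x ≡ y [ZMOD 3 ^ (L + 1)]) : NN L M x = NN L M y := by
  classical
  unfold NN
  refine sum_congr rfl fun α hα => ?_
  have hl : α.length = L := (a2_mem_blk.1 hα).1.1
  rw [← hl] at h
  exact if_congr (valid_congr h) rfl rfl

/-- `kp L M x α` is a probability on `blk L M` (`x` a unit) and depends on `x mod 3^(L+1)`. -/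
theorem kp_congr {L M : ℕ} {x y : ℤ} (h : x ≡ y [ZMOD 3 ^ (L + 1)]) {α : List ℕ}
    (hα : α ∈ blk L M) : kp L M x α = kp L M y α := by
  classical
  unfold kp
  have hl : α.length = L := (a2_mem_blk.1 hα).1.1
  rw [NN_congr h]
  rw [← hl] at h
  rw [if_congr (valid_congr h) rfl rfl]

theorem a2_kp_nonneg (L M : ℕ) (x : ℤ) (α : List ℕ) : 0 ≤ kp L M x α := by
  unfold kp
  exact div_nonneg (a2_term_nonneg x α) (a2_NN_nonneg L M x)

theorem a2_kp_sum {L M : ℕ} (hL : 2 ≤ L) (hM : 8 ≤ M) {x : ℤ} (hx : ¬ (3 : ℤ) ∣ x) :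
    ∑ α ∈ blk L M, kp L M x α = 1 := by
  unfold kp
  rw [← sum_div]
  exact div_self (NN_pos hL hM hx).ne'

theorem a2_kp_pos {L M : ℕ} (hL : 2 ≤ L) (hM : 8 ≤ M) {x : ℤ} (hx : ¬ (3 : ℤ) ∣ x)
    {α : List ℕ} (hα : valid α x) : 0 < kp L M x α := by
  unfold kp
  rw [if_pos hα]
  exact div_pos (a2_wt_pos α) (NN_pos hL hM hx)

theorem a2_kp_le_one {L M : ℕ} (hL : 2 ≤ L) (hM : 8 ≤ M) {x : ℤ} (hx : ¬ (3 : ℤ) ∣ x)
    {α : List ℕ} (hα : α ∈ blk L M) : kp L M x α ≤ 1 := by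
  rw [← a2_kp_sum hL hM hx]
  exact single_le_sum (fun β _ => a2_kp_nonneg L M x β) hα

theorem a2_ent_pos {L M : ℕ} (hL : 2 ≤ L) (hM : 8 ≤ M) {x : ℤ} (hx : ¬ (3 : ℤ) ∣ x) :
    0 < ∑ α ∈ blk L M, Real.negMulLog (kp L M x α) := by
  obtain ⟨α, h1, h2, h3, -⟩ := a2_block hL hM hx (c := 1) (Or.inl rfl)
  obtain ⟨β, g1, g2, g3, -⟩ := a2_block hL hM hx (c := 2) (Or.inr rfl)
  have hne : α ≠ β := by
    rintro rfl
    have := h3.symm.trans g3
    exact absurd this (by decide)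
  have hlt : kp L M x α < 1 := by
    have hsub : ({α, β} : Finset (List ℕ)) ⊆ blk L M := by
      intro γ hγ
      rcases mem_insert.1 hγ with rfl | hγ
      · exact h1
      · rw [mem_singleton.1 hγ]; exact g1
    have h4 := sum_le_sum_of_subset_of_nonneg hsub (f := fun γ => kp L M x γ)
      (fun γ _ _ => a2_kp_nonneg L M x γ)
    rw [sum_pair hne, a2_kp_sum hL hM hx] at h4
    have h5 := a2_kp_pos hL hM hx g2
    linarith
  have hpos := a2_kp_pos hL hM hx h2
  have h6 : 0 < Real.negMulLog (kp L M x α) := by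
    unfold Real.negMulLog
    have := Real.log_neg hpos hlt
    nlinarith
  refine lt_of_lt_of_le h6 ?_
  exact single_le_sum (f := fun γ => Real.negMulLog (kp L M x γ))
    (fun γ hγ => Real.negMulLog_nonneg (a2_kp_nonneg L M x γ) (a2_kp_le_one hL hM hx hγ)) h1

/-- The entropy of `kp L M x` is bounded below by a positive constant, uniformly in the unit `x`:
two different blocks of positive probability exist (`extend_two` with `c = 1` and with `c = 2`), so the
entropy is positive; it depends only on `x` modulo `3^(L+1)`, finitely many classes. -/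
theorem kp_ent {L M : ℕ} (hL : 2 ≤ L) (hM : 8 ≤ M) : ∃ c0 : ℝ, 0 < c0 ∧
    ∀ x : ℤ, ¬ (3 : ℤ) ∣ x → c0 ≤ ∑ α ∈ blk L M, Real.negMulLog (kp L M x α) := by
  classical
  set e : ℤ → ℝ := fun x => ∑ α ∈ blk L M, Real.negMulLog (kp L M x α) with he
  set S : Finset ℤ := (Finset.Ico (0 : ℤ) (3 ^ (L + 1))).filter fun i => ¬ (3 : ℤ) ∣ i with hS
  have h3 : (1 : ℤ) < 3 ^ (L + 1) := one_lt_pow₀ (by norm_num) (by omega)
  have hne : S.Nonempty := by
    refine ⟨1, ?_⟩
    rw [hS, mem_filter, Finset.mem_Ico]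
    exact ⟨⟨by norm_num, h3⟩, by norm_num⟩
  refine ⟨S.inf' hne e, ?_, ?_⟩
  · rw [Finset.lt_inf'_iff]
    intro i hi
    rw [hS, mem_filter] at hi
    exact a2_ent_pos hL hM hi.2
  · intro x hx
    have hmod : x % 3 ^ (L + 1) ≡ x [ZMOD 3 ^ (L + 1)] := Int.mod_modEq _ _
    have hd : (3 : ℤ) ∣ 3 ^ (L + 1) := dvd_pow_self 3 (by omega)
    have hmem : x % 3 ^ (L + 1) ∈ S := by
      rw [hS, mem_filter, Finset.mem_Ico]
      refine ⟨⟨Int.emod_nonneg _ (by positivity), Int.emod_lt_of_pos _ (by positivity)⟩, ?_⟩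
      intro h
      apply hx
      have h4 : x % 3 ^ (L + 1) ≡ x [ZMOD 3] := hmod.of_dvd hd
      rw [Int.dvd_iff_emod_eq_zero] at h ⊢
      rw [← h4.eq]
      exact h
    have h5 : e (x % 3 ^ (L + 1)) = e x := by
      rw [he]
      exact sum_congr rfl fun α hα => by rw [kp_congr hmod hα]
    have h6 := Finset.inf'_le e hmem
    rw [h5] at h6
    exact h6

/-- The natural kernel as a `Ker`. -/
theorem exists_natK {L M : ℕ} (hL : 2 ≤ L) (hM : 8 ≤ M) : ∃ K : Ker, K.L = L ∧ K.M = M ∧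
    K.B = blk L M ∧ K.κ = kp L M := by
  obtain ⟨c0, h0, h⟩ := kp_ent hL hM
  refine ⟨{ L := L, M := M, B := blk L M, κ := kp L M, hL := by omega
            len := fun α hα => (a2_mem_blk.1 hα).1.1
            bd := fun α hα => (a2_mem_blk.1 hα).1.2
            even := fun α hα => (a2_mem_blk.1 hα).2.1
            nonneg := a2_kp_nonneg L M
            sum_one := fun x hx => a2_kp_sum hL hM hx
            supp := ?_
            per := fun x y hxy α hα => kp_congr hxy hα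
            c0 := c0
            c0_pos := h0
            ent_ge := h }, rfl, rfl, rfl, rfl⟩
  intro x α _ hne
  by_contra hv
  apply hne
  unfold kp
  rw [if_neg hv, zero_div]

end Pool.Agent.Lib.MP_d0d59f_nt.GE

/-! Interface facts on words used in part B. -/

namespace Pool.Agent.Lib.MP_d0d59f_nt.GE

open Finset

theorem bvalid_unit {α : List ℕ} {x : ℤ} (hv : valid α x) : ¬ (3 : ℤ) ∣ x := (valid_unit hv).1

theorem bact_unit {α : List ℕ} {x : ℤ} (hv : valid α x) : ¬ (3 : ℤ) ∣ act α x :=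
  (valid_unit hv).2

theorem bact_congr {α : List ℕ} {k : ℕ} {x y : ℤ} (hv : valid α x)
    (h : x ≡ y [ZMOD 3 ^ (α.length + k)]) (hk : 1 ≤ k) : act α x ≡ act α y [ZMOD 3 ^ k] := by
  have hy : valid α y := by
    refine (valid_congr (x := x) (y := y) ?_).mp hv
    exact h.of_dvd (pow_dvd_pow 3 (by omega))
  rw [add_comm] at h
  exact (act_congr hv hy k).mp h

theorem mem_blk {L M : ℕ} {α : List ℕ} : α ∈ blk L M ↔
    α.length = L ∧ (∀ a ∈ α, 1 ≤ a ∧ a ≤ M) ∧ Even α.sum ∧ 17 * L ≤ 10 * α.sum := by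
  unfold blk
  rw [Finset.mem_filter, mem_wds]
  tauto

end Pool.Agent.Lib.MP_d0d59f_nt.GE

/-! The natural kernel as a term of `Ker`. -/

namespace Pool.Agent.Lib.MP_d0d59f_nt.GE

open Finset

theorem kp_nonneg (L M : ℕ) (x : ℤ) (α : List ℕ) : 0 ≤ kp L M x α := by
  classical
  have hN : 0 ≤ NN L M x := by
    unfold NN
    refine Finset.sum_nonneg fun α _ => ?_
    split_ifs
    · unfold wt
      positivity
    · exact le_rfl
  unfold kp
  refine div_nonneg ?_ hN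
  split_ifs
  · unfold wt
    positivity
  · exact le_rfl

theorem kp_sum {L M : ℕ} (hL : 2 ≤ L) (hM : 8 ≤ M) {x : ℤ} (hx : ¬ (3 : ℤ) ∣ x) :
    ∑ α ∈ blk L M, kp L M x α = 1 := by
  unfold kp
  rw [← Finset.sum_div]
  exact div_self (NN_pos hL hM hx).ne'

/-- The natural kernel. -/
noncomputable def natK (L M : ℕ) (hL : 2 ≤ L) (hM : 8 ≤ M) : Ker where
  L := L
  M := M
  B := blk L M
  κ := kp L M
  hL := by omega
  len := fun α hα => (mem_blk.mp hα).1
  bd := fun α hα => (mem_blk.mp hα).2.1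
  even := fun α hα => (mem_blk.mp hα).2.2.1
  nonneg := fun x α => kp_nonneg L M x α
  sum_one := fun x hx => kp_sum hL hM hx
  supp := by
    intro x α _ h
    by_contra hv
    apply h
    unfold kp
    rw [if_neg hv, zero_div]
  per := fun x y h α hα => kp_congr h hα
  c0 := (kp_ent hL hM).choose
  c0_pos := (kp_ent hL hM).choose_spec.1
  ent_ge := (kp_ent hL hM).choose_spec.2

end Pool.Agent.Lib.MP_d0d59f_nt.GE

/-! Row N1 (about 110 lines): constants and the Gibbs (Jensen) step for one block. -/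

namespace Pool.Agent.Lib.MP_d0d59f_nt.GE

open Finset

theorem wt_pos (α : List ℕ) : 0 < wt α := by
  unfold wt
  positivity

/-- `3^17 = 129140163 < 134217728 = 2^27`, so `17 log 3 ≤ 27 log 2`, so the left side of
`17/10 log 2 - log 3 ≥ (17/10 - 27/17) log 2 = (19/170) log 2 ≥ 0.077`; `Real.log_two_gt_d9`. -/
theorem log_const : (7 / 100 : ℝ) ≤ 17 / 10 * Real.log 2 - Real.log 3 := by
  have h1 : (17 : ℝ) * Real.log 3 ≤ 27 * Real.log 2 := by
    have h2 : Real.log ((3 : ℝ) ^ 17) ≤ Real.log ((2 : ℝ) ^ 27) :=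
      Real.log_le_log (by norm_num) (by norm_num)
    rw [Real.log_pow, Real.log_pow] at h2
    exact_mod_cast h2
  have h3 := Real.log_two_gt_d9
  linarith

/-- `-log (wt α) = |α| log 2 - L log 3 ≥ L (17/10 log 2 - log 3)` by `mem_blk`, `log_const`. -/
theorem neg_log_wt {L M : ℕ} {α : List ℕ} (h : α ∈ blk L M) :
    7 / 100 * (L : ℝ) ≤ -Real.log (wt α) := by
  obtain ⟨h1, -, -, h2⟩ := mem_blk.mp h
  have h3 : Real.log (wt α) = (L : ℝ) * Real.log 3 - (α.sum : ℝ) * Real.log 2 := by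
    unfold wt
    rw [Real.log_div (by positivity) (by positivity), Real.log_pow, Real.log_pow, h1]
  have h4 : (17 : ℝ) * L ≤ 10 * (α.sum : ℝ) := by exact_mod_cast h2
  have h5 : 0 ≤ Real.log 2 := Real.log_nonneg (by norm_num)
  have h6 : (17 : ℝ) / 10 * L * Real.log 2 ≤ (α.sum : ℝ) * Real.log 2 :=
    mul_le_mul_of_nonneg_right (by linarith) h5
  have h7 : 7 / 100 * (L : ℝ) ≤ (17 / 10 * Real.log 2 - Real.log 3) * L :=
    mul_le_mul_of_nonneg_right log_const (Nat.cast_nonneg L)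
  rw [h3]
  linarith

open Classical in
/-- **Gibbs step.** Let `N = NN L M x > 0` (`NN_ge`), `p α = kp L M x α` (`0 ≤ p`, `∑ p = 1`:
`(natK L M hL hM).nonneg`, `.sum_one x hx`; or directly), and for valid `α`:
`Y α = N * wt α ^ (s-1) * g (act α x) > 0`. Then `∑ p α * Y α = ∑ [valid] wt α ^ s * g (act α x)`, and by
concavity of the logarithm (`strictConcaveOn_log_Ioi.concaveOn.le_map_sum`, restrict the sum to the
blocks valid at `x` by `Finset.sum_filter`, on which `p` still sums to `1`)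
`∑ p α * log (Y α) ≤ log (∑ p α * Y α)`.
Finally `log (Y α) = log N + (1 - s) * (-log (wt α)) + log (g (act α x)) ≥ log N + (1-s) * (7/100 * L) + log g`
(`neg_log_wt`). For invalid `α`, `kp L M x α = 0`. -/
theorem gibbs_step {L M : ℕ} (hL : 2 ≤ L) (hM : 8 ≤ M) {s : ℝ} (hs : s ≤ 1) {x : ℤ}
    (hx : ¬ (3 : ℤ) ∣ x) (g : ℤ → ℝ) (hg : ∀ y : ℤ, ¬ (3 : ℤ) ∣ y → 0 < g y) :
    Real.log (NN L M x) + (1 - s) * (7 / 100 * (L : ℝ))
        + ∑ α ∈ blk L M, kp L M x α * Real.log (g (act α x)) ≤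
      Real.log (∑ α ∈ blk L M, if valid α x then wt α ^ s * g (act α x) else 0) := by
  have hN : 0 < NN L M x := lt_of_lt_of_le (by positivity) (NN_ge hL hM hx)
  obtain ⟨N, hNdef⟩ : ∃ N : ℝ, N = NN L M x := ⟨_, rfl⟩
  rw [← hNdef] at hN ⊢
  -- the filtered set
  have hkp : ∀ α, valid α x → kp L M x α = wt α / N := by
    intro α hα
    unfold kp
    rw [if_pos hα, ← hNdef]
  have hkp0 : ∀ α, ¬ valid α x → kp L M x α = 0 := by
    intro α hα
    unfold kp
    rw [if_neg hα, zero_div]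
  have hsum : ∑ α ∈ (blk L M).filter (fun α => valid α x), wt α / N = 1 := by
    rw [← Finset.sum_div, Finset.sum_filter]
    have : (∑ α ∈ blk L M, if valid α x then wt α else 0) = N := by
      rw [hNdef]
      rfl
    rw [this, div_self hN.ne']
  have hlhs : ∑ α ∈ blk L M, kp L M x α * Real.log (g (act α x)) =
      ∑ α ∈ (blk L M).filter (fun α => valid α x), wt α / N * Real.log (g (act α x)) := by
    rw [Finset.sum_filter]
    refine Finset.sum_congr rfl fun α _ => ?_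
    by_cases hα : valid α x
    · rw [if_pos hα, hkp α hα]
    · rw [if_neg hα, hkp0 α hα, zero_mul]
  have hrhs : (∑ α ∈ blk L M, if valid α x then wt α ^ s * g (act α x) else 0) =
      ∑ α ∈ (blk L M).filter (fun α => valid α x),
        wt α / N * (N * wt α ^ (s - 1) * g (act α x)) := by
    rw [← Finset.sum_filter]
    refine Finset.sum_congr rfl fun α _ => ?_
    have hw := wt_pos α
    rw [Real.rpow_sub_one hw.ne']
    field_simp
  rw [hlhs, hrhs]
  have hJ := (strictConcaveOn_log_Ioi.concaveOn).le_map_sum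
    (t := (blk L M).filter (fun α => valid α x)) (w := fun α => wt α / N)
    (p := fun α => N * wt α ^ (s - 1) * g (act α x))
    (fun α _ => div_nonneg (wt_pos α).le hN.le) hsum
    (fun α hα => by
      have hv := (Finset.mem_filter.mp hα).2
      have h1 := hg _ (bact_unit hv)
      have h2 : 0 < wt α ^ (s - 1) := Real.rpow_pos_of_pos (wt_pos α) _
      exact Set.mem_Ioi.mpr (by positivity))
  simp only [smul_eq_mul] at hJ
  refine le_trans ?_ hJ
  have hlow : ∀ α ∈ (blk L M).filter (fun α => valid α x),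
      wt α / N * (Real.log N + (1 - s) * (7 / 100 * (L : ℝ))) +
        wt α / N * Real.log (g (act α x)) ≤
      wt α / N * Real.log (N * wt α ^ (s - 1) * g (act α x)) := by
    intro α hα
    have hv := (Finset.mem_filter.mp hα).2
    have hb := (Finset.mem_filter.mp hα).1
    have h1 := hg _ (bact_unit hv)
    have h2 : 0 < wt α ^ (s - 1) := Real.rpow_pos_of_pos (wt_pos α) _
    rw [← mul_add]
    refine mul_le_mul_of_nonneg_left ?_ (div_nonneg (wt_pos α).le hN.le)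
    rw [Real.log_mul (by positivity) h1.ne', Real.log_mul hN.ne' h2.ne',
      Real.log_rpow (wt_pos α)]
    have h3 := neg_log_wt hb
    have h4 : (1 - s) * (7 / 100 * (L : ℝ)) ≤ (1 - s) * (-Real.log (wt α)) :=
      mul_le_mul_of_nonneg_left h3 (by linarith)
    linarith
  have hfin := Finset.sum_le_sum hlow
  rw [Finset.sum_add_distrib, ← Finset.sum_mul, hsum, one_mul] at hfin
  exact hfin

end Pool.Agent.Lib.MP_d0d59f_nt.GE

end

section

/-! Row pd-P02a. -/

namespace Pool.Agent.Lib.MP_d0d59f_nt.PD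

open Finset

end Pool.Agent.Lib.MP_d0d59f_nt.PD

end

section

/-! Row pd-P10a. -/

namespace Pool.Agent.Lib.MP_d0d59f_nt.PD

open Finset

end Pool.Agent.Lib.MP_d0d59f_nt.PD

end

section

/-! Row pd-P10b. -/

namespace Pool.Agent.Lib.MP_d0d59f_nt.PD

open Finset

end Pool.Agent.Lib.MP_d0d59f_nt.PD

end

section

/-! Row C1 (about 110 lines): words valid for `3x+1` at `x` give paths of `T_d` to `y ≡ x d`. -/

namespace Pool.Agent.Lib.MP_d0d59f_nt.GE

open Finset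

/-- One step down in the inverse tree of `T_d`. -/
def stpd (d : ℤ) (a : ℕ) (y : ℤ) : ℤ := (2 ^ a * y - d) / 3

/-- End point of a word started at `y` in the inverse tree of `T_d`. -/
def actd (d : ℤ) : List ℕ → ℤ → ℤ
  | [], y => y
  | a :: α, y => actd d α (stpd d a y)

/-- If `3 ∣ 2^a x - 1` and `x d ≡ y` modulo `3^(m+1)` then `3 ∣ 2^a y - d` and
`stp a x * d ≡ stpd d a y` modulo `3^m`: `3 (stpd d a y - d * stp a x) = 2^a (y - x d)`. -/
theorem stpd_congr {d x y : ℤ} {a m : ℕ} (h : (3 : ℤ) ∣ 2 ^ a * x - 1)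
    (hxy : x * d ≡ y [ZMOD 3 ^ (m + 1)]) :
    3 * stpd d a y = 2 ^ a * y - d ∧ stp a x * d ≡ stpd d a y [ZMOD 3 ^ m] := by
  obtain ⟨x', hx'⟩ := h
  have hx : stp a x = x' := by
    rw [stp, hx']
    exact Int.mul_ediv_cancel_left x' three_ne_zero
  rw [Int.modEq_iff_dvd] at hxy
  obtain ⟨t, ht⟩ := hxy
  have h1 : 2 ^ a * y - d = 3 * (2 ^ a * 3 ^ m * t + d * x') := by
    have h2 : 2 ^ a * y - d = 2 ^ a * (y - x * d) + d * (2 ^ a * x - 1) := by ring
    rw [h2, ht, hx', pow_succ]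
    ring
  have h3 : stpd d a y = 2 ^ a * 3 ^ m * t + d * x' := by
    rw [stpd, h1]
    exact Int.mul_ediv_cancel_left _ three_ne_zero
  refine ⟨by rw [h3, h1], ?_⟩
  rw [hx, h3, Int.modEq_iff_dvd]
  exact ⟨2 ^ a * t, by ring⟩

/-- Induction on `α`, generalizing `x y`; `stpd_congr` with `m = α.length + k`. -/
theorem actd_congr {d : ℤ} {α : List ℕ} {k : ℕ} {x y : ℤ} (hv : valid α x)
    (hxy : x * d ≡ y [ZMOD 3 ^ (α.length + k)]) :
    act α x * d ≡ actd d α y [ZMOD 3 ^ k] := by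
  induction α generalizing x y with
  | nil =>
    simp only [List.length_nil, zero_add] at hxy
    simpa only [act, actd] using hxy
  | cons a α ih =>
    obtain ⟨_, _, h3, h4⟩ := hv
    have h5 := stpd_congr (d := d) (y := y) (m := α.length + k) h3 (by
      rw [List.length_cons] at hxy
      rwa [show α.length + 1 + k = α.length + k + 1 by omega] at hxy)
    exact ih h4 h5.2

/-- Induction on `α`, generalizing `x y`. `[]`: both sides `y`. `a :: α`: `isPath d (a :: α) N y` is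
`∃ M', isPath d α N M' ∧ 1 ≤ a ∧ 2^a y = 3 M' + d ∧ Odd y`, take `M' = stpd d a y` (odd, since
`3 M' = 2^a y - d` is odd, `a ≥ 1`). -/
theorem actd_path {d : ℤ} (hd : Odd d) {α : List ℕ} {x y : ℤ} (hv : valid α x) (hy : Odd y)
    (hxy : x * d ≡ y [ZMOD 3 ^ (α.length + 1)]) : AA.isPath d α (actd d α y) y := by
  induction α generalizing x y with
  | nil => exact ⟨hy, rfl⟩
  | cons a α ih =>
    obtain ⟨_, h2, h3, h4⟩ := hv
    have h5 := stpd_congr (d := d) (y := y) (m := α.length + 1) h3 (by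
      rwa [List.length_cons] at hxy)
    have hodd : Odd (stpd d a y) := by
      obtain ⟨b, rfl⟩ : ∃ b, a = b + 1 := ⟨a - 1, by omega⟩
      have h6 : Odd (3 * stpd d (b + 1) y) := by
        rw [h5.1]
        refine Even.sub_odd ?_ hd
        rw [pow_succ, show (2 : ℤ) ^ b * 2 * y = 2 * (2 ^ b * y) by ring]
        exact even_two_mul _
      exact (Int.odd_mul.1 h6).2
    exact ⟨stpd d a y, ih h4 hodd h5.2, h2, by rw [h5.1]; ring, hy⟩

/-- From `actd_congr` with `k = 1` and `bact_unit`. -/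
theorem actd_unit {d : ℤ} (h3 : ¬ (3 : ℤ) ∣ d) {α : List ℕ} {x y : ℤ} (hv : valid α x)
    (hxy : x * d ≡ y [ZMOD 3 ^ (α.length + 1)]) : ¬ (3 : ℤ) ∣ actd d α y := by
  intro h
  have h1 := actd_congr (k := 1) hv hxy
  rw [pow_one] at h1
  have h2 : (3 : ℤ) ∣ act α x * d := by
    rw [Int.modEq_iff_dvd] at h1
    have h4 := dvd_sub h h1
    rwa [sub_sub_cancel] at h4
  rcases Int.prime_three.dvd_or_dvd h2 with h5 | h5
  · exact bact_unit hv h5
  · exact h3 h5

open Classical in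
/-- Transfer of the weight. Take `e` inverse to `d` modulo `3^(L+K+1)` and `H y = h (y e)`. For `y` prime to
`3`, `x = y e` is prime to `3` and `x d ≡ y` modulo `3^(L+K+1)`; for `α` valid at `x` put `y' = actd d α y`; then
`act α x * d ≡ y'` modulo `3^(K+1)` (`actd_congr`, `α.length = L` by `mem_blk`), so `act α x ≡ y' e` modulo
`3^K`, so `h (act α x) = H y'`. So `H y ≤ ∑ [valid α x] wt α ^ s * H (actd d α y)`; sum over
`W y := (blk L M).filter (valid · (y e))`. -/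
theorem transfer {s H₀ : ℝ} {L M K : ℕ} {h : ℤ → ℝ}
    (hper : ∀ x y : ℤ, x ≡ y [ZMOD 3 ^ K] → h x = h y)
    (h1 : ∀ x : ℤ, ¬ (3 : ℤ) ∣ x → 1 ≤ h x) (h2 : ∀ x : ℤ, h x ≤ H₀)
    (hsub : ∀ x : ℤ, ¬ (3 : ℤ) ∣ x →
      h x ≤ ∑ α ∈ blk L M, if valid α x then wt α ^ s * h (act α x) else 0)
    {d : ℤ} (hd : Odd d) (h3 : ¬ (3 : ℤ) ∣ d) :
    ∃ (H : ℤ → ℝ) (W : ℤ → Finset (List ℕ)), (∀ y : ℤ, ¬ (3 : ℤ) ∣ y → 1 ≤ H y) ∧
      (∀ y : ℤ, H y ≤ H₀) ∧ (∀ y, W y ⊆ blk L M) ∧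
      (∀ y : ℤ, ¬ (3 : ℤ) ∣ y → Odd y → ∀ α ∈ W y,
        AA.isPath d α (actd d α y) y ∧ ¬ (3 : ℤ) ∣ actd d α y) ∧
      ∀ y : ℤ, ¬ (3 : ℤ) ∣ y → H y ≤ ∑ α ∈ W y, wt α ^ s * H (actd d α y) := by
  obtain ⟨e, he⟩ := exists_inv h3 (L + K + 1)
  have he3 : ¬ (3 : ℤ) ∣ e := by
    intro h
    have h5 : d * e ≡ 1 [ZMOD 3] :=
      he.of_dvd (dvd_pow_self 3 (by omega))
    rw [Int.modEq_iff_dvd] at h5
    have h6 : (3 : ℤ) ∣ 1 := by
      have h7 := dvd_add h5 (h.mul_left d)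
      rwa [sub_add_cancel] at h7
    norm_num at h6
  have hunit : ∀ y : ℤ, ¬ (3 : ℤ) ∣ y → ¬ (3 : ℤ) ∣ y * e := by
    intro y hy h
    rcases Int.prime_three.dvd_or_dvd h with h5 | h5
    · exact hy h5
    · exact he3 h5
  have hbase : ∀ y : ℤ, y * e * d ≡ y [ZMOD 3 ^ (L + K + 1)] := by
    intro y
    have h5 := he.mul_left y
    rw [mul_one] at h5
    rwa [show y * e * d = y * (d * e) by ring]
  have hlow : ∀ (y : ℤ) (k : ℕ), k ≤ K + 1 → y * e * d ≡ y [ZMOD 3 ^ (L + k)] := by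
    intro y k hk
    exact (hbase y).of_dvd (pow_dvd_pow 3 (by omega))
  refine ⟨fun y => h (y * e), fun y => (blk L M).filter fun α => valid α (y * e),
    fun y hy => h1 _ (hunit y hy), fun y => h2 _, fun y => filter_subset _ _, ?_, ?_⟩
  · intro y hy hyo α hα
    rw [mem_filter] at hα
    have hl : α.length = L := (mem_blk.1 hα.1).1
    have h5 : y * e * d ≡ y [ZMOD 3 ^ (α.length + 1)] := by
      rw [hl]
      exact hlow y 1 (by omega)
    exact ⟨actd_path hd hα.2 hyo h5, actd_unit h3 hα.2 h5⟩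
  · intro y hy
    refine (hsub _ (hunit y hy)).trans (le_of_eq ?_)
    rw [sum_filter]
    refine sum_congr rfl fun α hα => ?_
    have hl : α.length = L := (mem_blk.1 hα).1
    split_ifs with hv
    · congr 1
      apply hper
      have h5 : y * e * d ≡ y [ZMOD 3 ^ (α.length + K)] := by
        rw [hl]
        exact hlow y K (by omega)
      have h6 := (actd_congr hv h5).mul_right e
      have h7 : act α (y * e) * d * e ≡ act α (y * e) [ZMOD 3 ^ K] := by
        have h8 := (he.of_dvd (pow_dvd_pow 3 (show K ≤ L + K + 1 by omega))).mul_left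
          (act α (y * e))
        rwa [mul_one, ← mul_assoc] at h8
      exact h7.symm.trans h6
    · rfl

end Pool.Agent.Lib.MP_d0d59f_nt.GE

/-! Row C2 (about 70 lines): the potential `|y| + c |d|`. -/

namespace Pool.Agent.Lib.MP_d0d59f_nt.GE

open Finset

/-- `wt α ≤ exp (-(7/100) L) < 1`: `neg_log_wt`. -/
theorem wt_le {L M : ℕ} {α : List ℕ} (h : α ∈ blk L M) : wt α ≤ Real.exp (-(7 / 100 * (L : ℝ))) := by
  have h1 := neg_log_wt h
  rw [← Real.log_le_iff_le_exp (wt_pos α)]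
  linarith

/-- `wt α ≥ 1 / 2^(L*M)`, since `|α| ≤ L M` (`mem_blk`, `List.sum_le_card_nsmul`). -/
theorem wt_ge {L M : ℕ} {α : List ℕ} (h : α ∈ blk L M) : 1 / 2 ^ (L * M) ≤ wt α := by
  obtain ⟨hlen, hbd, _, _⟩ := mem_blk.mp h
  have hsum : α.sum ≤ L * M := by
    have := List.sum_le_card_nsmul α M fun a ha => (hbd a ha).2
    rw [hlen, smul_eq_mul] at this
    exact this
  unfold wt
  refine div_le_div₀ (by positivity) (one_le_pow₀ (by norm_num)) (by positivity) ?_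
  exact pow_le_pow_right₀ (by norm_num) hsum

/-- Let `q = exp (-(7/100) L) < 1` and `c = 1 + (3/2)^L / (1 - q)`. From the identity
`|N| ≤ (2^|α| |y| + |d| cc α)/3^L = |y| / wt α + |d| (cc α / 2^|α|) / wt α` and `cc α ≤ 2^|α| (3/2)^L` (`AA.cc_le`),
and `c |d| ≤ c |d| / wt α - c |d| (1 - q) / wt α`. -/
theorem exists_pot {L : ℕ} (hL : 1 ≤ L) (M : ℕ) : ∃ c : ℝ, 1 ≤ c ∧ ∀ (d y N : ℤ), ∀ α ∈ blk L M,
    2 ^ α.sum * y = 3 ^ α.length * N + d * (AA.cc α : ℤ) →
      |(N : ℝ)| + c * |(d : ℝ)| ≤ (|(y : ℝ)| + c * |(d : ℝ)|) / wt α := by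
  set q : ℝ := Real.exp (-(7 / 100 * (L : ℝ))) with hq
  have hq1 : q < 1 := by
    rw [hq, Real.exp_lt_one_iff]
    have : (0 : ℝ) < L := by exact_mod_cast (by omega : 0 < L)
    linarith
  set D : ℝ := (3 / 2 : ℝ) ^ L with hD
  have hD0 : 0 < D := by positivity
  have hc0 : 0 ≤ D / (1 - q) := div_nonneg hD0.le (by linarith)
  refine ⟨1 + D / (1 - q), by linarith, ?_⟩
  set c : ℝ := 1 + D / (1 - q) with hc
  intro d y N α hα hid
  obtain ⟨hlen, hbd, _, _⟩ := mem_blk.mp hα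
  have hw0 := wt_pos α
  have hwq : wt α ≤ q := wt_le hα
  have hcc : (AA.cc α : ℝ) ≤ 2 ^ α.sum * D := by
    have h1 := AA.cc_le (e := α) fun a ha => (hbd a ha).1
    rw [hlen] at h1
    have h2 : (2 : ℝ) ^ α.sum * ((3 / 2 : ℝ) ^ L - 1) ≤ 2 ^ α.sum * D := by
      refine mul_le_mul_of_nonneg_left ?_ (by positivity)
      rw [hD]
      linarith
    exact h1.trans h2
  have hid' : (3 : ℝ) ^ α.length * N = 2 ^ α.sum * y - d * AA.cc α := by
    have : ((2 : ℝ) ^ α.sum * y) = 3 ^ α.length * N + d * (AA.cc α : ℝ) := by exact_mod_cast hid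
    linarith
  have h3 : (3 : ℝ) ^ α.length * |(N : ℝ)| ≤ 2 ^ α.sum * |(y : ℝ)| + |(d : ℝ)| * AA.cc α := by
    have h4 : |(3 : ℝ) ^ α.length * N| = 3 ^ α.length * |(N : ℝ)| := by
      rw [abs_mul, abs_of_pos (by positivity)]
    rw [← h4, hid']
    refine (abs_sub _ _).trans (le_of_eq ?_)
    rw [abs_mul, abs_mul, abs_of_pos (by positivity : (0 : ℝ) < 2 ^ α.sum),
      abs_of_nonneg (by positivity : (0 : ℝ) ≤ (AA.cc α : ℝ))]
  have hwt : wt α = 3 ^ α.length / 2 ^ α.sum := rfl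
  have h5 : wt α * |(N : ℝ)| ≤ |(y : ℝ)| + |(d : ℝ)| * D := by
    rw [hwt, div_mul_eq_mul_div, div_le_iff₀ (by positivity)]
    calc (3 : ℝ) ^ α.length * |(N : ℝ)| ≤ 2 ^ α.sum * |(y : ℝ)| + |(d : ℝ)| * AA.cc α := h3
      _ ≤ 2 ^ α.sum * |(y : ℝ)| + |(d : ℝ)| * (2 ^ α.sum * D) := by
          have := mul_le_mul_of_nonneg_left hcc (abs_nonneg (d : ℝ))
          linarith
      _ = (|(y : ℝ)| + |(d : ℝ)| * D) * 2 ^ α.sum := by ring
  rw [le_div_iff₀ hw0]
  have h6 : D + c * wt α ≤ c := by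
    have h7 : D = (c - 1) * (1 - q) := by
      rw [hc]
      have : (1 - q) ≠ 0 := by linarith
      field_simp
      ring
    have h8 : 0 ≤ c - 1 := by rw [hc]; linarith
    have h9 : c * wt α ≤ c * q := mul_le_mul_of_nonneg_left hwq (by linarith)
    rw [h7]
    nlinarith
  have h10 : |(d : ℝ)| * (D + c * wt α) ≤ |(d : ℝ)| * c :=
    mul_le_mul_of_nonneg_left h6 (abs_nonneg _)
  nlinarith

end Pool.Agent.Lib.MP_d0d59f_nt.GE

/-! Row C3 (about 110 lines): predecessor sets of the nodes of one level are disjoint. -/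

namespace Pool.Agent.Lib.MP_d0d59f_nt.GE

open Finset

/-- The integers whose `T_d`-orbit passes through `a`. -/
def pre (d a : ℤ) : Set ℤ := {m | ∃ k, (T d)^[k] m = a}

/-- `a` is a periodic point of `T_d`. -/
def pdc (d a : ℤ) : Prop := ∃ p, 1 ≤ p ∧ (T d)^[p] a = a

theorem self_mem_pre (d a : ℤ) : a ∈ pre d a := ⟨0, rfl⟩

/-- `Function.iterate_add_apply`. -/
theorem pre_trans {d a b : ℤ} (h : b ∈ pre d a) : pre d b ⊆ pre d a := by
  obtain ⟨k, hk⟩ := h
  rintro m ⟨j, hj⟩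
  exact ⟨k + j, by rw [Function.iterate_add_apply, hj, hk]⟩

/-- `AA.isPath_iterate`. -/
theorem path_mem_pre {d : ℤ} (hd : Odd d) {e : List ℕ} {N y : ℤ} (h : AA.isPath d e N y) :
    N ∈ pre d y :=
  ⟨e.sum, AA.isPath_iterate hd h⟩

/-- If `N` is periodic (`T^p N = N`) and `T^k N = a` then `T^p a = a`. -/
theorem pdc_of_pre {d a N : ℤ} (h : N ∈ pre d a) (hN : pdc d N) : pdc d a := by
  obtain ⟨k, hk⟩ := h
  obtain ⟨p, hp, hpN⟩ := hN
  refine ⟨p, hp, ?_⟩
  rw [← hk, ← Function.iterate_add_apply, Nat.add_comm, Function.iterate_add_apply, hpN]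

/-- `card_filter` over `range (m + n)`; or induction on `n` with `ones_succ`,
`Function.iterate_add_apply`. -/
theorem ones_add (d x : ℤ) (m n : ℕ) : ones d x (m + n) = ones d x m + ones d ((T d)^[m] x) n := by
  induction n with
  | zero => simp [ones_zero]
  | succ n ih =>
    rw [← Nat.add_assoc, ones_succ, ih, ones_succ, ← Function.iterate_add_apply, Nat.add_comm n m]
    omega

theorem c3_ones_one (d x : ℤ) : ones d x 1 = if x % 2 = 1 then 1 else 0 := by
  have h := ones_succ d x 0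
  rw [ones_zero, Nat.zero_add, Nat.zero_add] at h
  exact h

/-- `T^j (2^j M) = M` passes only through `2^(j-i) M`, which is even for `i < j`. -/
theorem ones_pow (d : ℤ) (j : ℕ) (M : ℤ) : ones d (2 ^ j * M) j = 0 ∧ (T d)^[j] (2 ^ j * M) = M := by
  induction j with
  | zero => simp [ones_zero]
  | succ j ih =>
    have h3 : (2 : ℤ) ^ (j + 1) * M = 2 * (2 ^ j * M) := by rw [pow_succ]; ring
    have h0 : (2 : ℤ) ^ (j + 1) * M % 2 = 0 := by rw [h3]; exact Int.mul_emod_right 2 _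
    have h2 : T d (2 ^ (j + 1) * M) = 2 ^ j * M := by
      have h1 := T_even (d := d) h0
      rw [h3] at h1 ⊢
      linarith
    constructor
    · rw [Nat.add_comm j 1, ones_add, Function.iterate_one, Nat.add_comm 1 j, h2, ih.1,
        c3_ones_one, if_neg (by omega)]
    · rw [Function.iterate_succ_apply, h2, ih.2]

/-- Induction on `e`: for odd `M'`, `2^a M = 3 M' + d`: `T M' = 2^(a-1) M`, so `ones d M' a = 1`
(`ones_add`, `ones_pow`); `AA.isPath_iterate`, `AA.isPath_odd_right`. -/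
theorem ones_path {d : ℤ} (hd : Odd d) {e : List ℕ} {N y : ℤ} (h : AA.isPath d e N y) :
    ones d N e.sum = e.length := by
  induction e generalizing y with
  | nil => simp [ones_zero]
  | cons a e ih =>
    obtain ⟨M', h1, h2, h3, _⟩ := h
    have hodd := AA.isPath_odd_right h1
    obtain ⟨b, rfl⟩ : ∃ b, a = 1 + b := ⟨a - 1, by omega⟩
    have hT : T d M' = 2 ^ b * y := by
      have h4 := T_odd hd (Int.odd_iff.mp hodd)
      rw [← h3, pow_add, pow_one] at h4
      linarith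
    rw [List.sum_cons, Nat.add_comm (1 + b) e.sum, ones_add, ih h1, AA.isPath_iterate hd h1,
      ones_add, Function.iterate_one, hT, (ones_pow d b y).1, c3_ones_one,
      if_pos (Int.odd_iff.mp hodd), List.length_cons]

theorem c3_aux {d : ℤ} (hd : Odd d) {e e' : List ℕ} {N N' y : ℤ} (h : AA.isPath d e N y)
    (h' : AA.isPath d e' N' y) (hl : e.length = e'.length) (hne : e ≠ e') (hy : ¬ pdc d y)
    {m : ℤ} {k j : ℕ} (hk : (T d)^[k] m = N) (hj : (T d)^[k + j] m = N') : False := by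
  have hNN : (T d)^[j] N = N' := by
    rw [← hk, ← Function.iterate_add_apply, Nat.add_comm j k, hj]
  rcases Nat.eq_zero_or_pos j with h0 | hpos
  · subst h0
    have : N = N' := by simpa using hNN
    subst this
    exact hne (AA.isPath_unique h h' hl).1
  · have i1 : (T d)^[e'.sum + j] N = y := by
      rw [Function.iterate_add_apply, hNN, AA.isPath_iterate hd h']
    have i2 : (T d)^[e.sum] N = y := AA.isPath_iterate hd h
    have hper : ∀ u v : ℕ, u < v → (T d)^[u] N = y → (T d)^[v] N = y → False := by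
      intro u v huv hu hv
      apply hy
      refine ⟨v - u, by omega, ?_⟩
      rw [← hu, ← Function.iterate_add_apply, Nat.sub_add_cancel huv.le, hv, hu]
    have hs : e'.sum + j = e.sum := by
      rcases lt_trichotomy (e'.sum + j) e.sum with hlt | heq | hgt
      · exact (hper _ _ hlt i1 i2).elim
      · exact heq
      · exact (hper _ _ hgt i2 i1).elim
    have o1 := ones_path hd h
    have o2 := ones_path hd h'
    rw [← hs, Nat.add_comm, ones_add, hNN, o2, hl] at o1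
    have o3 : ones d N j = 0 := by omega
    obtain ⟨b, rfl⟩ : ∃ b, j = 1 + b := ⟨j - 1, by omega⟩
    rw [ones_add, c3_ones_one, if_pos (Int.odd_iff.mp (AA.isPath_odd_left h))] at o3
    omega

/-- Let `T^k m = N`, `T^k' m = N'`, say `k ≤ k'`, so `N' = T^j N`, `j = k' - k`. If `j = 0` then `N = N'` and
`e = e'` by `AA.isPath_unique`. If `j > 0`: `T^(j+|e'|) N = y = T^|e| N`, and `y` is not periodic, so
`j + |e'| = |e|` (otherwise `y` is mapped to itself by a positive number of steps), so by `ones_add` and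
`ones_path`: `e.length = ones d N |e| = ones d N j + e'.length`, so `ones d N j = 0`, but `N` is odd
(`AA.isPath_odd_left`) and `j ≥ 1`. By symmetry the case `k' ≤ k` is the same (`wlog` or a lemma). -/
theorem pre_disjoint {d : ℤ} (hd : Odd d) {e e' : List ℕ} {N N' y : ℤ} (h : AA.isPath d e N y)
    (h' : AA.isPath d e' N' y) (hl : e.length = e'.length) (hne : e ≠ e') (hy : ¬ pdc d y) :
    Disjoint (pre d N) (pre d N') := by
  rw [Set.disjoint_left]
  rintro m ⟨k, hk⟩ ⟨k', hk'⟩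
  rcases le_total k k' with hle | hle
  · obtain ⟨j, rfl⟩ := Nat.exists_eq_add_of_le hle
    exact c3_aux hd h h' hl hne hy hk hk'
  · obtain ⟨j, rfl⟩ := Nat.exists_eq_add_of_le hle
    exact c3_aux hd h' h hl.symm hne.symm hy hk' hk

end Pool.Agent.Lib.MP_d0d59f_nt.GE

/-! Row C4 (about 110 lines): a non-periodic odd predecessor prime to `3`. -/

namespace Pool.Agent.Lib.MP_d0d59f_nt.GE

open Finset

/-- `T^j` is injective on periodic points: with a common period `P ≥ j` (multiple of both periods),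
`x = T^(P-j) (T^j x)`. -/
theorem pdc_inj {d x y : ℤ} {j : ℕ} (hx : pdc d x) (hy : pdc d y)
    (h : (T d)^[j] x = (T d)^[j] y) : x = y := by
  obtain ⟨p, hp, hpx⟩ := hx
  obtain ⟨q, hq, hqy⟩ := hy
  have h1 : Function.IsPeriodicPt (T d) p x := hpx
  have h2 : Function.IsPeriodicPt (T d) q y := hqy
  have h3 : (T d)^[p * (q * (j + 1))] x = x := h1.mul_const (q * (j + 1))
  have h4 : (T d)^[q * (p * (j + 1))] y = y := h2.mul_const (p * (j + 1))
  have h5 : q * (p * (j + 1)) = p * (q * (j + 1)) := by ring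
  have h6 : j ≤ p * (q * (j + 1)) := by
    have : 1 ≤ p * q := Nat.mul_pos hp hq
    nlinarith
  rw [h5] at h4
  obtain ⟨c, hc⟩ := Nat.exists_eq_add_of_le' h6
  rw [hc, Function.iterate_add_apply] at h3 h4
  rw [← h3, ← h4, h]

/-- `T^k N = a` and `T^(k-j) N = 2^j a` if `3 N + d = 2^k a`, `N` odd, `1 ≤ j < k`: `AA.b1_step`. -/
theorem kid_iter {d : ℤ} (hd : Odd d) {k j : ℕ} {N a : ℤ} (hN : Odd N) (hj : j < k)
    (h : 3 * N + d = 2 ^ k * a) : (T d)^[k - j] N = 2 ^ j * a := by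
  refine AA.b1_step hd (by omega) hN ?_
  rw [h, ← mul_assoc, ← pow_add]
  congr 2
  omega

theorem c4_shift {d N : ℤ} (i : ℕ) (hN : pdc d N) : pdc d ((T d)^[i] N) := by
  obtain ⟨q, hq, h⟩ := hN
  exact ⟨q, hq, by rw [← Function.iterate_add_apply, Nat.add_comm, Function.iterate_add_apply, h]⟩

/-- If `3 N + d = 2^j a`, `3 N' + d = 2^k a` with `1 ≤ j < k` then not both `N, N'` are periodic: both
`T^j N = a` and `T^j (T^(k-j) N') = a`, so `N = T^(k-j) N' = 2^j a` by `pdc_inj`, but `N` is odd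
(`T^i N'` is periodic as well). -/
theorem kids_not_both {d : ℤ} (hd : Odd d) {j k : ℕ} (hj : 1 ≤ j) (hjk : j < k) {N N' a : ℤ}
    (hN : Odd N) (hN' : Odd N') (h : 3 * N + d = 2 ^ j * a) (h' : 3 * N' + d = 2 ^ k * a) :
    ¬ (pdc d N ∧ pdc d N') := by
  rintro ⟨hp, hp'⟩
  have h1 : (T d)^[j] N = a := by
    have := kid_iter hd hN (j := 0) (k := j) (by omega) h
    simpa using this
  have h2 : (T d)^[k - j] N' = 2 ^ j * a := kid_iter hd hN' hjk h'
  have h3 : (T d)^[j] ((T d)^[k - j] N') = a := by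
    rw [← Function.iterate_add_apply]
    have h4 : j + (k - j) = k := by omega
    rw [h4]
    have := kid_iter hd hN' (j := 0) (k := k) (by omega) h'
    simpa using this
  have h5 : N = (T d)^[k - j] N' := pdc_inj hp (c4_shift _ hp') (h1.trans h3.symm)
  rw [h2] at h5
  obtain ⟨c, rfl⟩ : ∃ c, j = c + 1 := ⟨j - 1, by omega⟩
  rw [h5, pow_succ] at hN
  have h6 : Even (2 ^ c * 2 * a) := ⟨2 ^ c * a, by ring⟩
  exact (Int.not_odd_iff_even.2 h6) hN

theorem c4_odd {d N a : ℤ} (hd : Odd d) {k : ℕ} (hk : 1 ≤ k) (h : 3 * N + d = 2 ^ k * a) : Odd N := by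
  obtain ⟨c, rfl⟩ : ∃ c, k = c + 1 := ⟨k - 1, by omega⟩
  have h1 : 3 * N + d = 2 * (2 ^ c * a) := by
    rw [h]
    ring
  obtain ⟨e, he⟩ := hd
  generalize 2 ^ c * a = u at h1
  rw [Int.odd_iff]
  omega

theorem c4_bound {d N a : ℤ} {k : ℕ} (hk : k ≤ 6) (h : 3 * N + d = 2 ^ k * a) :
    |(N : ℝ)| ≤ 22 * (|(a : ℝ)| + |(d : ℝ)|) := by
  have h1 : 3 * (N : ℝ) + d = 2 ^ k * a := by exact_mod_cast h
  have h2 : (3 : ℝ) * |(N : ℝ)| ≤ 2 ^ k * |(a : ℝ)| + |(d : ℝ)| := by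
    have h3 : |3 * (N : ℝ)| = |2 ^ k * (a : ℝ) - d| := by
      congr 1
      linarith
    rw [abs_mul, abs_of_pos (by norm_num : (0 : ℝ) < 3)] at h3
    rw [h3]
    refine (abs_sub _ _).trans ?_
    rw [abs_mul, abs_of_pos (by positivity : (0 : ℝ) < 2 ^ k)]
  have h4 : (2 : ℝ) ^ k ≤ 2 ^ 6 := pow_le_pow_right₀ (by norm_num) hk
  have h5 : (2 : ℝ) ^ k * |(a : ℝ)| ≤ 2 ^ 6 * |(a : ℝ)| := mul_le_mul_of_nonneg_right h4 (abs_nonneg _)
  have h6 := abs_nonneg (a : ℝ)
  have h7 := abs_nonneg (d : ℝ)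
  norm_num at h5
  linarith

theorem c4_pre {d N a : ℤ} (hd : Odd d) {k : ℕ} (hk : 1 ≤ k) (h : 3 * N + d = 2 ^ k * a) : N ∈ pre d a :=
  ⟨k, AA.b1_step hd hk (c4_odd hd hk h) h.symm⟩

theorem c4_pick {d a : ℤ} (hd : Odd d) {j k : ℕ} (hj : 1 ≤ j) (hjk : j < k) (hk : k ≤ 6) {N N' : ℤ}
    (h3 : ¬ (3 : ℤ) ∣ N) (h3' : ¬ (3 : ℤ) ∣ N') (h : 3 * N + d = 2 ^ j * a) (h' : 3 * N' + d = 2 ^ k * a) :
    ∃ N : ℤ, Odd N ∧ ¬ (3 : ℤ) ∣ N ∧ ¬ pdc d N ∧ N ∈ pre d a ∧
      |(N : ℝ)| ≤ 22 * (|(a : ℝ)| + |(d : ℝ)|) := by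
  have hN := c4_odd hd hj h
  have hN' := c4_odd hd (by omega) h'
  by_cases hp : pdc d N
  · exact ⟨N', hN', h3', fun hp' => kids_not_both hd hj hjk hN hN' h h' ⟨hp, hp'⟩, c4_pre hd (by omega) h',
      c4_bound hk h'⟩
  · exact ⟨N, hN, h3, hp, c4_pre hd hj h, c4_bound (by omega) h⟩

/-- Choose `k₀ ∈ {1, 2}` with `3 ∣ 2^k₀ a - d` and let `N_i = (2^(k₀ + 2 i) a - d)/3` for `i = 0, 1, 2`; then
`N_{i+1} = 4 N_i + d ≡ N_i + d` modulo `3`, so exactly one of the three is divisible by `3` and two are not; by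
`kids_not_both` one of these two is not periodic. `N_i` is odd since `3 N_i = 2^k a - d` is odd.
`|N| ≤ (2^6 |a| + |d|)/3 ≤ 22 (|a| + |d|)`. `N ∈ pre d a` by `AA.b1_step`. -/
theorem exists_kid {d a : ℤ} (hd : Odd d) (h3 : ¬ (3 : ℤ) ∣ d) (ha : ¬ (3 : ℤ) ∣ a) :
    ∃ N : ℤ, Odd N ∧ ¬ (3 : ℤ) ∣ N ∧ ¬ pdc d N ∧ N ∈ pre d a ∧
      |(N : ℝ)| ≤ 22 * (|(a : ℝ)| + |(d : ℝ)|) := by
  obtain ⟨k, hk1, hk2, N₀, h0⟩ : ∃ k : ℕ, 1 ≤ k ∧ k ≤ 2 ∧ ∃ N₀ : ℤ, 3 * N₀ + d = 2 ^ k * a := by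
    by_cases h : (2 * a - d) % 3 = 0
    · exact ⟨1, le_rfl, by norm_num, (2 * a - d) / 3, by omega⟩
    · have ha' : a % 3 = 1 ∨ a % 3 = 2 := by omega
      have hd' : d % 3 = 1 ∨ d % 3 = 2 := by omega
      exact ⟨2, by norm_num, le_rfl, (4 * a - d) / 3, by
        rcases ha' with ha' | ha' <;> rcases hd' with hd' | hd' <;> omega⟩
  have h1 : 3 * (4 * N₀ + d) + d = 2 ^ (k + 2) * a := by
    rw [pow_add, mul_right_comm, ← h0]
    ring
  have h2 : 3 * (4 * (4 * N₀ + d) + d) + d = 2 ^ (k + 4) * a := by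
    rw [pow_add, mul_right_comm, ← h0]
    ring
  by_cases hN0 : (3 : ℤ) ∣ N₀
  · exact c4_pick hd (j := k + 2) (k := k + 4) (by omega) (by omega) (by omega) (by omega) (by omega) h1 h2
  · by_cases hN1 : (3 : ℤ) ∣ 4 * N₀ + d
    · exact c4_pick hd (j := k) (k := k + 4) hk1 (by omega) (by omega) hN0 (by omega) h0 h2
    · exact c4_pick hd (j := k) (k := k + 2) hk1 (by omega) (by omega) hN0 hN1 h0 h1

end Pool.Agent.Lib.MP_d0d59f_nt.GE

end

section

/-! Row pd-P03a. -/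

namespace Pool.Agent.Lib.MP_d0d59f_nt.PD

open Finset

open Classical in
/-- Bijection `α ↦ (α.take p, α.drop p)` (`mem_Rn`, `mem_Wd`, `bar_prefix`); the sum of the second part is at most
`3 (p + m) + 100` by `bar` at the full length. -/
theorem sum_Rn_split {p m L : ℕ} (hL : 3 * (p + m) + 100 ≤ L) (f : List ℕ → ℝ) :
    ∑ α ∈ Rn (p + m), f α =
      ∑ α ∈ Rn p, ∑ β ∈ Wd m L, if bar (α ++ β) then f (α ++ β) else 0 := by
  rw [← Finset.sum_product' (Rn p) (Wd m L) fun α β => if bar (α ++ β) then f (α ++ β) else 0,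
    ← Finset.sum_filter]
  refine Finset.sum_bij' (fun γ _ => (γ.take p, γ.drop p)) (fun q _ => q.1 ++ q.2) ?_ ?_ ?_ ?_ ?_
  · intro γ hγ
    rw [mem_Rn] at hγ
    obtain ⟨h1, h2, h3⟩ := hγ
    have hsplit : γ.take p ++ γ.drop p = γ := List.take_append_drop p γ
    rw [mem_filter, mem_product, mem_Rn, mem_Wd]
    refine ⟨⟨⟨?_, ?_, ?_⟩, ?_, ?_, ?_⟩, ?_⟩
    · simp only [List.length_take, h1]
      omega
    · intro a ha
      exact h2 a (List.mem_of_mem_take ha)
    · refine bar_prefix (β := γ.drop p) ?_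
      simp only [hsplit]
      exact h3
    · simp only [List.length_drop, h1]
      omega
    · have h4 := (h3 γ.length le_rfl).2
      rw [List.take_length] at h4
      have h5 : (γ.take p).sum + (γ.drop p).sum = γ.sum := by
        rw [← List.sum_append, hsplit]
      rw [h1] at h4
      simp only
      omega
    · intro a ha
      exact h2 a (List.mem_of_mem_drop ha)
    · simp only [hsplit]
      exact h3
  · intro q hq
    rw [mem_filter, mem_product, mem_Rn, mem_Wd] at hq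
    obtain ⟨⟨⟨h1, h2, _⟩, h4, _, h6⟩, h7⟩ := hq
    rw [mem_Rn]
    refine ⟨by rw [List.length_append, h1, h4], ?_, h7⟩
    intro a ha
    rcases List.mem_append.mp ha with h | h
    · exact h2 a h
    · exact h6 a h
  · intro γ _
    exact List.take_append_drop p γ
  · intro q hq
    rw [mem_filter, mem_product, mem_Rn, mem_Wd] at hq
    obtain ⟨⟨⟨h1, _, _⟩, _⟩, _⟩ := hq
    ext1
    · simp only
      rw [← h1, List.take_left]
    · simp only
      rw [← h1, List.drop_left]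
  · intro γ _
    simp only [List.take_append_drop]

open Classical in
/-- `sum_Rn_split`, `vd_append`, `nd_append`, `wt_append`. -/
theorem EE_split {p m L : ℕ} (hL : 3 * (p + m) + 100 ≤ L) (f : List ℕ → ℤ → ℝ) (x : ℤ) :
    EE (p + m) f x = EE p (fun α z => ∑ β ∈ Wd m L,
      if vd β z ∧ bar (α ++ β) then wt β * f (α ++ β) (nd β z) else 0) x := by
  unfold EE
  rw [sum_Rn_split hL]
  refine Finset.sum_congr rfl fun α _ => ?_
  by_cases hv : vd α x
  · rw [if_pos hv, Finset.mul_sum]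
    refine Finset.sum_congr rfl fun β _ => ?_
    by_cases hb : bar (α ++ β)
    · rw [if_pos hb]
      by_cases hw : vd β (nd α x)
      · rw [if_pos (vd_append.mpr ⟨hv, hw⟩), if_pos ⟨hw, hb⟩, wt_append, nd_append hv, mul_assoc]
      · rw [if_neg fun h => hw (vd_append.mp h).2, if_neg fun h => hw h.1, mul_zero]
    · rw [if_neg hb, if_neg fun h => hb h.2, mul_zero]
  · rw [if_neg hv]
    refine Finset.sum_eq_zero fun β _ => ?_
    rw [if_neg fun h => hv (vd_append.mp h).1, ite_self]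

end Pool.Agent.Lib.MP_d0d59f_nt.PD

end

section

/-! Row pd-P09a. -/

namespace Pool.Agent.Lib.MP_d0d59f_nt.PD

open Finset

end Pool.Agent.Lib.MP_d0d59f_nt.PD

end

section

/-! Row pd-P09b. -/

namespace Pool.Agent.Lib.MP_d0d59f_nt.PD

open Finset

end Pool.Agent.Lib.MP_d0d59f_nt.PD

end

section

/-! Row pd-P11: mass of the bad words. -/

namespace Pool.Agent.Lib.MP_d0d59f_nt.PD

open Finset

end Pool.Agent.Lib.MP_d0d59f_nt.PD

end

section

/-! Row pd-P19a. -/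

namespace Pool.Agent.Lib.MP_d0d59f_nt.PD

open Finset

/-- Node of the word `α` at the root `y` for `T_d`. -/
def ndd (d : ℤ) (α : List ℕ) (y : ℤ) : ℤ := (2 ^ α.sum * y - d * (AA.cc α : ℤ)) / 3 ^ α.length

/-- `2^{|α|} y - d cc α ≡ d (2^{|α|} x - cc α) ≡ 0` modulo `3^n`. -/
theorem ndd_mul {d x y : ℤ} {α : List ℕ} (hv : vd α x) (hxy : x * d ≡ y [ZMOD 3 ^ α.length]) :
    3 ^ α.length * ndd d α y = 2 ^ α.sum * y - d * (AA.cc α : ℤ) := by
  unfold ndd
  refine Int.mul_ediv_cancel' ?_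
  have e : 2 ^ α.sum * y - d * (AA.cc α : ℤ) =
      2 ^ α.sum * (y - x * d) + d * (2 ^ α.sum * x - (AA.cc α : ℤ)) := by ring
  rw [e]
  exact dvd_add (Dvd.dvd.mul_left (Int.modEq_iff_dvd.1 hxy) _) (Dvd.dvd.mul_left hv _)

theorem p19a_nd_one (a : ℕ) (x : ℤ) : nd [a] x = GE.stp a x := by
  unfold nd GE.stp
  simp [AA.cc]

theorem p19a_ndd_cons {d y M' : ℤ} {a : ℕ} {α : List ℕ} (h : 3 * M' = 2 ^ a * y - d) :
    ndd d (a :: α) y = ndd d α M' := by
  unfold ndd
  rw [List.sum_cons, List.length_cons, AA.cc]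
  have e : 2 ^ (a + α.sum) * y - d * ((2 ^ α.sum + 3 * AA.cc α : ℕ) : ℤ) =
      3 * (2 ^ α.sum * M' - d * (AA.cc α : ℤ)) := by
    push_cast
    rw [pow_add]
    linear_combination (-(2 : ℤ) ^ α.sum) * h
  rw [e, pow_succ, mul_comm ((3 : ℤ) ^ α.length) 3]
  exact Int.mul_ediv_mul_of_pos _ _ (by norm_num)

/-- Induction on `α` (generalizing `x`, `y`), `α = a :: α'`: `vd [a] x`, `vd α' x'` with `x' = nd [a] x`
(`vd_append`), `3 M' = 2^a y - d` with `M' ≡ x' d` modulo `3^(n-1)`, `M'` odd since `a ≥ 1`, `d` odd; and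
`ndd d (a :: α') y = ndd d α' M'` (`cc (a :: α') = 2^{|α'|} + 3 cc α'`). See `GE.actd_path`, `GE.stpd_congr`. -/
theorem vd_path {d : ℤ} (hd : Odd d) {α : List ℕ} (hα : ∀ a ∈ α, 1 ≤ a) {x y : ℤ} (hv : vd α x)
    (hy : Odd y) (hxy : x * d ≡ y [ZMOD 3 ^ α.length]) : AA.isPath d α (ndd d α y) y := by
  induction α generalizing x y with
  | nil =>
    have e : ndd d [] y = y := by simp [ndd, AA.cc]
    rw [e]
    exact ⟨hy, rfl⟩
  | cons a α ih =>
    have hv' : vd ([a] ++ α) x := hv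
    obtain ⟨h1, h2⟩ := vd_append.1 hv'
    rw [p19a_nd_one] at h2
    have h5 := GE.stpd_congr (d := d) (y := y) (m := α.length) ((vd_one a x).1 h1) (by
      rwa [List.length_cons] at hxy)
    have ha : 1 ≤ a := hα a List.mem_cons_self
    have hodd : Odd (GE.stpd d a y) := by
      obtain ⟨b, rfl⟩ : ∃ b, a = b + 1 := ⟨a - 1, by omega⟩
      have h6 : Odd (3 * GE.stpd d (b + 1) y) := by
        rw [h5.1]
        refine Even.sub_odd ?_ hd
        rw [pow_succ, show (2 : ℤ) ^ b * 2 * y = 2 * (2 ^ b * y) by ring]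
        exact even_two_mul _
      exact (Int.odd_mul.1 h6).2
    rw [p19a_ndd_cons h5.1]
    exact ⟨GE.stpd d a y, ih (fun c hc => hα c (List.mem_cons_of_mem _ hc)) h2 hodd h5.2, ha,
      by rw [h5.1]; ring, hy⟩

end Pool.Agent.Lib.MP_d0d59f_nt.PD

end

section

/-! Row pd-P20a. -/

namespace Pool.Agent.Lib.MP_d0d59f_nt.PD

open Finset

theorem p20a_aux {d : ℤ} (hd : Odd d) {e e' : List ℕ} {N y : ℤ} (h : AA.isPath d e N y)
    (h' : AA.isPath d e' N y) (hy : ¬ GE.pdc d y) : e'.sum ≤ e.sum := by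
  by_contra hlt
  obtain ⟨p, hp⟩ := Nat.exists_eq_add_of_le (show e.sum ≤ e'.sum by omega)
  apply hy
  refine ⟨p, by omega, ?_⟩
  have h1 := AA.isPath_iterate hd h
  have h2 := AA.isPath_iterate hd h'
  rw [hp, Nat.add_comm, Function.iterate_add_apply, h1] at h2
  exact h2

/-- Two paths from the same `N` to a non periodic `y` are equal as words: the lengths of the times agree
(`GE.ones_path`, `AA.isPath_iterate`, `y` not periodic), then `AA.isPath_unique`; this is the case `m = N` of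
`GE.c3_aux`/`GE.pre_disjoint`, which is stated for words of equal length; for different lengths
`T^|e| N = y = T^|e'| N` forces `|e| = |e'|`, so `e.length = ones d N |e| = ones d N |e'| = e'.length`
(`GE.ones_path`). -/
theorem path_unique {d : ℤ} (hd : Odd d) {e e' : List ℕ} {N y : ℤ} (h : AA.isPath d e N y)
    (h' : AA.isPath d e' N y) (hy : ¬ GE.pdc d y) : e = e' := by
  have hs : e.sum = e'.sum := le_antisymm (p20a_aux hd h' h hy) (p20a_aux hd h h' hy)
  have hl : e.length = e'.length := by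
    rw [← GE.ones_path hd h, ← GE.ones_path hd h', hs]
  exact (AA.isPath_unique h h' hl).1

end Pool.Agent.Lib.MP_d0d59f_nt.PD

end
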