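import Mathlib
import Pool.Agent.Lib.MP_d0d59f_nt.PZ.K033
import Pool.Agent.Lib.MP_d0d59f_nt.PZ.K036
import Pool.Agent.Lib.MP_d0d59f_nt.CY.N033

section

/-! Row pd-P04a. -/

namespace Pool.Agent.Lib.MP_d0d59f_nt.PD

open Finset

theorem p04a_bar {n : ℕ} {α : List ℕ} (h : α ∈ Rn n) : 5 * n ≤ 3 * α.sum + 100 := by
  obtain ⟨h1, _, h3⟩ := mem_Rn.1 h
  have h4 := (h3 n (by rw [h1])).1
  rwa [← h1, List.take_length, h1] at h4

theorem p04a_two {n : ℕ} {α : List ℕ} (h : α ∈ Rn n) :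
    (32 : ℝ) ^ n ≤ (2 ^ 34 * 2 ^ α.sum) ^ 3 := by
  have h1 := p04a_bar h
  calc (32 : ℝ) ^ n = 2 ^ (5 * n) := by
        rw [pow_mul]
        norm_num
    _ ≤ 2 ^ (3 * (34 + α.sum)) := pow_le_pow_right₀ (by norm_num) (by omega)
    _ = (2 ^ 34 * 2 ^ α.sum) ^ 3 := by
        rw [← pow_add, ← pow_mul, mul_comm]

/-- `(3^(n+k))^3 = 27^(n+k) ≤ 32^n = 2^(5n) ≤ 2^(3|α| + 100) ≤ (2^34 2^|α|)^3` since `27^21 ≤ 32^20` and
`20 k ≤ n`; `bar` at the full length; compare cubes (`lt_of_pow_lt_pow_left₀`/`pow_le_pow_left`). -/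
theorem pow_le {n k : ℕ} (hk : 20 * k ≤ n) {α : List ℕ} (h : α ∈ Rn n) :
    (3 : ℝ) ^ (n + k) ≤ 2 ^ 34 * 2 ^ α.sum := by
  refine le_of_pow_le_pow_left₀ (n := 3) (by norm_num) (by positivity) ?_
  refine le_trans ?_ (p04a_two h)
  obtain ⟨m, rfl⟩ : ∃ m, n = 20 * k + m := ⟨n - 20 * k, by omega⟩
  calc ((3 : ℝ) ^ (20 * k + m + k)) ^ 3 = (27 ^ 21) ^ k * 27 ^ m := by
        rw [← pow_mul, ← pow_mul, show (27 : ℝ) = 3 ^ 3 by norm_num, ← pow_mul, ← pow_mul,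
          ← pow_add]
        congr 1
        ring
    _ ≤ (32 ^ 20) ^ k * 32 ^ m := by
        refine mul_le_mul ?_ ?_ (by positivity) (by positivity)
        · exact pow_le_pow_left₀ (by positivity) (by norm_num) k
        · exact pow_le_pow_left₀ (by norm_num) (by norm_num) m
    _ = (32 : ℝ) ^ (20 * k + m) := by
        rw [pow_add, pow_mul]

/-- `3^i ≤ 2^34 (189/200)^i 2^|α|` for a word of length `i` in the barrier: compare cubes,
`27^i ≤ (32 (189/200)^3)^i` and `2^(5i) ≤ 2^(3|α|+100)`. -/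
theorem pow_le_rho {i : ℕ} {α : List ℕ} (h : α ∈ Rn i) :
    (3 : ℝ) ^ i ≤ 2 ^ 34 * (189 / 200) ^ i * 2 ^ α.sum := by
  refine le_of_pow_le_pow_left₀ (n := 3) (by norm_num) (by positivity) ?_
  have h1 := p04a_two h
  calc ((3 : ℝ) ^ i) ^ 3 = 27 ^ i := by
        rw [← pow_mul, mul_comm, pow_mul]
        norm_num
    _ ≤ (32 * (189 / 200) ^ 3) ^ i := pow_le_pow_left₀ (by norm_num) (by norm_num) i
    _ = 32 ^ i * ((189 / 200) ^ i) ^ 3 := by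
        rw [mul_pow, ← pow_mul, ← pow_mul, mul_comm 3 i]
    _ ≤ (2 ^ 34 * 2 ^ α.sum) ^ 3 * ((189 / 200) ^ i) ^ 3 :=
        mul_le_mul_of_nonneg_right h1 (by positivity)
    _ = (2 ^ 34 * (189 / 200) ^ i * 2 ^ α.sum) ^ 3 := by
        rw [← mul_pow]
        congr 1
        ring

end Pool.Agent.Lib.MP_d0d59f_nt.PD

end

section

/-! Row pd-P04b. -/

namespace Pool.Agent.Lib.MP_d0d59f_nt.PD

open Finset

theorem p04b_len {n : ℕ} {α : List ℕ} (h : α ∈ Rn n) : α.length = n := (mem_Rn.1 h).1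

theorem p04b_aux : ∀ (n m : ℕ) (_ : m = n) (α : List ℕ), α ∈ Rn m →
    (AA.cc α : ℝ) ≤ 2 ^ 34 * (20 * (1 - (189 / 200 : ℝ) ^ m)) * 2 ^ α.sum := by
  intro n
  induction n with
  | zero =>
    intro m hm α h
    have h1 : α.length = m := p04b_len h
    rw [hm, List.length_eq_zero_iff] at h1
    rw [hm, h1, pow_zero, sub_self, mul_zero, mul_zero, zero_mul]
    exact le_of_eq Nat.cast_zero
  | succ n ih =>
    intro m hm α h
    subst hm
    obtain ⟨hl, hp, hb⟩ := mem_Rn.1 h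
    have hne : α ≠ [] := by
      intro h0
      rw [h0] at hl
      simp at hl
    obtain ⟨g, a, hga, hg⟩ : ∃ g : List ℕ, ∃ a, α = g ++ [a] ∧ g.length = n := by
      refine ⟨α.dropLast, α.getLast hne, (List.dropLast_append_getLast hne).symm, ?_⟩
      rw [List.length_dropLast, hl]
      rfl
    have hρ := pow_le_rho h
    subst hga
    have hgR : g ∈ Rn n :=
      mem_Rn.2 ⟨hg, fun x hx => hp x (List.mem_append_left _ hx), bar_prefix hb⟩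
    have h1 := ih n rfl g hgR
    have hcc : (AA.cc (g ++ [a]) : ℝ) = 2 ^ a * (AA.cc g : ℝ) + 3 ^ n := by
      rw [AA.cc_append, hg]
      simp [AA.cc]
    have hsum : (g ++ [a]).sum = g.sum + a := by
      rw [List.sum_append, List.sum_singleton]
    rw [hcc]
    rw [hsum] at hρ ⊢
    have hpos : (0 : ℝ) < 2 ^ (g.sum + a) := by positivity
    have hr : (0 : ℝ) < (189 / 200 : ℝ) ^ n := by positivity
    have h2 : (2 : ℝ) ^ a * (AA.cc g : ℝ) ≤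
        2 ^ 34 * (20 * (1 - (189 / 200 : ℝ) ^ n)) * 2 ^ (g.sum + a) := by
      have h3 := mul_le_mul_of_nonneg_left h1 (by positivity : (0 : ℝ) ≤ 2 ^ a)
      refine h3.trans (le_of_eq ?_)
      rw [pow_add]
      ring
    have h4 : (3 : ℝ) ^ n ≤ 2 ^ 34 * (1 / 3 * (189 / 200 : ℝ) ^ (n + 1)) * 2 ^ (g.sum + a) := by
      rw [pow_succ (3 : ℝ) n] at hρ
      nlinarith
    have h5 : 2 ^ 34 * (1 / 3 * (189 / 200 : ℝ) ^ (n + 1)) * 2 ^ (g.sum + a) ≤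
        2 ^ 34 * (20 * ((189 / 200 : ℝ) ^ n - (189 / 200 : ℝ) ^ (n + 1))) * 2 ^ (g.sum + a) := by
      refine mul_le_mul_of_nonneg_right ?_ hpos.le
      refine mul_le_mul_of_nonneg_left ?_ (by positivity)
      rw [pow_succ (189 / 200 : ℝ) n]
      nlinarith
    have h6 : 2 ^ 34 * (20 * (1 - (189 / 200 : ℝ) ^ n)) * (2 : ℝ) ^ (g.sum + a) +
        2 ^ 34 * (20 * ((189 / 200 : ℝ) ^ n - (189 / 200 : ℝ) ^ (n + 1))) * 2 ^ (g.sum + a) =
        2 ^ 34 * (20 * (1 - (189 / 200 : ℝ) ^ (n + 1))) * 2 ^ (g.sum + a) := by ring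
    linarith

/-- By induction on the length (append a letter at the END: `AA.cc_append`, `cc (α ++ [a]) = 2^a cc α + 3^n`;
the prefix is in the barrier by `bar_prefix`):
`cc α ≤ 2^34 * 20 * (1 - (189/200)^n) * 2^|α|`, by `pow_le_rho` for the word `α ++ [a]` of length `n + 1`:
`3^n = 3^(n+1)/3 ≤ (1/3) 2^34 ρ^(n+1) 2^{|α|+a}` and `(1/3) ρ^(n+1) ≤ 20 (ρ^n - ρ^(n+1))`. -/
theorem cc_le_Rn {n : ℕ} {α : List ℕ} (h : α ∈ Rn n) : (AA.cc α : ℝ) ≤ 2 ^ 40 * 2 ^ α.sum := by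
  refine (p04b_aux n n rfl α h).trans ?_
  refine mul_le_mul_of_nonneg_right ?_ (by positivity)
  have hr : (0 : ℝ) < (189 / 200 : ℝ) ^ n := by positivity
  nlinarith

end Pool.Agent.Lib.MP_d0d59f_nt.PD

end

section

/-! Row pd-P12a. -/

namespace Pool.Agent.Lib.MP_d0d59f_nt.PD

open Finset

theorem p12a_geom (n : ℕ) : ∑ j ∈ range (n + 1), (97 / 100 : ℝ) ^ j ≤ 100 / 3 := by
  have h2 := geom_sum_Ico_le_of_lt_one (x := (97 / 100 : ℝ)) (m := 0) (n := n + 1)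
    (by norm_num) (by norm_num)
  rw [range_eq_Ico]
  refine h2.trans ?_
  norm_num

theorem p12a_const : ((93 / 100 : ℝ) ^ 100 + (2 / 3) ^ 100) * (100 / 3) ≤ 1 / 4 := by
  norm_num

/-- For every `L ≥ 3 n + 100`, `∑_{Wd n L} 2^{-|α|} = ∑_{l ≤ L} nb n l ≥ 1 - (2/3)^(L+1) 3^n`
(`AA.one_sub_sum_nb_le`, `x = 3/2`), and the words of `Wd n L` which are not in `Rn n` violate the barrier at some
`i ≤ n`: `5 i > 3 |α.take i| + 100` or `|α.take i| > 3 i + 100`, of mass at most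
`∑_i ((93/100)^100 + (2/3)^100) (97/100)^i ≤ 34 ((93/100)^100 + (2/3)^100) ≤ 1/4` (`low_tail`, `high_tail`,
`c = 100`). Take `L` large. -/
theorem Rn_mass (n : ℕ) : (1 / 2 : ℝ) ≤ ∑ α ∈ Rn n, (1 / 2 : ℝ) ^ α.sum := by
  classical
  obtain ⟨L, hL⟩ : ∃ L : ℕ, (2 / 3 : ℝ) ^ (L + 1) * 3 ^ n ≤ 1 / 4 := by
    have h3 : (0 : ℝ) < 3 ^ n := by positivity
    obtain ⟨L, hL⟩ := exists_pow_lt_of_lt_one (show (0 : ℝ) < 1 / 4 / 3 ^ n by positivity)
      (show (2 / 3 : ℝ) < 1 by norm_num)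
    refine ⟨L, ?_⟩
    have h4 : (2 / 3 : ℝ) ^ (L + 1) ≤ (2 / 3) ^ L :=
      pow_le_pow_of_le_one (by norm_num) (by norm_num) (Nat.le_succ L)
    have h5 : (2 / 3 : ℝ) ^ (L + 1) ≤ 1 / 4 / 3 ^ n := h4.trans hL.le
    rwa [le_div_iff₀ h3] at h5
  have h1 := AA.one_sub_sum_nb_le n L (3 / 2) (by norm_num) (by norm_num)
  have e1 : ((3 / 2 : ℝ)⁻¹) = 2 / 3 := by norm_num
  have e2 : ((3 / 2 : ℝ) / (2 - 3 / 2)) = 3 := by norm_num
  rw [e1, e2] at h1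
  have h2 : ∑ α ∈ Wd n L, (1 / 2 : ℝ) ^ α.sum = ∑ l ∈ range (L + 1), AA.nb n l := by
    rw [sum_Wd]
    refine sum_congr rfl fun l _ => ?_
    have h3 : ∀ α ∈ AA.comps n l, (1 / 2 : ℝ) ^ α.sum = (1 / 2) ^ l := by
      intro α hα
      rw [(AA.mem_comps.1 hα).2.1]
    rw [sum_congr rfl h3, sum_const, nsmul_eq_mul, AA.nb, mul_comm]
  have hpt : ∀ α ∈ Wd n L, (1 / 2 : ℝ) ^ α.sum ≤ (if bar α then (1 / 2 : ℝ) ^ α.sum else 0) +
      ∑ i ∈ range (n + 1),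
        ((if 3 * (α.take i).sum + 100 < 5 * i then (1 / 2 : ℝ) ^ α.sum else 0) +
        (if 3 * i + 100 < (α.take i).sum then (1 / 2 : ℝ) ^ α.sum else 0)) := by
    intro α hα
    have hw : (0 : ℝ) ≤ (1 / 2 : ℝ) ^ α.sum := by positivity
    have hnn : ∀ j ∈ range (n + 1), (0 : ℝ) ≤
        ((if 3 * (α.take j).sum + 100 < 5 * j then (1 / 2 : ℝ) ^ α.sum else 0) +
        (if 3 * j + 100 < (α.take j).sum then (1 / 2 : ℝ) ^ α.sum else 0)) := by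
      intro j _
      refine add_nonneg ?_ ?_ <;> split_ifs <;> first | exact hw | exact le_rfl
    by_cases hb : bar α
    · rw [if_pos hb]
      have := sum_nonneg hnn
      linarith
    · rw [if_neg hb, zero_add]
      have hl : α.length = n := (mem_Wd.1 hα).1
      unfold bar at hb
      push Not at hb
      obtain ⟨i, hi, h3⟩ := hb
      have hir : i ∈ range (n + 1) := mem_range.2 (by omega)
      refine le_trans ?_ (single_le_sum hnn hir)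
      by_cases h4 : 3 * (α.take i).sum + 100 < 5 * i
      · rw [if_pos h4]
        have : (0 : ℝ) ≤ (if 3 * i + 100 < (α.take i).sum then (1 / 2 : ℝ) ^ α.sum else 0) := by
          split_ifs <;> first | exact hw | exact le_rfl
        linarith
      · have h5 := h3 (by omega)
        rw [if_neg h4, if_pos h5, zero_add]
  have hsum := sum_le_sum hpt
  rw [sum_add_distrib, h2] at hsum
  have hA : ∑ α ∈ Wd n L, (if bar α then (1 / 2 : ℝ) ^ α.sum else 0) ≤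
      ∑ α ∈ Rn n, (1 / 2 : ℝ) ^ α.sum := by
    rw [← sum_filter]
    refine sum_le_sum_of_subset_of_nonneg ?_ fun α _ _ => by positivity
    intro α hα
    rw [mem_filter] at hα
    obtain ⟨h3, h4⟩ := hα
    rw [mem_Wd] at h3
    exact mem_Rn.2 ⟨h3.1, h3.2.2, h4⟩
  have hB : ∑ α ∈ Wd n L, ∑ i ∈ range (n + 1),
        ((if 3 * (α.take i).sum + 100 < 5 * i then (1 / 2 : ℝ) ^ α.sum else 0) +
        (if 3 * i + 100 < (α.take i).sum then (1 / 2 : ℝ) ^ α.sum else 0)) ≤ 1 / 4 := by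
    rw [sum_comm]
    have h3 : ∀ i ∈ range (n + 1), ∑ α ∈ Wd n L,
        ((if 3 * (α.take i).sum + 100 < 5 * i then (1 / 2 : ℝ) ^ α.sum else 0) +
        (if 3 * i + 100 < (α.take i).sum then (1 / 2 : ℝ) ^ α.sum else 0)) ≤
        ((93 / 100 : ℝ) ^ 100 + (2 / 3) ^ 100) * (97 / 100) ^ i := by
      intro i hi
      have hin : i ≤ n := by
        rw [mem_range] at hi
        omega
      rw [sum_add_distrib, add_mul]
      exact add_le_add (low_tail hin 100) (high_tail hin 100)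
    refine (sum_le_sum h3).trans ?_
    rw [← mul_sum]
    refine le_trans (mul_le_mul_of_nonneg_left (p12a_geom n) (by positivity)) p12a_const
  linarith

end Pool.Agent.Lib.MP_d0d59f_nt.PD

end

section

/-! Row pd-P19b. -/

namespace Pool.Agent.Lib.MP_d0d59f_nt.PD

open Finset

/-- `|2^l y - d cc α| ≤ 2^l (|y| + 2^40 |d|)` (`cc_le_Rn`) and `2^l ≤ M 3^n` for `l = lev M n`
(`Nat.pow_log_le_self`). -/
theorem ndd_le {d x y : ℤ} {n M : ℕ} (hM : 1 ≤ M) {α : List ℕ} (hα : α ∈ Rn n) (hl : α.sum = lev M n)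
    (hv : vd α x) (hxy : x * d ≡ y [ZMOD 3 ^ n]) :
    |(ndd d α y : ℝ)| ≤ M * (|(y : ℝ)| + 2 ^ 40 * |(d : ℝ)|) := by
  have hlen : α.length = n := (mem_Rn.mp hα).1
  have h1 : (3 : ℤ) ^ α.length * ndd d α y = 2 ^ α.sum * y - d * (AA.cc α : ℤ) :=
    ndd_mul hv (by rw [hlen]; exact hxy)
  have h2 : (3 : ℝ) ^ n * (ndd d α y : ℝ) = 2 ^ α.sum * (y : ℝ) - (d : ℝ) * (AA.cc α : ℝ) := by
    rw [hlen] at h1
    exact_mod_cast h1
  have hcc := cc_le_Rn hα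
  have hcc0 : (0 : ℝ) ≤ (AA.cc α : ℝ) := Nat.cast_nonneg _
  have h3 : (3 : ℝ) ^ n * |(ndd d α y : ℝ)| ≤ 2 ^ α.sum * (|(y : ℝ)| + 2 ^ 40 * |(d : ℝ)|) := by
    have e : (3 : ℝ) ^ n * |(ndd d α y : ℝ)| = |(3 : ℝ) ^ n * (ndd d α y : ℝ)| := by
      rw [abs_mul, abs_of_pos (by positivity : (0 : ℝ) < 3 ^ n)]
    rw [e, h2]
    calc |2 ^ α.sum * (y : ℝ) - (d : ℝ) * (AA.cc α : ℝ)|
        ≤ |2 ^ α.sum * (y : ℝ)| + |(d : ℝ) * (AA.cc α : ℝ)| := abs_sub _ _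
      _ = 2 ^ α.sum * |(y : ℝ)| + |(d : ℝ)| * (AA.cc α : ℝ) := by
          rw [abs_mul, abs_mul, abs_of_pos (by positivity : (0 : ℝ) < 2 ^ α.sum),
            abs_of_nonneg hcc0]
      _ ≤ 2 ^ α.sum * |(y : ℝ)| + |(d : ℝ)| * (2 ^ 40 * 2 ^ α.sum) := by
          have := mul_le_mul_of_nonneg_left hcc (abs_nonneg (d : ℝ))
          linarith
      _ = 2 ^ α.sum * (|(y : ℝ)| + 2 ^ 40 * |(d : ℝ)|) := by ring
  have h4 : (2 : ℝ) ^ α.sum ≤ M * 3 ^ n := by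
    have h5 : 2 ^ Nat.log 2 (M * 3 ^ n) ≤ M * 3 ^ n :=
      Nat.pow_log_le_self 2 (by positivity)
    rw [hl, lev]
    exact_mod_cast h5
  have h6 : (0 : ℝ) < 3 ^ n := by positivity
  have h7 : (0 : ℝ) ≤ |(y : ℝ)| + 2 ^ 40 * |(d : ℝ)| := by positivity
  have h8 : (3 : ℝ) ^ n * |(ndd d α y : ℝ)| ≤ 3 ^ n * (M * (|(y : ℝ)| + 2 ^ 40 * |(d : ℝ)|)) := by
    refine h3.trans ?_
    have := mul_le_mul_of_nonneg_right h4 h7
    linarith
  exact le_of_mul_le_mul_left h8 h6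

/-- `M 3^n < 2^(lev M n + 1)` (`Nat.lt_pow_succ_log_self`). -/
theorem wt_le_two_div {n M : ℕ} (hM : 1 ≤ M) {α : List ℕ} (hα : α ∈ Rn n) (hl : α.sum = lev M n) :
    wt α ≤ 2 / M := by
  have hlen : α.length = n := (mem_Rn.mp hα).1
  have hM0 : (0 : ℝ) < (M : ℝ) := by exact_mod_cast hM
  have h1 : M * 3 ^ n < 2 ^ (Nat.log 2 (M * 3 ^ n) + 1) :=
    Nat.lt_pow_succ_log_self (by norm_num) _
  have h2 : (M : ℝ) * 3 ^ n < 2 ^ (α.sum + 1) := by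
    rw [hl, lev]
    exact_mod_cast h1
  rw [wt, hlen, div_le_div_iff₀ (by positivity) hM0]
  rw [pow_succ] at h2
  linarith

end Pool.Agent.Lib.MP_d0d59f_nt.PD

end
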