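import Mathlib
import Pool.Agent.Lib.MP_d0d59f_nt.PZ.K033
import Pool.Agent.Lib.MP_d0d59f_nt.PZ.K036
import Pool.Agent.Lib.MP_d0d59f_nt.CY.N033

/-! Row pd-P18a. -/

namespace Pool.Agent.Lib.MP_d0d59f_nt.PD

open Finset

/-- If `N` is large (depending on `M`) no barrier word of length `N` has sum `≤ lev M N`:
`5 N ≤ 3 |α| + 100`, `2^(lev M N) ≤ M 3^N` (`Nat.pow_log_le_self`), so `32^N ≤ 2^100 M^3 27^N`, false for large `N`.
So the last term of `TT M N x` vanishes. -/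
theorem TT_eq_hits (M : ℕ) (hM : 1 ≤ M) : ∃ N0 : ℕ, ∀ N, N0 ≤ N → ∀ x : ℤ,
    TT M N x = ∑ i ∈ range N, hit M i x := by
  obtain ⟨n0, hn0⟩ := pow_unbounded_of_one_lt ((2 : ℝ) ^ 100 * (M : ℝ) ^ 3)
    (show (1 : ℝ) < 32 / 27 by norm_num)
  refine ⟨n0, fun N hN x => ?_⟩
  have hbig : (2 : ℝ) ^ 100 * (M : ℝ) ^ 3 < (32 / 27) ^ N :=
    hn0.trans_le (pow_le_pow_right₀ (by norm_num) hN)
  have hkey : ∀ α ∈ Rn N, lev M N < α.sum := by
    intro α hα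
    by_contra hcon
    push Not at hcon
    obtain ⟨hlen, -, hbar⟩ := mem_Rn.1 hα
    have h1 := (hbar N hlen.ge).1
    rw [← hlen, List.take_length] at h1
    have h2 : 2 ^ lev M N ≤ M * 3 ^ N :=
      Nat.pow_log_le_self 2 (by positivity)
    have h3 : 5 * N ≤ 3 * lev M N + 100 := by
      rw [hlen] at h1
      omega
    have h4 : (2 : ℝ) ^ (5 * N) ≤ 2 ^ (3 * lev M N + 100) :=
      pow_le_pow_right₀ (by norm_num) h3
    have h5 : (2 : ℝ) ^ lev M N ≤ M * 3 ^ N := by exact_mod_cast h2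
    have h6 : ((2 : ℝ) ^ lev M N) ^ 3 ≤ (M * 3 ^ N) ^ 3 := pow_le_pow_left₀ (by positivity) h5 3
    have h7 : (2 : ℝ) ^ (3 * lev M N + 100) = 2 ^ 100 * ((2 : ℝ) ^ lev M N) ^ 3 := by
      rw [pow_add, ← pow_mul, mul_comm (lev M N) 3]
      ring
    have h8 : (2 : ℝ) ^ (5 * N) = 32 ^ N := by
      rw [pow_mul]
      norm_num
    have h9 : ((M : ℝ) * 3 ^ N) ^ 3 = (M : ℝ) ^ 3 * 27 ^ N := by
      rw [mul_pow, ← pow_mul, mul_comm N 3, pow_mul]
      norm_num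
    rw [h7, h8] at h4
    rw [h9] at h6
    have h10 : (32 : ℝ) ^ N ≤ 2 ^ 100 * ((M : ℝ) ^ 3 * 27 ^ N) :=
      h4.trans (mul_le_mul_of_nonneg_left h6 (by positivity))
    rw [div_pow, lt_div_iff₀ (by positivity)] at hbig
    have h11 : (2 : ℝ) ^ 100 * (M : ℝ) ^ 3 * 27 ^ N = 2 ^ 100 * ((M : ℝ) ^ 3 * 27 ^ N) := by ring
    rw [h11] at hbig
    exact absurd h10 (not_le.2 hbig)
  have hzero : EE N (fun α _ => VV M N α.sum) x = 0 := by
    rw [EE]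
    refine Finset.sum_eq_zero fun α hα => ?_
    have h1 := hkey α hα
    have h2 : VV M N α.sum = 0 := by
      rw [VV, if_neg (by omega), if_neg (by omega)]
    rw [h2, mul_zero, ite_self]
  rw [TT, hzero, add_zero]

end Pool.Agent.Lib.MP_d0d59f_nt.PD
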