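import Mathlib
import Pool.Agent.Lib.MP_d0d59f_nt.PZ.K033
import Pool.Agent.Lib.MP_d0d59f_nt.PZ.K036
import Pool.Agent.Lib.MP_d0d59f_nt.CY.N034

section

/-! Row ge_T1: the density `WW n` of the Syracuse variable modulo `3^n`. -/

namespace Pool.Agent.Lib.MP_d0d59f_nt.GE

open Finset

/-- Total mass of the Syracuse variable of `n` steps at the class `Y` modulo `3^K` (`d = 1`, `r = 0`). -/
noncomputable def tot (K n : ℕ) (Y : ZMod (3 ^ K)) : ℝ := ∑' l, AA.pz 1 0 K n l Y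

/-- `WW n x = 3^n P(Syrac_n ≡ x mod 3^n)` = total weight of the words of length `n` with integer nodes at
the root `x`. -/
noncomputable def WW (n : ℕ) (x : ℤ) : ℝ := 3 ^ n * tot n n (x : ZMod (3 ^ n))

theorem t1_pz_le (K n l : ℕ) (Y : ZMod (3 ^ K)) : AA.pz 1 0 K n l Y ≤ AA.nb n l := by
  rw [← AA.sum_pz 1 0 K n l]
  exact Finset.single_le_sum (f := fun Y => AA.pz 1 0 K n l Y)
    (fun Y _ => AA.pz_nonneg 1 0 K n l Y) (Finset.mem_univ Y)

/-- `pz ≤ nb n l` (`AA.sum_pz`, nonnegative terms) and `∑_l nb n l ≤ 1` (`AA.sum_nb_le_one`). -/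
theorem summable_pz (K n : ℕ) (Y : ZMod (3 ^ K)) : Summable (fun l => AA.pz 1 0 K n l Y) := by
  refine summable_of_sum_range_le (c := 1) (fun l => AA.pz_nonneg _ _ _ _ _ _) (fun N => ?_)
  calc ∑ l ∈ range N, AA.pz 1 0 K n l Y ≤ ∑ l ∈ range N, AA.nb n l :=
        Finset.sum_le_sum fun l _ => t1_pz_le K n l Y
    _ ≤ ∑ l ∈ range (N + 1), AA.nb n l :=
        Finset.sum_le_sum_of_subset_of_nonneg (Finset.range_mono (Nat.le_succ N))
          (fun l _ _ => AA.nb_nonneg n l)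
    _ ≤ 1 := AA.sum_nb_le_one n N

theorem tot_nonneg (K n : ℕ) (Y : ZMod (3 ^ K)) : 0 ≤ tot K n Y :=
  tsum_nonneg fun _ => AA.pz_nonneg _ _ _ _ _ _

theorem WW_nonneg (n : ℕ) (x : ℤ) : 0 ≤ WW n x :=
  mul_nonneg (by positivity) (tot_nonneg _ _ _)

/-- `∑_l nb n l = 1` (`AA.sum_nb_le_one`, `AA.one_sub_sum_nb_le` with `x = 3/2`). -/
theorem hasSum_nb (n : ℕ) : HasSum (fun l => AA.nb n l) 1 := by
  rw [hasSum_iff_tendsto_nat_of_nonneg (fun l => AA.nb_nonneg n l)]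
  rw [← Filter.tendsto_add_atTop_iff_nat 1]
  have h1 : Filter.Tendsto (fun L : ℕ => 1 - ((3 / 2 : ℝ)⁻¹) ^ (L + 1) * ((3 / 2 : ℝ) / (2 - 3 / 2)) ^ n)
      Filter.atTop (nhds (1 - 0 * ((3 / 2 : ℝ) / (2 - 3 / 2)) ^ n)) := by
    refine Filter.Tendsto.const_sub 1 (Filter.Tendsto.mul_const _ ?_)
    rw [Filter.tendsto_add_atTop_iff_nat (f := fun k => ((3 / 2 : ℝ)⁻¹) ^ k) 1]
    exact tendsto_pow_atTop_nhds_zero_of_lt_one (by norm_num) (by norm_num)
  rw [zero_mul, sub_zero] at h1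
  refine tendsto_of_tendsto_of_tendsto_of_le_of_le h1 tendsto_const_nhds ?_ ?_
  · intro L
    have := AA.one_sub_sum_nb_le n L (3 / 2) (by norm_num) (by norm_num)
    simp only
    linarith
  · intro L
    exact AA.sum_nb_le_one n L

theorem sum_tot (K n : ℕ) : ∑ Y : ZMod (3 ^ K), tot K n Y = 1 := by
  unfold tot
  rw [← Summable.tsum_finsetSum (fun Y _ => summable_pz K n Y)]
  have : (fun l => ∑ Y : ZMod (3 ^ K), AA.pz 1 0 K n l Y) = fun l => AA.nb n l := by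
    funext l
    exact AA.sum_pz 1 0 K n l
  rw [this]
  exact (hasSum_nb n).tsum_eq

theorem WW_congr {n : ℕ} {x y : ℤ} (h : x ≡ y [ZMOD 3 ^ n]) : WW n x = WW n y := by
  unfold WW
  have : ((x : ℤ) : ZMod (3 ^ n)) = ((y : ℤ) : ZMod (3 ^ n)) := by
    rw [ZMod.intCast_eq_intCast_iff]
    exact_mod_cast h
  rw [this]

/-- Mean one. -/
theorem sum_WW (n : ℕ) : ∑ x ∈ range (3 ^ n), WW n (x : ℤ) = 3 ^ n := by
  unfold WW
  rw [← Finset.mul_sum]
  have h := AA.sum_range_eq_sum_zmod n (fun Y => tot n n Y)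
  rw [sum_tot] at h
  have h2 : ∑ x ∈ range (3 ^ n), tot n n (((x : ℕ) : ℤ) : ZMod (3 ^ n)) = 1 := by
    rw [← h]
    refine Finset.sum_congr rfl fun x _ => ?_
    push_cast
    rfl
  rw [h2, mul_one]

theorem t1_two_i2 (K : ℕ) : (2 : ZMod (3 ^ K)) * AA.i2 K = 1 := by
  unfold AA.i2
  have : IsUnit (2 : ZMod (3 ^ K)) := by
    have h := (ZMod.isUnit_iff_coprime 2 (3 ^ K)).2 (Nat.Coprime.pow_right K (by norm_num))
    exact_mod_cast h
  exact ZMod.mul_inv_of_unit _ this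

/-- The condition `hz = x`, for `d = 1`, `r = 0`: `2^{-|e|} cc e = x` in `ℤ/3^K` iff
`3^K ∣ 2^{|e|} x - cc e`. -/
theorem hz_iff (K : ℕ) (e : List ℕ) (x : ℤ) :
    AA.hz 1 0 K e = (x : ZMod (3 ^ K)) ↔ (3 : ℤ) ^ K ∣ 2 ^ e.sum * x - (AA.cc e : ℤ) := by
  have h1 : AA.hz 1 0 K e = AA.i2 K ^ e.sum * (AA.cc e : ZMod (3 ^ K)) := by
    unfold AA.hz
    push_cast
    ring
  have h2 : (2 : ZMod (3 ^ K)) ^ e.sum * AA.i2 K ^ e.sum = 1 := by
    rw [← mul_pow, t1_two_i2, one_pow]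
  have h3 : (3 : ℤ) ^ K ∣ 2 ^ e.sum * x - (AA.cc e : ℤ) ↔
      (2 : ZMod (3 ^ K)) ^ e.sum * (x : ZMod (3 ^ K)) = (AA.cc e : ZMod (3 ^ K)) := by
    have h4 := ZMod.intCast_zmod_eq_zero_iff_dvd (2 ^ e.sum * x - (AA.cc e : ℤ)) (3 ^ K)
    push_cast at h4
    rw [← h4, sub_eq_zero]
  rw [h3, h1]
  constructor
  · intro h
    rw [← h, ← mul_assoc, h2, one_mul]
  · intro h
    rw [← h, ← mul_assoc, mul_comm (AA.i2 K ^ e.sum), h2, one_mul]

/-- One step: `3^(n+1) ∣ 2^{|a::e|} x - cc (a::e)` iff `3 ∣ 2^a x - 1` and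
`3^n ∣ 2^{|e|} stp a x - cc e`. (`2^{a+|e|} x - 2^{|e|} - 3 cc e = 2^{|e|} (2^a x - 1) - 3 cc e`.) -/
theorem node_iff (n a : ℕ) (e : List ℕ) (x : ℤ) :
    (3 : ℤ) ^ (n + 1) ∣ 2 ^ (a :: e).sum * x - (AA.cc (a :: e) : ℤ) ↔
      (3 : ℤ) ∣ 2 ^ a * x - 1 ∧ (3 : ℤ) ^ n ∣ 2 ^ e.sum * stp a x - (AA.cc e : ℤ) := by
  have h1 : (2 : ℤ) ^ (a :: e).sum * x - (AA.cc (a :: e) : ℤ) =
      2 ^ e.sum * (2 ^ a * x - 1) - 3 * (AA.cc e : ℤ) := by
    rw [List.sum_cons, AA.cc, pow_add]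
    push_cast
    ring
  rw [h1]
  constructor
  · intro h
    have h3 : (3 : ℤ) ∣ 2 ^ a * x - 1 := by
      have h4 : (3 : ℤ) ∣ 2 ^ e.sum * (2 ^ a * x - 1) - 3 * (AA.cc e : ℤ) :=
        (dvd_pow_self 3 (Nat.succ_ne_zero n)).trans h
      have h5 : (3 : ℤ) ∣ 2 ^ e.sum * (2 ^ a * x - 1) := by
        have := dvd_add h4 (dvd_mul_right 3 (AA.cc e : ℤ))
        simpa using this
      have hc : IsCoprime (3 : ℤ) (2 ^ e.sum) := IsCoprime.pow_right (by norm_num)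
      exact hc.dvd_of_dvd_mul_left h5
    refine ⟨h3, ?_⟩
    have h6 : 3 * stp a x = 2 ^ a * x - 1 := Int.mul_ediv_cancel' h3
    rw [← h6] at h
    have h7 : (2 : ℤ) ^ e.sum * (3 * stp a x) - 3 * (AA.cc e : ℤ) =
        3 * (2 ^ e.sum * stp a x - (AA.cc e : ℤ)) := by ring
    rw [h7, pow_succ, mul_comm ((3 : ℤ) ^ n) 3] at h
    exact (mul_dvd_mul_iff_left (by norm_num : (3 : ℤ) ≠ 0)).1 h
  · rintro ⟨h3, h⟩
    have h6 : 3 * stp a x = 2 ^ a * x - 1 := Int.mul_ediv_cancel' h3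
    rw [← h6]
    have h7 : (2 : ℤ) ^ e.sum * (3 * stp a x) - 3 * (AA.cc e : ℤ) =
        3 * (2 ^ e.sum * stp a x - (AA.cc e : ℤ)) := by ring
    rw [h7, pow_succ, mul_comm ((3 : ℤ) ^ n) 3]
    exact mul_dvd_mul_left 3 h

end Pool.Agent.Lib.MP_d0d59f_nt.GE

/-! Row ge_T2: the recursion inequality. -/

namespace Pool.Agent.Lib.MP_d0d59f_nt.GE

open Finset

/-- The part of `pz (n+1) (n+1) l x` with first letter `a`. -/
theorem t2_part (n : ℕ) (x : ℤ) {a l : ℕ} (ha : (3 : ℤ) ∣ 2 ^ a * x - 1) (hl : a ≤ l) :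
    (1 / 2 : ℝ) ^ a * AA.pz 1 0 n n (l - a) (stp a x : ZMod (3 ^ n)) =
      (1 / 2 : ℝ) ^ l * ∑ e ∈ AA.comps n (l - a),
        if AA.hz 1 0 (n + 1) (a :: e) = (x : ZMod (3 ^ (n + 1))) then (1 : ℝ) else 0 := by
  have h1 : ∀ e ∈ AA.comps n (l - a),
      (if AA.hz 1 0 (n + 1) (a :: e) = (x : ZMod (3 ^ (n + 1))) then (1 : ℝ) else 0) =
        if AA.hz 1 0 n e = (stp a x : ZMod (3 ^ n)) then (1 : ℝ) else 0 := by
    intro e _
    have h2 : AA.hz 1 0 (n + 1) (a :: e) = (x : ZMod (3 ^ (n + 1))) ↔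
        AA.hz 1 0 n e = (stp a x : ZMod (3 ^ n)) := by
      rw [hz_iff, node_iff, hz_iff]
      exact ⟨fun h => h.2, fun h => ⟨ha, h⟩⟩
    rw [if_congr h2 rfl rfl]
  rw [sum_congr rfl h1, ← sum_filter, sum_const, nsmul_eq_mul, mul_one]
  unfold AA.pz
  rw [← mul_assoc, ← pow_add, Nat.add_sub_cancel' hl]

/-- the terms of the sum over `l` -/
noncomputable def t2_F (n : ℕ) (x : ℤ) (a l : ℕ) : ℝ :=
  if a ≤ l then (1 / 2 : ℝ) ^ a * AA.pz 1 0 n n (l - a) (stp a x : ZMod (3 ^ n)) else 0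

theorem t2_shift (n : ℕ) (x : ℤ) (a : ℕ) :
    (fun l => t2_F n x a (l + a)) =
      fun l => (1 / 2 : ℝ) ^ a * AA.pz 1 0 n n l (stp a x : ZMod (3 ^ n)) := by
  funext l
  unfold t2_F
  rw [if_pos (Nat.le_add_left _ _), Nat.add_sub_cancel]

theorem t2_summable (n : ℕ) (x : ℤ) (a : ℕ) : Summable (t2_F n x a) := by
  rw [← summable_nat_add_iff a, t2_shift]
  exact (summable_pz n n _).mul_left _

theorem t2_tsum (n : ℕ) (x : ℤ) (a : ℕ) :
    ∑' l, t2_F n x a l = (1 / 2 : ℝ) ^ a * tot n n (stp a x : ZMod (3 ^ n)) := by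
  rw [← (t2_summable n x a).sum_add_tsum_nat_add a, t2_shift, tsum_mul_left]
  have h0 : ∑ i ∈ range a, t2_F n x a i = 0 := by
    refine sum_eq_zero fun i hi => ?_
    rw [mem_range] at hi
    unfold t2_F
    rw [if_neg (by omega)]
  rw [h0, zero_add]
  rfl

theorem t2_le (n : ℕ) (x : ℤ) (A : Finset ℕ)
    (hA : ∀ a ∈ A, 1 ≤ a ∧ (3 : ℤ) ∣ 2 ^ a * x - 1) (l : ℕ) :
    ∑ a ∈ A, t2_F n x a l ≤ AA.pz 1 0 (n + 1) (n + 1) l (x : ZMod (3 ^ (n + 1))) := by
  have h1 : AA.pz 1 0 (n + 1) (n + 1) l (x : ZMod (3 ^ (n + 1))) =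
      ∑ a ∈ Icc 1 l, (1 / 2 : ℝ) ^ l * ∑ e ∈ AA.comps n (l - a),
        if AA.hz 1 0 (n + 1) (a :: e) = (x : ZMod (3 ^ (n + 1))) then (1 : ℝ) else 0 := by
    unfold AA.pz
    rw [← mul_sum, ← AA.sum_comps_succ n l
      (fun e => if AA.hz 1 0 (n + 1) e = (x : ZMod (3 ^ (n + 1))) then (1 : ℝ) else 0),
      ← sum_filter, sum_const, nsmul_eq_mul, mul_one]
  rw [h1]
  have h2 : ∑ a ∈ A, t2_F n x a l = ∑ a ∈ A.filter (fun a => a ≤ l), (1 / 2 : ℝ) ^ l *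
      ∑ e ∈ AA.comps n (l - a),
        if AA.hz 1 0 (n + 1) (a :: e) = (x : ZMod (3 ^ (n + 1))) then (1 : ℝ) else 0 := by
    rw [sum_filter]
    refine sum_congr rfl fun a ha => ?_
    unfold t2_F
    split_ifs with h
    · exact t2_part n x (hA a ha).2 h
    · rfl
  rw [h2]
  refine sum_le_sum_of_subset_of_nonneg ?_ ?_
  · intro a ha
    rw [mem_filter] at ha
    exact mem_Icc.2 ⟨(hA a ha.1).1, ha.2⟩
  · intro a _ _
    refine mul_nonneg (by positivity) (sum_nonneg fun e _ => ?_)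
    split_ifs <;> norm_num

/-- `WW (n+1) x ≥ ∑_{a ∈ A} (3/2^a) WW n (stp a x)` for every finite set `A` of letters applicable at `x`.
For each `l`: `pz (n+1) (n+1) l x ≥ ∑_{a ∈ A, a ≤ l} 2^{-a} pz n n (l - a) (stp a x)`: the words `a :: e`,
`a ∈ A`, `e ∈ comps n (l-a)`, are distinct elements of `comps (n+1) l` (`AA.sum_comps_succ`, `hz_iff`, `node_iff`). Sum over `l`
(for fixed `a`, `l ↦ l - a`, `l ≥ a`, `Summable`). -/
theorem WW_rec (n : ℕ) (x : ℤ) (A : Finset ℕ)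
    (hA : ∀ a ∈ A, 1 ≤ a ∧ (3 : ℤ) ∣ 2 ^ a * x - 1) :
    ∑ a ∈ A, 3 / 2 ^ a * WW n (stp a x) ≤ WW (n + 1) x := by
  have h1 : ∑ a ∈ A, 3 / 2 ^ a * WW n (stp a x) = 3 ^ (n + 1) * ∑' l, ∑ a ∈ A, t2_F n x a l := by
    rw [Summable.tsum_finsetSum fun a _ => t2_summable n x a, mul_sum]
    refine sum_congr rfl fun a _ => ?_
    rw [t2_tsum]
    unfold WW
    rw [one_div, inv_pow, pow_succ]
    ring
  rw [h1]
  unfold WW tot
  refine mul_le_mul_of_nonneg_left ?_ (by positivity)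
  exact Summable.tsum_le_tsum (t2_le n x A hA) (summable_sum fun a _ => t2_summable n x a)
    (summable_pz (n + 1) (n + 1) _)

end Pool.Agent.Lib.MP_d0d59f_nt.GE

/-! Row ge_T5b: the full cycle `z ↦ 4 z + 1`. -/

namespace Pool.Agent.Lib.MP_d0d59f_nt.GE

open Finset Filter Topology

theorem t5b_iter (j : ℕ) (u : ℤ) :
    3 * (fun z : ℤ => 4 * z + 1)^[j] u = 4 ^ j * (3 * u + 1) - 1 := by
  induction j with
  | zero => simp
  | succ n ih =>
    rw [Function.iterate_succ_apply']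
    have : 3 * (4 * (fun z : ℤ => 4 * z + 1)^[n] u + 1) =
        4 * (3 * (fun z : ℤ => 4 * z + 1)^[n] u) + 3 := by ring
    show 3 * (4 * (fun z : ℤ => 4 * z + 1)^[n] u + 1) = _
    rw [this, ih]
    ring

theorem t5b_lte (k m : ℕ) (h : (3 : ℤ) ^ (k + 1) ∣ 4 ^ m - 1) : 3 ^ k ∣ m := by
  rcases Nat.eq_zero_or_pos m with rfl | hm
  · exact dvd_zero _
  have h1 : emultiplicity (3 : ℤ) ((4 : ℤ) ^ m - 1 ^ m) =
      emultiplicity (3 : ℤ) ((4 : ℤ) - 1) + emultiplicity 3 m := by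
    have := Int.emultiplicity_pow_sub_pow (p := 3) (by norm_num) (by decide)
      (x := (4 : ℤ)) (y := 1) (by norm_num) (by norm_num) m
    exact_mod_cast this
  have h2 : emultiplicity (3 : ℤ) ((4 : ℤ) - 1) = 1 := by
    have h : (4 : ℤ) - 1 = 3 ^ 1 := by norm_num
    have hu : ¬ IsUnit (3 : ℤ) := by decide
    rw [h, emultiplicity_pow_self (by norm_num) hu]
    rfl
  rw [one_pow, h2] at h1
  have h3 : ((k + 1 : ℕ) : ℕ∞) ≤ emultiplicity (3 : ℤ) ((4 : ℤ) ^ m - 1) :=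
    le_emultiplicity_of_pow_dvd h
  rw [h1] at h3
  apply pow_dvd_of_le_emultiplicity
  have h4 : (1 : ℕ∞) + (k : ℕ∞) ≤ 1 + emultiplicity 3 m := by
    calc (1 : ℕ∞) + (k : ℕ∞) = ((k + 1 : ℕ) : ℕ∞) := by push_cast; ring
      _ ≤ _ := h3
  exact (ENat.add_le_add_iff_left (by simp)).1 h4

theorem t5b_aux (k : ℕ) (u : ℤ) (i j : ℕ) (hij : i ≤ j) (hj : j < 3 ^ k)
    (h : (fun z : ℤ => 4 * z + 1)^[i] u ≡ (fun z : ℤ => 4 * z + 1)^[j] u [ZMOD 3 ^ k]) : i = j := by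
  have hd : (3 : ℤ) ^ k ∣ (fun z : ℤ => 4 * z + 1)^[j] u - (fun z : ℤ => 4 * z + 1)^[i] u :=
    h.dvd
  have hd3 : (3 : ℤ) ^ (k + 1) ∣ 4 ^ i * ((4 ^ (j - i) - 1) * (3 * u + 1)) := by
    have h1 : (3 : ℤ) ^ (k + 1) ∣
        3 * ((fun z : ℤ => 4 * z + 1)^[j] u - (fun z : ℤ => 4 * z + 1)^[i] u) := by
      rw [pow_succ, mul_comm]
      exact mul_dvd_mul_left 3 hd
    have h2 : 3 * ((fun z : ℤ => 4 * z + 1)^[j] u - (fun z : ℤ => 4 * z + 1)^[i] u) =
        4 ^ i * ((4 ^ (j - i) - 1) * (3 * u + 1)) := by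
      rw [mul_sub, t5b_iter, t5b_iter]
      have : (4 : ℤ) ^ j = 4 ^ i * 4 ^ (j - i) := by rw [← pow_add]; congr 1; omega
      rw [this]; ring
    rwa [h2] at h1
  have hc1 : IsCoprime ((3 : ℤ) ^ (k + 1)) (4 ^ i) :=
    IsCoprime.pow (by exact ⟨-1, 1, by norm_num⟩)
  have hc2 : IsCoprime ((3 : ℤ) ^ (k + 1)) (3 * u + 1) :=
    IsCoprime.pow_left ⟨-u, 1, by ring⟩
  have h3 : (3 : ℤ) ^ (k + 1) ∣ 4 ^ (j - i) - 1 :=
    hc2.dvd_of_dvd_mul_right (hc1.dvd_of_dvd_mul_left hd3)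
  have h4 := t5b_lte k (j - i) h3
  have h5 : j - i = 0 := Nat.eq_zero_of_dvd_of_lt h4 (by omega)
  omega

/-- `T z = 4 z + 1` is a full cycle modulo `3^k`: for every `u` the map `j ↦ T^j u mod 3^k`, `j < 3^k`, is a
bijection onto the residues. `T^j u = 4^j u + (4^j - 1)/3`; if `T^i u ≡ T^j u mod 3^k` (`i < j < 3^k`) then
`(4^{j-i} - 1)(3u + 1) ≡ 0 mod 3^{k+1}`, so `3^{k+1} ∣ 4^{j-i} - 1`, so `3^k ∣ j - i` (lifting the exponent:
`v_3(4^m - 1) = 1 + v_3(m)`). -/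
theorem run_inj (k : ℕ) (u : ℤ) : ∀ i < 3 ^ k, ∀ j < 3 ^ k,
    (fun z : ℤ => 4 * z + 1)^[i] u ≡ (fun z : ℤ => 4 * z + 1)^[j] u [ZMOD 3 ^ k] → i = j := by
  intro i hi j hj h
  rcases le_total i j with hij | hij
  · exact t5b_aux k u i j hij hj h
  · exact (t5b_aux k u j i hij hi h.symm).symm

/-- `stp (a + 2 j) x = T^j (stp a x)` for an applicable letter `a`. -/
theorem stp_run {x : ℤ} {a : ℕ} (h : (3 : ℤ) ∣ 2 ^ a * x - 1) (j : ℕ) :
    (3 : ℤ) ∣ 2 ^ (a + 2 * j) * x - 1 ∧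
      stp (a + 2 * j) x = (fun z : ℤ => 4 * z + 1)^[j] (stp a x) := by
  obtain ⟨c, hc⟩ := h
  have hs : stp a x = c := by
    unfold stp; rw [hc]; exact Int.mul_ediv_cancel_left _ (by norm_num)
  have h2 : (2 : ℤ) ^ (a + 2 * j) = 4 ^ j * 2 ^ a := by
    rw [pow_add, pow_mul]; norm_num; ring
  have h3 : (2 : ℤ) ^ (a + 2 * j) * x - 1 = 3 * (fun z : ℤ => 4 * z + 1)^[j] c := by
    rw [t5b_iter, h2]
    have : (2 : ℤ) ^ a * x = 3 * c + 1 := by linarith
    rw [mul_assoc, this]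
  refine ⟨⟨_, h3⟩, ?_⟩
  rw [hs]
  unfold stp
  rw [h3]
  exact Int.mul_ediv_cancel_left _ (by norm_num)

end Pool.Agent.Lib.MP_d0d59f_nt.GE

/-! Row ge_T6a: runs of the cycle `T`. -/

namespace Pool.Agent.Lib.MP_d0d59f_nt.GE

open Finset Filter Topology

/-- If `WW (n+1) x ≤ (3/4) 4^{-3^k} / 8` (`x` in the class `c ∈ {1,2}`), then with `a = 2` (`c = 1`) or `a = 1` (`c = 2`) and
`u = stp a x`: `WW n (T^j u) ≤ 1/8` for all `j < 3^k`: `WW_rec` with `A = {a + 2j}` and `stp_run`: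
`(3/4) 4^{-j} WW n (T^j u) ≤ WW (n+1) x`. -/
theorem low_run {n k : ℕ} {x : ℤ} {a : ℕ} (ha : 1 ≤ a ∧ a ≤ 2) (h : (3 : ℤ) ∣ 2 ^ a * x - 1)
    (hx : WW (n + 1) x ≤ 3 / 4 / 4 ^ (3 ^ k) / 8) : ∀ j < 3 ^ k,
    WW n ((fun z : ℤ => 4 * z + 1)^[j] (stp a x)) ≤ 1 / 8 := by
  intro j hj
  obtain ⟨h1, h2⟩ := stp_run h j
  have h3 := WW_rec n x {a + 2 * j} (by
    intro b hb
    rw [Finset.mem_singleton] at hb
    subst hb
    exact ⟨by omega, h1⟩)
  rw [Finset.sum_singleton, h2] at h3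
  set W := WW n ((fun z : ℤ => 4 * z + 1)^[j] (stp a x)) with hW
  have hW0 : 0 ≤ W := WW_nonneg _ _
  have h4 : (2 : ℝ) ^ (a + 2 * j) ≤ 4 * 4 ^ j := by
    rw [pow_add, pow_mul]
    have h5 : (2 : ℝ) ^ a ≤ 4 := by
      calc (2 : ℝ) ^ a ≤ 2 ^ 2 := pow_le_pow_right₀ (by norm_num) ha.2
        _ = 4 := by norm_num
    have h6 : ((2 : ℝ) ^ 2) = 4 := by norm_num
    rw [h6]
    exact mul_le_mul_of_nonneg_right h5 (by positivity)
  have h7 : 3 / (4 * 4 ^ j) * W ≤ 3 / 4 / 4 ^ (3 ^ k) / 8 := by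
    refine le_trans (mul_le_mul_of_nonneg_right ?_ hW0) (h3.trans hx)
    exact div_le_div_of_nonneg_left (by norm_num) (by positivity) h4
  have h8 : (4 : ℝ) ^ j ≤ 4 ^ (3 ^ k) := pow_le_pow_right₀ (by norm_num) hj.le
  have hp : (0 : ℝ) < 4 ^ j := by positivity
  have hq : (0 : ℝ) < 4 ^ (3 ^ k) := by positivity
  have h9 : W = (4 * 4 ^ j / 3) * (3 / (4 * 4 ^ j) * W) := by
    field_simp
  rw [h9]
  calc (4 * 4 ^ j / 3 : ℝ) * (3 / (4 * 4 ^ j) * W)
      ≤ (4 * 4 ^ j / 3 : ℝ) * (3 / 4 / 4 ^ (3 ^ k) / 8) :=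
        mul_le_mul_of_nonneg_left h7 (by positivity)
    _ = 4 ^ j / 4 ^ (3 ^ k) * (1 / 8) := by
        field_simp
    _ ≤ 1 * (1 / 8) := by
        refine mul_le_mul_of_nonneg_right ?_ (by norm_num)
        rw [div_le_one hq]
        exact h8
    _ = 1 / 8 := by norm_num

theorem t6a_sum (N : ℕ) [NeZero N] (φ : ZMod N → ℝ) :
    ∑ i ∈ range N, φ (i : ZMod N) = ∑ z, φ z := by
  refine Finset.sum_nbij' (fun i : ℕ => (i : ZMod N)) (fun z => z.val) ?_ ?_ ?_ ?_ ?_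
  · intro i _
    exact Finset.mem_univ _
  · intro z _
    exact Finset.mem_range.mpr (ZMod.val_lt z)
  · intro i hi
    exact ZMod.val_cast_of_lt (Finset.mem_range.mp hi)
  · intro z _
    exact ZMod.natCast_zmod_val z
  · intro i _
    rfl

/-- `∑_{i < 3^n} ∑_{j < 3^k} |WW n - WW k| (T^j u_i) = 3^k ∑_{z < 3^n} |WW n - WW k|(z)` when `i ↦ u_i mod 3^n` is a
bijection of `range (3^n)` with the residues: `T` is a bijection modulo `3^n`, `k ≤ n`. Here `u_i = 1 + 2^a i`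
(`a = 1, 2`), which is `stp a (c + 3 i)` for `c = 1, a = 2` and `c = 2, a = 1`. -/
theorem sum_run (n k : ℕ) (hk : k ≤ n) (a : ℕ) :
    ∑ i ∈ range (3 ^ n), ∑ j ∈ range (3 ^ k),
      |WW n ((fun z : ℤ => 4 * z + 1)^[j] (1 + 2 ^ a * (i : ℤ))) -
        WW k ((fun z : ℤ => 4 * z + 1)^[j] (1 + 2 ^ a * (i : ℤ)))| =
      3 ^ k * ∑ z ∈ range (3 ^ n), |WW n (z : ℤ) - WW k (z : ℤ)| := by
  have : NeZero (3 ^ n) := ⟨by positivity⟩
  set F : ZMod (3 ^ n) → ℝ := fun z => |WW n ((z.val : ℕ) : ℤ) - WW k ((z.val : ℕ) : ℤ)| with hF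
  have hval : ∀ x : ℤ, |WW n x - WW k x| = F (x : ZMod (3 ^ n)) := by
    intro x
    have h1 : x ≡ (((x : ZMod (3 ^ n)).val : ℕ) : ℤ) [ZMOD 3 ^ n] := by
      have h2 : ((x : ℤ) : ZMod (3 ^ n)) =
          (((((x : ZMod (3 ^ n)).val : ℕ) : ℤ)) : ZMod (3 ^ n)) := by
        rw [Int.cast_natCast, ZMod.natCast_zmod_val]
      have h3 := (ZMod.intCast_eq_intCast_iff _ _ _).mp h2
      exact_mod_cast h3
    rw [hF]
    simp only []
    rw [← WW_congr h1, ← WW_congr (h1.of_dvd (pow_dvd_pow 3 hk))]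
  have hun : ∀ m : ℕ, Nat.Coprime m 3 → IsUnit (m : ZMod (3 ^ n)) := by
    intro m hm
    exact (ZMod.isUnit_iff_coprime m (3 ^ n)).mpr (Nat.Coprime.pow_right n hm)
  have hT : Function.Bijective (fun z : ZMod (3 ^ n) => 4 * z + 1) := by
    rw [← Finite.injective_iff_bijective]
    intro z w hzw
    have h4 : IsUnit (4 : ZMod (3 ^ n)) := by
      exact_mod_cast hun 4 (by norm_num)
    exact h4.mul_left_cancel (add_right_cancel hzw)
  have hU : Function.Bijective (fun z : ZMod (3 ^ n) => 1 + 2 ^ a * z) := by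
    rw [← Finite.injective_iff_bijective]
    intro z w hzw
    have h2 : IsUnit (2 : ZMod (3 ^ n)) := by
      exact_mod_cast hun 2 (by norm_num)
    exact (h2.pow a).mul_left_cancel (add_left_cancel hzw)
  have hit : ∀ (j : ℕ) (u : ℤ), (((fun z : ℤ => 4 * z + 1)^[j] u : ℤ) : ZMod (3 ^ n)) =
      (fun z : ZMod (3 ^ n) => 4 * z + 1)^[j] (u : ZMod (3 ^ n)) := by
    intro j
    induction j with
    | zero =>
      intro u
      rfl
    | succ j ih =>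
      intro u
      rw [Function.iterate_succ_apply', Function.iterate_succ_apply', ← ih u]
      push_cast
      rfl
  rw [Finset.sum_comm]
  have hj : ∀ j ∈ range (3 ^ k), ∑ i ∈ range (3 ^ n),
      |WW n ((fun z : ℤ => 4 * z + 1)^[j] (1 + 2 ^ a * (i : ℤ))) -
        WW k ((fun z : ℤ => 4 * z + 1)^[j] (1 + 2 ^ a * (i : ℤ)))| =
      ∑ z ∈ range (3 ^ n), |WW n (z : ℤ) - WW k (z : ℤ)| := by
    intro j _
    have e1 : ∀ i ∈ range (3 ^ n),
        |WW n ((fun z : ℤ => 4 * z + 1)^[j] (1 + 2 ^ a * (i : ℤ))) -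
          WW k ((fun z : ℤ => 4 * z + 1)^[j] (1 + 2 ^ a * (i : ℤ)))| =
        (fun z => F ((fun z : ZMod (3 ^ n) => 4 * z + 1)^[j] (1 + 2 ^ a * z)))
          ((i : ℕ) : ZMod (3 ^ n)) := by
      intro i _
      rw [hval, hit]
      push_cast
      rfl
    have e2 : ∀ i ∈ range (3 ^ n), |WW n (i : ℤ) - WW k (i : ℤ)| = F ((i : ℕ) : ZMod (3 ^ n)) := by
      intro i _
      rw [hval]
      push_cast
      rfl
    rw [Finset.sum_congr rfl e1, Finset.sum_congr rfl e2]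
    have s1 := t6a_sum (3 ^ n)
      (fun z => F ((fun z : ZMod (3 ^ n) => 4 * z + 1)^[j] (1 + 2 ^ a * z)))
    have s2 := t6a_sum (3 ^ n) F
    have s3 := Function.Bijective.sum_comp ((hT.iterate j).comp hU) F
    exact s1.trans (s3.trans s2.symm)
  rw [Finset.sum_congr rfl hj, Finset.sum_const, Finset.card_range, nsmul_eq_mul]
  push_cast
  rfl

end Pool.Agent.Lib.MP_d0d59f_nt.GE

/-! Row ge_T7a: words with bounded letters. -/

namespace Pool.Agent.Lib.MP_d0d59f_nt.GE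

open Finset

/-- Weight of the words of length `n` with letters `≤ M` and integer nodes. -/
noncomputable def WM (n M : ℕ) (x : ℤ) : ℝ :=
  ∑ α ∈ wds M n, if (3 : ℤ) ^ n ∣ 2 ^ α.sum * x - (AA.cc α : ℤ) then wt α else 0

open Classical in
/-- Weight of the words of length `n` with letters `≤ M` which are valid (the end point is a unit). -/
noncomputable def VM (n M : ℕ) (x : ℤ) : ℝ := ∑ α ∈ wds M n, if valid α x then wt α else 0

/-- Weight of the words with letters `≤ M`, integer nodes and sum `≤ t`. -/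
noncomputable def LM (n M t : ℕ) (x : ℤ) : ℝ :=
  ∑ α ∈ (wds M n).filter (fun α => α.sum ≤ t),
    if (3 : ℤ) ^ n ∣ 2 ^ α.sum * x - (AA.cc α : ℤ) then wt α else 0

private theorem t7a_wt_nonneg (α : List ℕ) : 0 ≤ wt α := by
  unfold wt
  positivity

private theorem t7a_wt {n : ℕ} {α : List ℕ} (h : α.length = n) :
    wt α = 3 ^ n * (1 / 2 : ℝ) ^ α.sum := by
  unfold wt
  rw [h, one_div, inv_pow, div_eq_mul_inv]

private theorem t7a_mem {M n : ℕ} {α : List ℕ} (h : α ∈ wds M n) :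
    α ∈ AA.comps n α.sum := by
  obtain ⟨h1, h2⟩ := mem_wds.1 h
  exact AA.mem_comps.2 ⟨h1, rfl, fun a ha => (h2 a ha).1⟩

private theorem t7a_sum_le {M n : ℕ} {α : List ℕ} (h : α ∈ wds M n) : α.sum ≤ n * M := by
  obtain ⟨h1, h2⟩ := mem_wds.1 h
  have h3 := List.sum_le_card_nsmul α M fun a ha => (h2 a ha).2
  rw [h1, smul_eq_mul] at h3
  exact h3

/-- The words of `wds M n` of sum `l` are in `comps n l`; `WM n M x = ∑_{l ≤ nM} 3^n 2^{-l} #{...} ≤ 3^n ∑' l pz`. -/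
theorem WM_le (n M : ℕ) (x : ℤ) : WM n M x ≤ WW n x := by
  unfold WM WW tot
  have h1 : ∀ α ∈ wds M n, α.sum ∈ range (n * M + 1) := fun α hα => by
    rw [mem_range]
    exact Nat.lt_succ_of_le (t7a_sum_le hα)
  rw [← Finset.sum_fiberwise_of_maps_to h1]
  have h2 : ∀ l ∈ range (n * M + 1), (∑ α ∈ wds M n with α.sum = l,
      if (3 : ℤ) ^ n ∣ 2 ^ α.sum * x - (AA.cc α : ℤ) then wt α else 0) ≤
      3 ^ n * AA.pz 1 0 n n l (x : ZMod (3 ^ n)) := by
    intro l _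
    rw [← Finset.sum_filter]
    have h3 : ∀ α ∈ ((wds M n).filter fun α => α.sum = l).filter
        (fun α => (3 : ℤ) ^ n ∣ 2 ^ α.sum * x - (AA.cc α : ℤ)), wt α = 3 ^ n * (1 / 2 : ℝ) ^ l := by
      intro α hα
      rw [mem_filter, mem_filter] at hα
      rw [t7a_wt (mem_wds.1 hα.1.1).1, hα.1.2]
    rw [Finset.sum_congr rfl h3, Finset.sum_const, nsmul_eq_mul, AA.pz, mul_comm, mul_assoc]
    refine mul_le_mul_of_nonneg_left (mul_le_mul_of_nonneg_left ?_ (by positivity)) (by positivity)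
    rw [Nat.cast_le]
    refine Finset.card_le_card fun α hα => ?_
    rw [mem_filter, mem_filter] at hα
    rw [mem_filter]
    refine ⟨?_, (hz_iff n α x).2 hα.2⟩
    have h4 := t7a_mem hα.1.1
    rwa [hα.1.2] at h4
  refine (Finset.sum_le_sum h2).trans ?_
  rw [← Finset.mul_sum]
  refine mul_le_mul_of_nonneg_left ?_ (by positivity)
  refine (summable_pz n n (x : ZMod (3 ^ n))).sum_le_tsum _ fun l _ => ?_
  unfold AA.pz
  positivity

private theorem t7a_one (n : ℕ) (α : List ℕ) (w : ℝ) :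
    ∑ x ∈ range (3 ^ n), (if (3 : ℤ) ^ n ∣ 2 ^ α.sum * (x : ℤ) - (AA.cc α : ℤ) then w else 0) = w := by
  have h3 : NeZero (3 ^ n) := ⟨by positivity⟩
  have h1 : ∀ x ∈ range (3 ^ n),
      (if (3 : ℤ) ^ n ∣ 2 ^ α.sum * (x : ℤ) - (AA.cc α : ℤ) then w else 0) =
        if (AA.hz 1 0 n α).val = x then w else 0 := by
    intro x hx
    rw [mem_range] at hx
    refine if_congr ?_ rfl rfl
    rw [← hz_iff n α (x : ℤ), Int.cast_natCast]
    constructor
    · intro h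
      rw [h, ZMod.val_natCast_of_lt hx]
    · intro h
      rw [← h, ZMod.natCast_zmod_val]
  rw [Finset.sum_congr rfl h1, Finset.sum_ite_eq, if_pos]
  rw [mem_range]
  exact ZMod.val_lt _

private theorem t7a_inj : Function.Injective fun q : ℕ × List ℕ => q.1 :: q.2 := by
  rintro ⟨a, α⟩ ⟨b, β⟩ h
  have h1 : a :: α = b :: β := h
  rw [List.cons.injEq] at h1
  rw [h1.1, h1.2]

private theorem t7a_geom (M : ℕ) : ∑ a ∈ Icc 1 M, (1 / 2 : ℝ) ^ a = 1 - (1 / 2) ^ M := by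
  induction M with
  | zero => simp
  | succ M ih =>
    rw [Finset.sum_Icc_succ_top (by omega), ih, pow_succ]
    ring

private theorem t7a_total (n M : ℕ) :
    ∑ α ∈ wds M n, wt α = 3 ^ n * (1 - (1 / 2 : ℝ) ^ M) ^ n := by
  induction n with
  | zero => simp [wds, wt]
  | succ n ih =>
    rw [wds, Finset.sum_image (t7a_inj.injOn), Finset.sum_product]
    have h1 : ∀ a ∈ Icc 1 M, ∑ α ∈ wds M n, wt (a :: α) =
        3 * (1 / 2 : ℝ) ^ a * ∑ α ∈ wds M n, wt α := by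
      intro a _
      rw [Finset.mul_sum]
      refine Finset.sum_congr rfl fun α _ => ?_
      rw [t7a_wt rfl, t7a_wt rfl, List.length_cons, List.sum_cons, pow_add, pow_succ]
      ring
    rw [Finset.sum_congr rfl h1, ← Finset.sum_mul, ← Finset.mul_sum, t7a_geom, ih, pow_succ,
      pow_succ]
    ring

/-- `∑_{x < 3^n} WM n M x = 3^n ∑_{α ∈ wds M n} 2^{-|α|} = 3^n (1 - 2^{-M})^n ≥ 3^n (1 - n 2^{-M})` (exactly one `x`
modulo `3^n` satisfies the condition of a given word). -/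
theorem sum_WM (n M : ℕ) : (3 : ℝ) ^ n * (1 - n / 2 ^ M) ≤ ∑ x ∈ range (3 ^ n), WM n M (x : ℤ) := by
  unfold WM
  rw [Finset.sum_comm, Finset.sum_congr rfl fun α _ => t7a_one n α (wt α), t7a_total]
  refine mul_le_mul_of_nonneg_left ?_ (by positivity)
  have h0 : (1 / 2 : ℝ) ^ M ≤ 1 := pow_le_one₀ (by norm_num) (by norm_num)
  have h1 := one_add_mul_le_pow (a := -(1 / 2 : ℝ) ^ M) (by linarith) n
  have h2 : (1 : ℝ) - n / 2 ^ M = 1 + n * -(1 / 2 : ℝ) ^ M := by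
    rw [one_div, inv_pow]
    ring
  rw [h2, sub_eq_add_neg]
  exact h1

/-- `∑_{x < 3^n} LM n M t x ≤ 3^n ∑_{s ≤ t} nb n s`. -/
theorem sum_LM (n M t : ℕ) :
    ∑ x ∈ range (3 ^ n), LM n M t (x : ℤ) ≤ 3 ^ n * ∑ s ∈ range (t + 1), AA.nb n s := by
  unfold LM
  rw [Finset.sum_comm, Finset.sum_congr rfl fun α _ => t7a_one n α (wt α)]
  have h1 : ∀ α ∈ (wds M n).filter (fun α => α.sum ≤ t), α.sum ∈ range (t + 1) := fun α hα => by
    rw [mem_range]
    exact Nat.lt_succ_of_le (mem_filter.1 hα).2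
  rw [← Finset.sum_fiberwise_of_maps_to h1, Finset.mul_sum]
  refine Finset.sum_le_sum fun l _ => ?_
  have h3 : ∀ α ∈ ((wds M n).filter fun α => α.sum ≤ t).filter (fun α => α.sum = l),
      wt α = 3 ^ n * (1 / 2 : ℝ) ^ l := by
    intro α hα
    rw [mem_filter, mem_filter] at hα
    rw [t7a_wt (mem_wds.1 hα.1.1).1, hα.2]
  rw [Finset.sum_congr rfl h3, Finset.sum_const, nsmul_eq_mul, AA.nb, mul_comm, mul_assoc]
  refine mul_le_mul_of_nonneg_left (mul_le_mul_of_nonneg_left ?_ (by positivity)) (by positivity)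
  rw [Nat.cast_le]
  refine Finset.card_le_card fun α hα => ?_
  rw [mem_filter, mem_filter] at hα
  have h4 := t7a_mem hα.1.1
  rwa [hα.2] at h4

theorem WM_nonneg (n M : ℕ) (x : ℤ) : 0 ≤ WM n M x := by
  refine Finset.sum_nonneg fun α _ => ?_
  split_ifs
  · exact t7a_wt_nonneg α
  · exact le_rfl

theorem LM_nonneg (n M t : ℕ) (x : ℤ) : 0 ≤ LM n M t x := by
  refine Finset.sum_nonneg fun α _ => ?_
  split_ifs
  · exact t7a_wt_nonneg α
  · exact le_rfl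

private theorem t7a_dvd {n : ℕ} {x y : ℤ} (h : x ≡ y [ZMOD 3 ^ n]) (a c : ℤ) :
    (3 : ℤ) ^ n ∣ a * x - c ↔ (3 : ℤ) ^ n ∣ a * y - c := by
  have h1 : a * x - c ≡ a * y - c [ZMOD 3 ^ n] := (h.mul_left a).sub_right c
  rw [← Int.modEq_zero_iff_dvd, ← Int.modEq_zero_iff_dvd]
  exact ⟨fun h2 => h1.symm.trans h2, fun h2 => h1.trans h2⟩

theorem LM_congr {n M t : ℕ} {x y : ℤ} (h : x ≡ y [ZMOD 3 ^ n]) : LM n M t x = LM n M t y := by
  refine Finset.sum_congr rfl fun α _ => ?_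
  exact if_congr (t7a_dvd h _ _) rfl rfl

theorem WM_congr {n M : ℕ} {x y : ℤ} (h : x ≡ y [ZMOD 3 ^ n]) : WM n M x = WM n M y := by
  refine Finset.sum_congr rfl fun α _ => ?_
  exact if_congr (t7a_dvd h _ _) rfl rfl

end Pool.Agent.Lib.MP_d0d59f_nt.GE

/-! Row ge_T7b: `WM (n+1) ≤ 2 VM n`. -/

namespace Pool.Agent.Lib.MP_d0d59f_nt.GE

open Finset

theorem t7b_wt_cons (a : ℕ) (α : List ℕ) : wt (a :: α) = 3 / 2 ^ a * wt α := by
  unfold wt
  rw [List.length_cons, List.sum_cons, pow_succ, pow_add]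
  field_simp

theorem t7b_sum_wds (M n : ℕ) (f : List ℕ → ℝ) :
    ∑ α ∈ wds M (n + 1), f α = ∑ a ∈ Icc 1 M, ∑ α ∈ wds M n, f (a :: α) := by
  rw [wds, Finset.sum_image, Finset.sum_product]
  intro q _ q' _ h
  rw [List.cons.injEq] at h
  exact Prod.ext h.1 h.2

theorem t7b_WM_succ (n M : ℕ) (x : ℤ) : WM (n + 1) M x =
    ∑ a ∈ Icc 1 M, if (3 : ℤ) ∣ 2 ^ a * x - 1 then 3 / 2 ^ a * WM n M (stp a x) else 0 := by
  unfold WM
  rw [t7b_sum_wds]
  refine Finset.sum_congr rfl fun a _ => ?_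
  by_cases h : (3 : ℤ) ∣ 2 ^ a * x - 1
  · rw [if_pos h, Finset.mul_sum]
    refine Finset.sum_congr rfl fun α _ => ?_
    by_cases h2 : (3 : ℤ) ^ n ∣ 2 ^ α.sum * stp a x - (AA.cc α : ℤ)
    · rw [if_pos ((node_iff n a α x).mpr ⟨h, h2⟩), if_pos h2, t7b_wt_cons]
    · rw [if_neg (fun h3 => h2 ((node_iff n a α x).mp h3).2), if_neg h2, mul_zero]
  · rw [if_neg h]
    refine Finset.sum_eq_zero fun α _ => ?_
    rw [if_neg (fun h3 => h ((node_iff n a α x).mp h3).1)]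

theorem t7b_unit {a : ℕ} {x : ℤ} (h : (3 : ℤ) ∣ 2 ^ a * x - 1) : ¬ (3 : ℤ) ∣ x := by
  intro h3
  have h4 : (3 : ℤ) ∣ 1 := by
    have h5 := dvd_sub (h3.mul_left (2 ^ a)) h
    have h6 : 2 ^ a * x - (2 ^ a * x - 1) = (1 : ℤ) := by ring
    rwa [h6] at h5
  norm_num at h4

open Classical in
theorem t7b_VM_succ (n M : ℕ) (x : ℤ) : VM (n + 1) M x =
    ∑ a ∈ Icc 1 M, if (3 : ℤ) ∣ 2 ^ a * x - 1 then 3 / 2 ^ a * VM n M (stp a x) else 0 := by
  unfold VM
  rw [t7b_sum_wds]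
  refine Finset.sum_congr rfl fun a ha => ?_
  have ha1 : 1 ≤ a := (Finset.mem_Icc.mp ha).1
  by_cases h : (3 : ℤ) ∣ 2 ^ a * x - 1
  · rw [if_pos h, Finset.mul_sum]
    refine Finset.sum_congr rfl fun α _ => ?_
    by_cases h2 : valid α (stp a x)
    · rw [if_pos h2, if_pos (show valid (a :: α) x from ⟨t7b_unit h, ha1, h, h2⟩), t7b_wt_cons]
    · rw [if_neg h2, if_neg (fun h3 : valid (a :: α) x => h2 h3.2.2.2), mul_zero]
  · rw [if_neg h]
    refine Finset.sum_eq_zero fun α _ => ?_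
    rw [if_neg (fun h3 : valid (a :: α) x => h h3.2.2.1)]

theorem t7b_WM_zero (M : ℕ) (x : ℤ) : WM 0 M x = 1 := by
  unfold WM
  rw [wds, Finset.sum_singleton, pow_zero, if_pos (one_dvd _)]
  simp [wt]

theorem t7b_VM_zero {M : ℕ} {x : ℤ} (hx : ¬ (3 : ℤ) ∣ x) : VM 0 M x = 1 := by
  unfold VM
  rw [wds, Finset.sum_singleton, if_pos (show valid [] x from hx)]
  simp [wt]

theorem t7b_parity {a b : ℕ} {x : ℤ} (h : (3 : ℤ) ∣ 2 ^ a * x - 1)
    (h' : (3 : ℤ) ∣ 2 ^ b * x - 1) : a % 2 = b % 2 := by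
  have hpow : ∀ m : ℕ, (2 : ℤ) ^ m ≡ (-1) ^ m [ZMOD 3] := fun m =>
    Int.ModEq.pow m (by decide)
  have h1 : (-1 : ℤ) ^ a * x ≡ 1 [ZMOD 3] :=
    ((hpow a).symm.mul_right x).trans ((Int.modEq_iff_dvd.mpr (by
      have := (dvd_neg.mpr h)
      rwa [neg_sub] at this)))
  have h2 : (-1 : ℤ) ^ b * x ≡ 1 [ZMOD 3] :=
    ((hpow b).symm.mul_right x).trans ((Int.modEq_iff_dvd.mpr (by
      have := (dvd_neg.mpr h')
      rwa [neg_sub] at this)))
  rcases Nat.even_or_odd a with ha | ha <;> rcases Nat.even_or_odd b with hb | hb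
  · rw [Nat.even_iff.mp ha, Nat.even_iff.mp hb]
  · exfalso
    rw [ha.neg_one_pow] at h1
    rw [hb.neg_one_pow] at h2
    rw [Int.modEq_iff_dvd] at h1 h2
    omega
  · exfalso
    rw [ha.neg_one_pow] at h1
    rw [hb.neg_one_pow] at h2
    rw [Int.modEq_iff_dvd] at h1 h2
    omega
  · rw [Nat.odd_iff.mp ha, Nat.odd_iff.mp hb]

/-- The sum of `3 / 2 ^ a` over the letters of one parity is at most `2`. -/
theorem t7b_geom (M : ℕ) (s : ℕ) : ∑ a ∈ Icc 1 M, (if a % 2 = s then (3 : ℝ) / 2 ^ a else 0) ≤ 2 := by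
  have key : ∀ m : ℕ, (∑ a ∈ Icc 1 m, (if a % 2 = 1 then (3 : ℝ) / 2 ^ a else 0) +
      (if m % 2 = 1 then 1 / 2 ^ m else 2 / 2 ^ m) = 2) ∧
      (∑ a ∈ Icc 1 m, (if a % 2 = 0 then (3 : ℝ) / 2 ^ a else 0) +
      (if m % 2 = 1 then 2 / 2 ^ m else 1 / 2 ^ m) = 1) := by
    intro m
    induction m with
    | zero => norm_num
    | succ m ih =>
      obtain ⟨ih1, ih2⟩ := ih
      rw [Finset.sum_Icc_succ_top (by omega), Finset.sum_Icc_succ_top (by omega)]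
      rcases Nat.mod_two_eq_zero_or_one m with h | h
      · have h' : (m + 1) % 2 = 1 := by omega
        rw [if_neg (by omega)] at ih1 ih2
        rw [if_pos h', if_pos h', if_neg (by omega), if_pos h', pow_succ]
        constructor
        · have e : (3 : ℝ) / (2 ^ m * 2) + 1 / (2 ^ m * 2) = 2 / 2 ^ m := by
            field_simp
            norm_num
          linarith
        · have e : (2 : ℝ) / (2 ^ m * 2) = 1 / 2 ^ m := by
            field_simp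
          linarith
      · have h' : (m + 1) % 2 = 0 := by omega
        rw [if_pos h] at ih1 ih2
        rw [if_neg (by omega), if_neg (by omega), if_pos h', if_neg (by omega), pow_succ]
        constructor
        · have e : (2 : ℝ) / (2 ^ m * 2) = 1 / 2 ^ m := by
            field_simp
          linarith
        · have e : (3 : ℝ) / (2 ^ m * 2) + 1 / (2 ^ m * 2) = 2 / 2 ^ m := by
            field_simp
            norm_num
          linarith
  by_cases h1 : s = 1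
  · subst h1
    have h2 := (key M).1
    have h3 : (0 : ℝ) ≤ (if M % 2 = 1 then 1 / 2 ^ M else 2 / 2 ^ M) := by
      split_ifs <;> positivity
    linarith
  · by_cases h0 : s = 0
    · subst h0
      have h2 := (key M).2
      have h3 : (0 : ℝ) ≤ (if M % 2 = 1 then 2 / 2 ^ M else 1 / 2 ^ M) := by
        split_ifs <;> positivity
      linarith
    · have h4 : ∀ a ∈ Icc 1 M, (if a % 2 = s then (3 : ℝ) / 2 ^ a else 0) = 0 := by
        intro a _
        rw [if_neg (by omega)]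
      rw [Finset.sum_congr rfl h4, Finset.sum_const_zero]
      norm_num

/-- `WM (n+1) M x ≤ 2 VM n M x`. Induction on `n` with `node_iff`: `n = 0`: `∑_{a ≤ M, 3 ∣ 2^a x - 1} 3/2^a ≤ 2` if `x` is a unit, `0`
otherwise; `WM (n+2) M x = ∑_{a ≤ M} [3 ∣ 2^a x - 1] (3/2^a) WM (n+1) M (stp a x) ≤ 2 ∑_a [..] (3/2^a) VM n M (stp a x) = 2 VM (n+1) M x`
(`valid (a::α) x ↔ ...`; `3 ∣ 2^a x - 1` implies that `x` is a unit). -/
theorem WM_le_VM (n M : ℕ) (x : ℤ) : WM (n + 1) M x ≤ 2 * VM n M x := by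
  induction n generalizing x with
  | zero =>
    rw [t7b_WM_succ]
    by_cases hex : ∃ b : ℕ, (3 : ℤ) ∣ 2 ^ b * x - 1
    · obtain ⟨b, hb⟩ := hex
      rw [t7b_VM_zero (t7b_unit hb), mul_one]
      refine le_trans (Finset.sum_le_sum fun a _ => ?_) (t7b_geom M (b % 2))
      by_cases h : (3 : ℤ) ∣ 2 ^ a * x - 1
      · rw [if_pos h, t7b_WM_zero, mul_one, if_pos (t7b_parity h hb)]
      · rw [if_neg h]
        split_ifs <;> positivity
    · have h0 : ∀ a ∈ Icc 1 M, (if (3 : ℤ) ∣ 2 ^ a * x - 1 then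
          (3 : ℝ) / 2 ^ a * WM 0 M (stp a x) else 0) = 0 := by
        intro a _
        rw [if_neg (fun h => hex ⟨a, h⟩)]
      rw [Finset.sum_congr rfl h0, Finset.sum_const_zero]
      have : 0 ≤ VM 0 M x := by
        classical
        unfold VM
        refine Finset.sum_nonneg fun α _ => ?_
        split_ifs
        · unfold wt
          positivity
        · exact le_refl _
      linarith
  | succ n ih =>
    rw [t7b_WM_succ, t7b_VM_succ, Finset.mul_sum]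
    refine Finset.sum_le_sum fun a _ => ?_
    by_cases h : (3 : ℤ) ∣ 2 ^ a * x - 1
    · rw [if_pos h, if_pos h]
      calc (3 : ℝ) / 2 ^ a * WM (n + 1) M (stp a x) ≤ 3 / 2 ^ a * (2 * VM n M (stp a x)) :=
            mul_le_mul_of_nonneg_left (ih _) (by positivity)
        _ = 2 * (3 / 2 ^ a * VM n M (stp a x)) := by ring
    · rw [if_neg h, if_neg h, mul_zero]

end Pool.Agent.Lib.MP_d0d59f_nt.GE

/-! Row ge_T7c: extension to blocks. -/

namespace Pool.Agent.Lib.MP_d0d59f_nt.GE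

open Finset

open Classical in
/-- the extension of a word by two letters. -/
private noncomputable def t7c_ext (x : ℤ) (α : List ℕ) : List ℕ :=
  if h : valid α x then
    α ++ [(extend_two h (c := 1) (Or.inl rfl)).choose,
      (extend_two h (c := 1) (Or.inl rfl)).choose_spec.choose]
  else α

private lemma t7c_ext_spec {x : ℤ} {α : List ℕ} (h : valid α x) :
    ∃ a a' : ℕ, t7c_ext x α = α ++ [a, a'] ∧ 3 ≤ a ∧ a ≤ 8 ∧ 3 ≤ a' ∧ a' ≤ 8 ∧
      valid (α ++ [a, a']) x ∧ Even (α ++ [a, a']).sum := by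
  have h1 := (extend_two h (c := 1) (Or.inl rfl)).choose_spec.choose_spec
  refine ⟨_, _, ?_, h1.1, h1.2.1, h1.2.2.1, h1.2.2.2.1, h1.2.2.2.2.1, h1.2.2.2.2.2.1⟩
  unfold t7c_ext
  rw [dif_pos h]

private lemma t7c_wt (α : List ℕ) {a a' : ℕ} (ha : a ≤ 8) (ha' : a' ≤ 8) :
    (3 / 256 : ℝ) ^ 2 * wt α ≤ wt (α ++ [a, a']) := by
  have h1 : wt (α ++ [a, a']) = wt α * (3 / 2 ^ a) * (3 / 2 ^ a') := by
    unfold wt
    simp only [List.length_append, List.sum_append, List.length_cons, List.length_nil,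
      List.sum_cons, List.sum_nil]
    rw [pow_add, pow_add, add_zero, pow_add]
    field_simp
    ring
  have h0 : 0 ≤ wt α := by unfold wt; positivity
  have h2 : ∀ b : ℕ, b ≤ 8 → (3 / 256 : ℝ) ≤ 3 / 2 ^ b := by
    intro b hb
    have h3 : (2 : ℝ) ^ b ≤ 256 := by
      calc (2 : ℝ) ^ b ≤ 2 ^ 8 := pow_le_pow_right₀ (by norm_num) hb
        _ = 256 := by norm_num
    exact div_le_div_of_nonneg_left (by norm_num) (by positivity) h3
  rw [h1]
  have h4 : (3 / 256 : ℝ) * (3 / 256) ≤ (3 / 2 ^ a) * (3 / 2 ^ a') :=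
    mul_le_mul (h2 a ha) (h2 a' ha') (by norm_num) (by positivity)
  calc (3 / 256 : ℝ) ^ 2 * wt α = wt α * ((3 / 256 : ℝ) * (3 / 256)) := by ring
    _ ≤ wt α * ((3 / 2 ^ a) * (3 / 2 ^ a')) := mul_le_mul_of_nonneg_left h4 h0
    _ = wt α * (3 / 2 ^ a) * (3 / 2 ^ a') := by ring

open Classical in
private lemma t7c_split (n M t : ℕ) (x : ℤ) :
    VM n M x - LM n M t x ≤
      ∑ α ∈ (wds M n).filter (fun α => valid α x ∧ t < α.sum), wt α := by
  have hw : ∀ α : List ℕ, 0 ≤ wt α := fun α => by unfold wt; positivity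
  unfold VM LM
  rw [Finset.sum_filter, Finset.sum_filter, ← Finset.sum_sub_distrib]
  apply Finset.sum_le_sum
  intro α hα
  have hlen : α.length = n := (mem_wds.mp hα).1
  by_cases hv : valid α x
  · rw [if_pos hv]
    by_cases ht : α.sum ≤ t
    · have h1 : (3 : ℤ) ^ n ∣ 2 ^ α.sum * x - (AA.cc α : ℤ) := by
        rw [← act_identity hv, hlen]
        exact Dvd.intro _ rfl
      rw [if_pos ht, if_pos h1, if_neg (by omega), sub_self]
    · rw [if_neg ht, if_pos ⟨hv, by omega⟩, sub_zero]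
  · have h2 : ¬ (valid α x ∧ t < α.sum) := fun h => hv h.1
    rw [if_neg hv, if_neg h2]
    by_cases ht : α.sum ≤ t
    · rw [if_pos ht]
      split_ifs
      · have := hw α
        linarith
      · simp
    · rw [if_neg ht, sub_zero]

/-- `L ≥ 2`, `M ≥ 8`, `17 L ≤ 10 t + 70` (so that words of sum `> t` and two more letters `≥ 3` have sum
`≥ 17 L / 10`): `NN L M x ≥ (3/256)² (VM (L-2) M x - LM (L-2) M t x)`. For each `α ∈ wds M (L-2)` valid at `x` with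
`|α| > t` choose `α ++ [a, a'] ∈ blk L M` by `extend_two` (`10 (|α| + 6) ≥ 10 t + 70 ≥ 17 L`); the map is injective and
`wt (α ++ [a,a']) ≥ wt α (3/256)²`; a valid word of length `L - 2` satisfies the divisibility (`act_identity`). -/
theorem NN_ge_VM {L M t : ℕ} (hL : 2 ≤ L) (hM : 8 ≤ M) (ht : 17 * L ≤ 10 * t + 70) (x : ℤ) :
    (3 / 256 : ℝ) ^ 2 * (VM (L - 2) M x - LM (L - 2) M t x) ≤ NN L M x := by
  classical
  have h1 := mul_le_mul_of_nonneg_left (t7c_split (L - 2) M t x)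
    (by norm_num : (0 : ℝ) ≤ (3 / 256 : ℝ) ^ 2)
  refine h1.trans ?_
  set S := (wds M (L - 2)).filter (fun α => valid α x ∧ t < α.sum) with hS
  have hmem : ∀ α ∈ S, α.length = L - 2 ∧ (∀ a ∈ α, 1 ≤ a ∧ a ≤ M) ∧ valid α x ∧ t < α.sum := by
    intro α hα
    rw [hS, Finset.mem_filter, mem_wds] at hα
    exact ⟨hα.1.1, hα.1.2, hα.2.1, hα.2.2⟩
  have hinj : Set.InjOn (t7c_ext x) (S : Set (List ℕ)) := by
    intro α hα β hβ h
    have hα' := hmem α hα
    have hβ' := hmem β hβ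
    obtain ⟨a, a', h2, -⟩ := t7c_ext_spec hα'.2.2.1
    obtain ⟨b, b', h3, -⟩ := t7c_ext_spec hβ'.2.2.1
    rw [h2, h3] at h
    exact List.append_inj_left h (by rw [hα'.1, hβ'.1])
  have hsub : S.image (t7c_ext x) ⊆ blk L M := by
    intro β hβ
    rw [Finset.mem_image] at hβ
    obtain ⟨α, hα, rfl⟩ := hβ
    have hα' := hmem α hα
    obtain ⟨a, a', h2, ha3, ha8, ha3', ha8', hv, hev⟩ := t7c_ext_spec hα'.2.2.1
    rw [h2]
    unfold blk
    rw [Finset.mem_filter, mem_wds]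
    refine ⟨⟨?_, ?_⟩, hev, ?_⟩
    · simp only [List.length_append, List.length_cons, List.length_nil]
      omega
    · intro c hc
      rw [List.mem_append] at hc
      rcases hc with hc | hc
      · exact hα'.2.1 c hc
      · simp only [List.mem_cons, List.not_mem_nil, or_false] at hc
        rcases hc with rfl | rfl
        · omega
        · omega
    · simp only [List.sum_append, List.sum_cons, List.sum_nil]
      have := hα'.2.2.2
      omega
  unfold NN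
  calc (3 / 256 : ℝ) ^ 2 * ∑ α ∈ S, wt α = ∑ α ∈ S, (3 / 256 : ℝ) ^ 2 * wt α := by
        rw [Finset.mul_sum]
    _ ≤ ∑ α ∈ S, (fun β => if valid β x then wt β else 0) (t7c_ext x α) := by
        apply Finset.sum_le_sum
        intro α hα
        obtain ⟨a, a', h2, ha3, ha8, ha3', ha8', hv, hev⟩ := t7c_ext_spec (hmem α hα).2.2.1
        show (3 / 256 : ℝ) ^ 2 * wt α ≤ if valid (t7c_ext x α) x then wt (t7c_ext x α) else 0
        rw [h2, if_pos hv]
        exact t7c_wt α ha8 ha8'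
    _ = ∑ β ∈ S.image (t7c_ext x), (fun β => if valid β x then wt β else 0) β := by
        rw [Finset.sum_image hinj]
    _ ≤ ∑ β ∈ blk L M, (fun β => if valid β x then wt β else 0) β := by
        apply Finset.sum_le_sum_of_subset_of_nonneg hsub
        intro β _ _
        show 0 ≤ if valid β x then wt β else 0
        split_ifs
        · unfold wt; positivity
        · exact le_rfl
    _ = _ := by
        apply Finset.sum_congr rfl
        intro β _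
        rfl

end Pool.Agent.Lib.MP_d0d59f_nt.GE

end

section

/-! Row pd-P21: a predecessor in a prescribed class. -/

namespace Pool.Agent.Lib.MP_d0d59f_nt.PD

open Finset

/-- `T z = 4 z + 1` visits every class modulo `3^n` within `3^n` steps. -/
theorem p21_surj (n : ℕ) (u c : ℤ) : ∃ i < 3 ^ n, (fun z : ℤ => 4 * z + 1)^[i] u ≡ c [ZMOD 3 ^ n] := by
  have : NeZero (3 ^ n) := ⟨by positivity⟩
  let f : Fin (3 ^ n) → ZMod (3 ^ n) := fun i => (((fun z : ℤ => 4 * z + 1)^[i.val] u : ℤ) : ZMod (3 ^ n))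
  have hinj : Function.Injective f := by
    intro i j hij
    have h := (ZMod.intCast_eq_intCast_iff _ _ _).1 hij
    push_cast at h
    exact Fin.ext (GE.run_inj n u i.val i.isLt j.val j.isLt h)
  have hbij : Function.Bijective f := by
    rw [Fintype.bijective_iff_injective_and_card]
    exact ⟨hinj, by rw [Fintype.card_fin, ZMod.card]⟩
  obtain ⟨i, hi⟩ := hbij.2 (c : ZMod (3 ^ n))
  refine ⟨i.val, i.isLt, ?_⟩
  have h := (ZMod.intCast_eq_intCast_iff _ _ _).1 hi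
  push_cast at h
  exact h

/-- The kids of `a`. -/
theorem p21_kid {d a N : ℤ} {k : ℕ} (h : 3 * N + d = 2 ^ k * a) (i : ℕ) :
    3 * (fun z : ℤ => 4 * z + d)^[i] N + d = 2 ^ (k + 2 * i) * a := by
  induction i with
  | zero => simpa using h
  | succ i ih =>
    rw [Function.iterate_succ_apply']
    show 3 * (4 * (fun z : ℤ => 4 * z + d)^[i] N + d) + d = _
    have h1 : k + 2 * (i + 1) = k + 2 * i + 2 := by ring
    rw [h1, pow_add, mul_right_comm, ← ih]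
    ring

theorem p21_mul {d e : ℤ} {n : ℕ} (he : d * e ≡ 1 [ZMOD 3 ^ n]) (N : ℤ) (i : ℕ) :
    (fun z : ℤ => 4 * z + d)^[i] N * e ≡ (fun z : ℤ => 4 * z + 1)^[i] (N * e) [ZMOD 3 ^ n] := by
  induction i with
  | zero => exact Int.ModEq.refl _
  | succ i ih =>
    rw [Function.iterate_succ_apply', Function.iterate_succ_apply']
    show (4 * (fun z : ℤ => 4 * z + d)^[i] N + d) * e ≡ 4 * (fun z : ℤ => 4 * z + 1)^[i] (N * e) + 1 [ZMOD 3 ^ n]
    have h1 : (4 * (fun z : ℤ => 4 * z + d)^[i] N + d) * e =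
        4 * ((fun z : ℤ => 4 * z + d)^[i] N * e) + d * e := by ring
    rw [h1]
    exact (ih.mul_left 4).add he

/-- some kid `N_i` with `i < 3^n` lies in the class of `c d` -/
theorem p21_class {d : ℤ} (h3 : ¬ (3 : ℤ) ∣ d) (n : ℕ) (N c : ℤ) :
    ∃ i < 3 ^ n, (fun z : ℤ => 4 * z + d)^[i] N ≡ c * d [ZMOD 3 ^ n] := by
  obtain ⟨e, he⟩ := GE.exists_inv h3 n
  obtain ⟨i, hi, h⟩ := p21_surj n (N * e) c
  refine ⟨i, hi, ?_⟩
  have h1 := (p21_mul he N i).trans h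
  have h2 := h1.mul_right d
  have h3 : (fun z : ℤ => 4 * z + d)^[i] N * e * d ≡ (fun z : ℤ => 4 * z + d)^[i] N [ZMOD 3 ^ n] := by
    have := he.mul_left ((fun z : ℤ => 4 * z + d)^[i] N)
    rw [mul_one] at this
    have h4 : (fun z : ℤ => 4 * z + d)^[i] N * e * d = (fun z : ℤ => 4 * z + d)^[i] N * (d * e) := by ring
    rw [h4]
    exact this
  exact h3.symm.trans h2

theorem p21_bound {d N a : ℤ} {k m : ℕ} (hk : k ≤ m) (h : 3 * N + d = 2 ^ k * a) :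
    |(N : ℝ)| ≤ 2 ^ m * (|(a : ℝ)| + |(d : ℝ)|) := by
  have h1 : 3 * (N : ℝ) + d = 2 ^ k * a := by exact_mod_cast h
  have h2 : (3 : ℝ) * |(N : ℝ)| ≤ 2 ^ k * |(a : ℝ)| + |(d : ℝ)| := by
    have h3 : |3 * (N : ℝ)| = |2 ^ k * (a : ℝ) - d| := by
      congr 1
      linarith
    rw [abs_mul, abs_of_pos (by norm_num : (0 : ℝ) < 3)] at h3
    rw [h3]
    refine (abs_sub _ _).trans ?_
    rw [abs_mul, abs_of_pos (by positivity : (0 : ℝ) < 2 ^ k)]
  have h4 : (2 : ℝ) ^ k ≤ 2 ^ m := pow_le_pow_right₀ (by norm_num) hk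
  have h5 : (2 : ℝ) ^ k * |(a : ℝ)| ≤ 2 ^ m * |(a : ℝ)| := mul_le_mul_of_nonneg_right h4 (abs_nonneg _)
  have h6 := abs_nonneg (a : ℝ)
  have h7 := abs_nonneg (d : ℝ)
  have h8 : (1 : ℝ) ≤ 2 ^ m := one_le_pow₀ (by norm_num)
  have h9 : 1 * |(d : ℝ)| ≤ 2 ^ m * |(d : ℝ)| := mul_le_mul_of_nonneg_right h8 h7
  have h10 := abs_nonneg (N : ℝ)
  rw [mul_add]
  linarith

/-- The kids of `a`: `3 N_i + d = 2^(k₀+2i) a`, `k₀ ∈ {1,2}`, `N_{i+1} = 4 N_i + d`. Modulo `3^n` the map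
`u ↦ 4 u + d` on a residue system is a single cycle of length `3^n` (`3 ∤ d`; `GE.run_inj` for `4 u + 1`:
multiply by the inverse of `d`, `GE.exists_inv`; an injective map of `range (3^n)` into the `3^n` classes is
onto), so some `i < 3^n` has `N_i ≡ c d`, and also `i + 3^n`. Both are odd (`GE.c4_odd`); by `GE.kids_not_both`
one of the two is not periodic. Size: `3 |N_i| ≤ 4^(2 * 3^n + 1) |a| + |d|`. `GE.c4_pre`. -/
theorem exists_kid_class (n : ℕ) : ∃ K : ℝ, 1 ≤ K ∧ ∀ d a c : ℤ, Odd d → ¬ (3 : ℤ) ∣ d → ¬ (3 : ℤ) ∣ a →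
    ∃ y : ℤ, Odd y ∧ ¬ GE.pdc d y ∧ y ≡ c * d [ZMOD 3 ^ n] ∧ y ∈ GE.pre d a ∧
      |(y : ℝ)| ≤ K * (|(a : ℝ)| + |(d : ℝ)|) := by
  refine ⟨2 ^ (2 + 4 * 3 ^ n), one_le_pow₀ (by norm_num), fun d a c hd h3 ha => ?_⟩
  obtain ⟨k, hk1, hk2, N₀, h0⟩ : ∃ k : ℕ, 1 ≤ k ∧ k ≤ 2 ∧ ∃ N₀ : ℤ, 3 * N₀ + d = 2 ^ k * a := by
    by_cases h : (2 * a - d) % 3 = 0
    · exact ⟨1, le_rfl, by norm_num, (2 * a - d) / 3, by omega⟩
    · have ha' : a % 3 = 1 ∨ a % 3 = 2 := by omega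
      have hd' : d % 3 = 1 ∨ d % 3 = 2 := by omega
      exact ⟨2, by norm_num, le_rfl, (4 * a - d) / 3, by
        rcases ha' with ha' | ha' <;> rcases hd' with hd' | hd' <;> omega⟩
  obtain ⟨i, hi, hic⟩ := p21_class h3 n N₀ c
  obtain ⟨j, hj, hjc⟩ := p21_class h3 n ((fun z : ℤ => 4 * z + d)^[3 ^ n] N₀) c
  have e1 := p21_kid h0 i
  have e2 := p21_kid (p21_kid h0 (3 ^ n)) j
  have o1 := GE.c4_odd hd (by omega) e1
  have o2 := GE.c4_odd hd (by omega) e2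
  by_cases hp : GE.pdc d ((fun z : ℤ => 4 * z + d)^[i] N₀)
  · refine ⟨_, o2, fun hp' => GE.kids_not_both hd (by omega) (by omega) o1 o2 e1 e2 ⟨hp, hp'⟩, hjc,
      GE.c4_pre hd (by omega) e2, p21_bound (by omega) e2⟩
  · exact ⟨_, o1, hp, hic, GE.c4_pre hd (by omega) e1, p21_bound (by omega) e1⟩

end Pool.Agent.Lib.MP_d0d59f_nt.PD

end

section

/-! Row pd-P12b. -/

namespace Pool.Agent.Lib.MP_d0d59f_nt.PD

open Finset

/-- Exchange the sums; `vd_count`; `wt α = 3^n (1/2)^|α|`; `Rn_mass`. -/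
theorem EE_one_sum (n : ℕ) :
    (3 : ℝ) ^ n / 2 ≤ ∑ x ∈ range (3 ^ n), EE n (fun _ _ => 1) (x : ℤ) := by
  classical
  unfold EE
  rw [sum_comm]
  have h1 : ∀ α ∈ Rn n, ∑ x ∈ range (3 ^ n),
      (if vd α ((x : ℕ) : ℤ) then wt α * (fun (_ : List ℕ) (_ : ℤ) => (1 : ℝ)) α (nd α ((x : ℕ) : ℤ)) else 0) =
      3 ^ n * (1 / 2 : ℝ) ^ α.sum := by
    intro α hα
    have hlen : α.length = n := (mem_Rn.mp hα).1
    have h2 := vd_count (k := n) (γ := α) hlen
    have h3 : ∀ x ∈ range (3 ^ n),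
        (if vd α ((x : ℕ) : ℤ) then wt α * (fun (_ : List ℕ) (_ : ℤ) => (1 : ℝ)) α (nd α ((x : ℕ) : ℤ)) else 0) =
        wt α * (if vd α ((x : ℕ) : ℤ) then (1 : ℝ) else 0) := by
      intro x _
      split_ifs <;> simp
    rw [sum_congr rfl h3, ← mul_sum]
    have h4 : ∑ i ∈ range (3 ^ n), (if vd α ((i : ℕ) : ℤ) then (1 : ℝ) else 0) = 1 := by
      rw [← h2]
      apply sum_congr rfl
      intro z _
      congr
    rw [h4, mul_one]
    unfold wt
    rw [hlen, one_div, inv_pow, div_eq_mul_inv]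
  rw [sum_congr rfl h1, ← mul_sum]
  have h5 := Rn_mass n
  have h6 : (0 : ℝ) < 3 ^ n := by positivity
  calc (3 : ℝ) ^ n / 2 = 3 ^ n * (1 / 2) := by ring
    _ ≤ 3 ^ n * ∑ α ∈ Rn n, (1 / 2 : ℝ) ^ α.sum := mul_le_mul_of_nonneg_left h5 h6.le

end Pool.Agent.Lib.MP_d0d59f_nt.PD

end

section

/-! Row pd-P23a. -/

namespace Pool.Agent.Lib.MP_d0d59f_nt.PD

open Finset _root_.Pool.Agent.Lib.MP_d0d59f_nt.GE

/-- Two kids `y, y'` of `a` (with different letters) have disjoint predecessor sets unless one of them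
is periodic; first half. -/
theorem p23a_half {d : ℤ} (hd : Odd d) {k k' : ℕ} (hk : 1 ≤ k) (hk' : 1 ≤ k') (hne : k ≠ k') {a y y' : ℤ}
    (ha : a ≠ 0) (hy : Odd y) (hy' : Odd y') (h : 3 * y + d = 2 ^ k * a)
    (h' : 3 * y' + d = 2 ^ k' * a) {j : ℕ} (hj : (T d)^[j] y = y') : pdc d y' := by
  have hTk' : (T d)^[k'] y' = a := by
    have := kid_iter hd hy' (j := 0) (k := k') (by omega) h'
    simpa using this
  have hTk : (T d)^[k] y = a := by
    have := kid_iter hd hy (j := 0) (k := k) (by omega) h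
    simpa using this
  rcases Nat.eq_zero_or_pos j with rfl | hj0
  · exfalso
    have h1 : y = y' := hj
    rw [← h1, h] at h'
    have h2 := mul_right_cancel₀ ha h'
    exact hne (Int.pow_right_injective (by norm_num) h2)
  · rcases lt_or_ge j k with hjk | hjk
    · exfalso
      have h1 : (T d)^[k - (k - j)] y = 2 ^ (k - j) * a := kid_iter hd hy (by omega) h
      have h2 : k - (k - j) = j := by omega
      rw [h2, hj] at h1
      obtain ⟨e, he⟩ : ∃ e, k - j = e + 1 := ⟨k - j - 1, by omega⟩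
      rw [he, pow_succ] at h1
      rw [h1] at hy'
      have h6 : Even (2 ^ e * 2 * a) := ⟨2 ^ e * a, by ring⟩
      exact (Int.not_odd_iff_even.2 h6) hy'
    · refine ⟨(j - k) + k', by omega, ?_⟩
      rw [Function.iterate_add_apply, hTk', ← hTk, ← Function.iterate_add_apply]
      have h2 : j - k + k = j := by omega
      rw [h2, hj]

theorem p23a_disj {d : ℤ} (hd : Odd d) {k k' : ℕ} (hk : 1 ≤ k) (hk' : 1 ≤ k') (hne : k ≠ k') {a y y' f : ℤ}
    (ha : a ≠ 0) (hy : Odd y) (hy' : Odd y') (h : 3 * y + d = 2 ^ k * a)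
    (h' : 3 * y' + d = 2 ^ k' * a) (hf : f ∈ pre d y) (hf' : f ∈ pre d y') :
    pdc d y ∨ pdc d y' := by
  obtain ⟨i, hi⟩ := hf
  obtain ⟨i', hi'⟩ := hf'
  rcases le_total i i' with hle | hle
  · right
    obtain ⟨j, rfl⟩ := Nat.exists_eq_add_of_le' hle
    rw [Function.iterate_add_apply, hi] at hi'
    exact p23a_half hd hk hk' hne ha hy hy' h h' hi'
  · left
    obtain ⟨j, rfl⟩ := Nat.exists_eq_add_of_le' hle
    rw [Function.iterate_add_apply, hi'] at hi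
    exact p23a_half hd hk' hk hne.symm ha hy' hy h' h hi

/-- Among the `2 (n + 2)` kids with letters `k₀ + 2 i` one is prime to `3`, and has no element of `F` above
it, where `n = |F|`. -/
theorem exists_free_kid {d a : ℤ} (hd : Odd d) (h3 : ¬ (3 : ℤ) ∣ d) (ha : ¬ (3 : ℤ) ∣ a)
    (F : Finset ℤ) :
    ∃ (k : ℕ) (y : ℤ), 1 ≤ k ∧ k ≤ 4 * F.card + 8 ∧ 3 * y + d = 2 ^ k * a ∧ ¬ (3 : ℤ) ∣ y ∧
      ∀ f ∈ F, f ∉ GE.pre d y := by
  classical
  have ha0 : a ≠ 0 := by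
    rintro rfl
    exact ha (dvd_zero _)
  obtain ⟨k0, hk1, hk2, N0, h0⟩ : ∃ k : ℕ, 1 ≤ k ∧ k ≤ 2 ∧ ∃ N₀ : ℤ, 3 * N₀ + d = 2 ^ k * a := by
    by_cases h : (2 * a - d) % 3 = 0
    · exact ⟨1, le_rfl, by norm_num, (2 * a - d) / 3, by omega⟩
    · have ha' : a % 3 = 1 ∨ a % 3 = 2 := by omega
      have hd' : d % 3 = 1 ∨ d % 3 = 2 := by omega
      exact ⟨2, by norm_num, le_rfl, (4 * a - d) / 3, by
        rcases ha' with ha' | ha' <;> rcases hd' with hd' | hd' <;> omega⟩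
  have hkid : ∀ i : ℕ, ∃ N : ℤ, 3 * N + d = 2 ^ (k0 + 2 * i) * a := by
    intro i
    induction i with
    | zero => exact ⟨N0, by simpa using h0⟩
    | succ i ih =>
      obtain ⟨N, hN⟩ := ih
      refine ⟨4 * N + d, ?_⟩
      have : k0 + 2 * (i + 1) = k0 + 2 * i + 2 := by ring
      rw [this, pow_add, mul_right_comm, ← hN]
      ring
  have hpair : ∀ t : ℕ, ∃ (k : ℕ) (y : ℤ), k0 + 4 * t ≤ k ∧ k ≤ k0 + 4 * t + 2 ∧
      3 * y + d = 2 ^ k * a ∧ ¬ (3 : ℤ) ∣ y := by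
    intro t
    obtain ⟨N, hN⟩ := hkid (2 * t)
    have e1 : k0 + 2 * (2 * t) = k0 + 4 * t := by ring
    rw [e1] at hN
    by_cases hd3 : (3 : ℤ) ∣ N
    · refine ⟨k0 + 4 * t + 2, 4 * N + d, by omega, le_rfl, ?_, by omega⟩
      rw [pow_add, mul_right_comm, ← hN]
      ring
    · exact ⟨k0 + 4 * t, N, le_rfl, by omega, hN, hd3⟩
  choose k y hk3 hk4 hy hy3 using hpair
  have hk1' : ∀ t, 1 ≤ k t := fun t => by have := hk3 t; omega
  have hyodd : ∀ t, Odd (y t) := fun t => c4_odd hd (hk1' t) (hy t)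
  have hkne : ∀ t t', t < t' → k t < k t' := by
    intro t t' h
    have h1 := hk4 t
    have h2 := hk3 t'
    omega
  have hkne' : ∀ t t', t ≠ t' → k t ≠ k t' := by
    intro t t' h
    rcases lt_or_gt_of_ne h with h1 | h1
    · exact (hkne t t' h1).ne
    · exact (hkne t' t h1).ne'
  -- the non periodic ones
  set S : Finset ℕ := (range (F.card + 2)).filter fun t => ¬ pdc d (y t) with hS
  have hScard : F.card + 1 ≤ S.card := by
    have h1 : ((range (F.card + 2)).filter fun t => pdc d (y t)).card ≤ 1 := by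
      rw [Finset.card_le_one]
      intro t ht t' ht'
      rw [mem_filter] at ht ht'
      by_contra hne
      rcases lt_or_gt_of_ne hne with h1 | h1
      · exact kids_not_both hd (hk1' t) (hkne t t' h1) (hyodd t) (hyodd t') (hy t) (hy t') ⟨ht.2, ht'.2⟩
      · exact kids_not_both hd (hk1' t') (hkne t' t h1) (hyodd t') (hyodd t) (hy t') (hy t) ⟨ht'.2, ht.2⟩
    have h2 := Finset.card_filter_add_card_filter_not (s := range (F.card + 2)) (fun t => pdc d (y t))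
    rw [card_range] at h2
    rw [hS]
    omega
  by_contra hcon
  push Not at hcon
  have hex : ∀ t ∈ S, ∃ f, f ∈ F ∧ f ∈ pre d (y t) := by
    intro t ht
    rw [hS, mem_filter, mem_range] at ht
    obtain ⟨f, hf, hf2⟩ := hcon (k t) (y t) (hk1' t) (by have := hk4 t; omega) (hy t) (hy3 t)
    exact ⟨f, hf, hf2⟩
  choose! g hg1 hg2 using hex
  have hinj : Set.InjOn g (S : Set ℕ) := by
    intro t ht t' ht' heq
    by_contra hne
    have h1 := hg2 t ht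
    have h2 := hg2 t' ht'
    rw [← heq] at h2
    have h3 := p23a_disj hd (hk1' t) (hk1' t') (hkne' t t' hne) ha0 (hyodd t) (hyodd t') (hy t) (hy t') h1 h2
    have h4 := (mem_filter.1 (Finset.mem_coe.1 ht)).2
    have h5 := (mem_filter.1 (Finset.mem_coe.1 ht')).2
    rcases h3 with h3 | h3
    · exact h4 h3
    · exact h5 h3
  have hcard := Finset.card_le_card_of_injOn g (fun t ht => hg1 t (Finset.mem_coe.1 ht)) hinj
  omega

end Pool.Agent.Lib.MP_d0d59f_nt.PD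

end
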