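import Mathlib
import Pool.Agent.Lib.MP_d0d59f_nt.PZ.K033
import Pool.Agent.Lib.MP_d0d59f_nt.PZ.K036
import Pool.Agent.Lib.MP_d0d59f_nt.CY.N035
import Pool.Agent.Lib.MP_d0d59f_nt.CY.N036
import Pool.Agent.Lib.MP_d0d59f_nt.CY.N037
import Pool.Agent.Lib.MP_d0d59f_nt.CY.N038

section

/-! Row pd-P14c. -/

namespace Pool.Agent.Lib.MP_d0d59f_nt.PD

open Finset

open Classical in
theorem p14c_inner {D : ℕ → ℤ → ℝ} (hD : ∀ j z, |D j z| ≤ 2)
    (hper : ∀ j, ∀ z z' : ℤ, z ≡ z' [ZMOD 3] → D j z = D j z')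
    (h0 : ∀ j, D j 0 + D j 1 + D j 2 = 0) (m L : ℕ) (α : List ℕ) (z : ℤ) :
    |∑ β ∈ Wd m L, if vd β z ∧ bar (α ++ β) then wt β * D (α ++ β).sum (nd β z) else 0| ≤
      2 * hm m L z + 2 * ∑ β ∈ Wd m L, if vd β z ∧ ¬ bar (α ++ β) then wt β else 0 := by
  have h1 := hm_dom hD hper h0 m L α.sum z
  have h2 : ∑ β ∈ Wd m L, (if vd β z ∧ bar (α ++ β) then wt β * D (α ++ β).sum (nd β z) else 0)
      = ∑ β ∈ Wd m L, (if vd β z then wt β * D (α.sum + β.sum) (nd β z) else 0)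
        - ∑ β ∈ Wd m L, (if vd β z ∧ ¬ bar (α ++ β) then wt β * D (α.sum + β.sum) (nd β z) else 0) := by
    rw [← sum_sub_distrib]
    refine sum_congr rfl fun β _ => ?_
    rw [List.sum_append]
    by_cases hv : vd β z
    · by_cases hb : bar (α ++ β)
      · simp [hv, hb]
      · simp [hv, hb]
    · simp [hv]
  have h3 : |∑ β ∈ Wd m L, (if vd β z ∧ ¬ bar (α ++ β) then wt β * D (α.sum + β.sum) (nd β z) else 0)|
      ≤ 2 * ∑ β ∈ Wd m L, (if vd β z ∧ ¬ bar (α ++ β) then wt β else 0) := by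
    refine (abs_sum_le_sum_abs _ _).trans ?_
    rw [mul_sum]
    refine sum_le_sum fun β _ => ?_
    by_cases hc : vd β z ∧ ¬ bar (α ++ β)
    · rw [if_pos hc, if_pos hc, abs_mul, abs_of_pos (wt_pos β)]
      nlinarith [wt_pos β, hD (α.sum + β.sum) (nd β z)]
    · rw [if_neg hc, if_neg hc]
      simp
  rw [h2]
  refine (abs_sub _ _).trans (add_le_add h1 h3)

/-- **Main estimate.** `m = n/60`, `p = n - m`, `q = n - 2 m`, `L = 3 n + 100`. `EE_split` for `n = p + m`; for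
`α ∈ Rn p` and every `z` the inner sum over `β ∈ Wd m L` with `vd β z ∧ bar (α ++ β)` is the sum over all `β` with
`vd β z` (at most `2 hm m L z` by `hm_dom` with `j = α.sum`, `(α ++ β).sum = α.sum + β.sum`) minus the sum over `β`
with `vd β z ∧ ¬ bar (α ++ β)` (absolute value at most `2 ∑ wt β`). So
`|EE n ..| ≤ 2 EE p (hm m L) + 2 EE p (exits)`; the first is bounded by `density_bound` (`k = m + 1`,
`20 (m+1) ≤ p`) and `hm_sum`, the second by `exit_le` (`p = q + m`, `t = m`), `density_bound` (`k = 2 m`,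
`40 m ≤ q`) and `Vb_sum`. -/
theorem main_bound : ∃ K : ℝ, 0 ≤ K ∧ ∀ n : ℕ, 60 ≤ n → ∀ D : ℕ → ℤ → ℝ,
    (∀ j z, |D j z| ≤ 2) → (∀ j, ∀ z z' : ℤ, z ≡ z' [ZMOD 3] → D j z = D j z') →
    (∀ j, D j 0 + D j 1 + D j 2 = 0) → ∀ x : ℤ,
      |EE n (fun α z => D α.sum z) x| ≤ K / ((n : ℝ) + 1) ^ 2 := by
  classical
  obtain ⟨C, hC0, hC⟩ := hm_sum
  obtain ⟨K1, hK1, hp⟩ := poly_bound C hC0
  obtain ⟨K2, hK2, he⟩ := exp_bound
  refine ⟨2 * K1 + 2 * K2, by positivity, fun n hn D hD hper h0 x => ?_⟩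
  obtain ⟨m, hmn⟩ : ∃ m, m = n / 60 := ⟨_, rfl⟩
  have hm1 : 1 ≤ m := by omega
  have hm2 : 60 * m ≤ n := by omega
  obtain ⟨q, hq⟩ : ∃ q, n = q + m + m := ⟨n - 2 * m, by omega⟩
  have hq40 : 20 * (m + m) ≤ q := by omega
  have hp20 : 20 * (m + 1) ≤ q + m := by omega
  have hL : 3 * (q + m + m) + 100 ≤ 3 * n + 100 := by omega
  have e1 : EE n (fun α z => D α.sum z) x = EE (q + m) (fun α z => ∑ β ∈ Wd m (3 * n + 100),
      if vd β z ∧ bar (α ++ β) then wt β * D (α ++ β).sum (nd β z) else 0) x := by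
    have := EE_split (p := q + m) (m := m) (L := 3 * n + 100) hL (fun α z => D α.sum z) x
    rw [← this, ← hq]
  have e2 : |EE n (fun α z => D α.sum z) x| ≤
      2 * EE (q + m) (fun _ z => hm m (3 * n + 100) z) x
        + 2 * EE (q + m) (fun α z => ∑ β ∈ Wd m (3 * n + 100),
          if vd β z ∧ ¬ bar (α ++ β) then wt β else 0) x := by
    rw [e1, ← EE_smul, ← EE_smul, ← EE_add]
    refine (EE_abs _ _ _).trans ?_
    exact EE_mono (fun α _ z => p14c_inner hD hper h0 m (3 * n + 100) α z) x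
  have hpn : ((q + m : ℕ) : ℝ) + 1 ≤ (n : ℝ) + 1 := by
    have : ((q + m : ℕ) : ℝ) ≤ (n : ℝ) := by exact_mod_cast (by omega : q + m ≤ n)
    linarith
  have hqn : (q : ℝ) + 1 ≤ (n : ℝ) + 1 := by
    have : (q : ℝ) ≤ (n : ℝ) := by exact_mod_cast (by omega : q ≤ n)
    linarith
  have e3 : EE (q + m) (fun _ z => hm m (3 * n + 100) z) x ≤ K1 / ((n : ℝ) + 1) ^ 2 := by
    refine (density_bound hp20 (fun z => hm_nonneg m (3 * n + 100) z)
      (fun z z' h => hm_congr h) x).trans ?_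
    refine le_trans ?_ (hp n)
    rw [← hmn]
    have h3 : (0 : ℝ) < 3 ^ (m + 1) := by positivity
    have hh : (∑ c ∈ range (3 ^ (m + 1)), hm m (3 * n + 100) (c : ℤ)) / 3 ^ (m + 1) ≤
        C * ((3 * n + 100 : ℕ) + 1) / ((m : ℝ) + 1) ^ 5 := by
      rw [div_le_iff₀ h3, mul_comm _ ((3 : ℝ) ^ (m + 1))]
      exact hC m (3 * n + 100)
    have hh0 : 0 ≤ (∑ c ∈ range (3 ^ (m + 1)), hm m (3 * n + 100) (c : ℤ)) / 3 ^ (m + 1) :=
      div_nonneg (sum_nonneg fun c _ => hm_nonneg _ _ _) h3.le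
    exact mul_le_mul (by nlinarith) hh hh0 (by positivity)
  have e4 : EE (q + m) (fun α z => ∑ β ∈ Wd m (3 * n + 100),
          if vd β z ∧ ¬ bar (α ++ β) then wt β else 0) x ≤ K2 / ((n : ℝ) + 1) ^ 2 := by
    refine (exit_le q m m (3 * n + 100) x).trans ?_
    refine (density_bound hq40 (fun z => Vb_nonneg m (m + m) _ z)
      (fun z z' h => Vb_congr h) x).trans ?_
    refine le_trans ?_ (he n)
    rw [← hmn]
    have h3 : (0 : ℝ) < 3 ^ (m + m) := by positivity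
    have hh : (∑ c ∈ range (3 ^ (m + m)), Vb m (m + m) (3 * (q + m) + 100 + (3 * n + 100)) (c : ℤ))
        / 3 ^ (m + m) ≤ 70 * (97 / 100) ^ m := by
      rw [div_le_iff₀ h3, mul_comm _ ((3 : ℝ) ^ (m + m))]
      exact Vb_sum m (m + m) _
    have hh0 : 0 ≤ (∑ c ∈ range (3 ^ (m + m)), Vb m (m + m) (3 * (q + m) + 100 + (3 * n + 100))
        (c : ℤ)) / 3 ^ (m + m) :=
      div_nonneg (sum_nonneg fun c _ => Vb_nonneg _ _ _ _) h3.le
    exact mul_le_mul (by nlinarith) hh hh0 (by positivity)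
  rw [add_div, mul_div_assoc, mul_div_assoc]
  linarith

end Pool.Agent.Lib.MP_d0d59f_nt.PD

end

section

/-! Row pd-P17: one step. -/

namespace Pool.Agent.Lib.MP_d0d59f_nt.PD

open Finset

/-- The hits as a weighted sum. -/
theorem p17_hit (M n : ℕ) (x : ℤ) :
    hit M n x = EE n (fun α _ => if α.sum = lev M n then 1 else 0) x := by
  classical
  unfold hit EE
  refine sum_congr rfl fun α _ => ?_
  by_cases h1 : vd α x
  · by_cases h2 : α.sum = lev M n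
    · rw [if_pos ⟨h1, h2⟩, if_pos h1]
      simp [h2]
    · rw [if_neg (fun h => h2 h.2), if_pos h1]
      simp [h2]
  · rw [if_neg (fun h => h1 h.1), if_neg h1]

/-- The sum over the last letter. -/
theorem p17_inner (M A n j : ℕ) (α : List ℕ) (hα : α.sum = j) (z : ℤ) :
    (∑ β ∈ Wd 1 A, @ite ℝ (vd β z) (Classical.dec _) (wt β * VV M (n + 1) (α ++ β).sum) 0) =
      DD M A n j z + ∑ a ∈ Icc 1 A, (1 / 2 : ℝ) ^ a * VV M (n + 1) (j + a) := by
  classical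
  rw [sum_Wd_one, DD, ← sum_add_distrib]
  refine sum_congr rfl fun a _ => ?_
  have hs : (α ++ [a]).sum = j + a := by rw [List.sum_append, hα, List.sum_singleton]
  have hw : wt [a] = 3 * (1 / 2 : ℝ) ^ a := by
    unfold wt
    rw [List.length_singleton, List.sum_singleton, pow_one, one_div, inv_pow]
    rfl
  rw [hs, hw]
  by_cases h : (3 : ℤ) ∣ 2 ^ a * z - 1
  · rw [if_pos ((vd_one a z).2 h), if_pos h]
    ring
  · rw [if_neg (fun h' => h ((vd_one a z).1 h')), if_neg h]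
    ring

/-- Put `A = lev M (n+1) + 3 (n+1) + 100`. Then
`TT M (n+1) x - TT M n x = hit M n x + EE (n+1) (VV M (n+1)) x - EE n (VV M n) x`.
By `EE_split` (`p = n`, `m = 1`, `L = A`) and `sum_Wd_one`, `vd_one`:
`EE (n+1) (VV M (n+1)) x = EE n (fun α z => ∑_{a ∈ Icc 1 A} [3 ∣ 2^a z - 1] (3/2^a) VV M (n+1) (α.sum + a)) x`
`- EE n (fun α z => ∑_{β ∈ Wd 1 A} [vd β z ∧ ¬ bar (α ++ β)] wt β VV M (n+1) (α.sum + β.sum)) x`, the last one at
most the `exit_one` quantity (`VV ≤ 1`). By `VV_step`: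
`EE n (VV M n) x ≤ hit M n x + EE n (fun α _ => ∑_a (1/2)^a VV M (n+1) (α.sum + a)) x`
(`hit M n x = EE n (fun α _ => if α.sum = lev M n then 1 else 0) x`).
So the difference is at least `EE n (fun α z => DD M A n α.sum z) x - exit`; `main_bound` with
`D = DD M A n` (`DD_abs`, `DD_congr`, `DD_zero`) and `exit_one`. -/
theorem TT_step : ∃ K : ℝ, 0 ≤ K ∧ ∀ M : ℕ, 1 ≤ M → ∀ n : ℕ, 60 ≤ n → ∀ x : ℤ,
    TT M n x - K / ((n : ℝ) + 1) ^ 2 ≤ TT M (n + 1) x := by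
  classical
  obtain ⟨K1, hK1, hmain⟩ := main_bound
  obtain ⟨K2, hK2, hexit⟩ := exit_one
  refine ⟨K1 + K2, by positivity, fun M hM n hn x => ?_⟩
  obtain ⟨A, hA⟩ : ∃ A, A = lev M (n + 1) + (3 * (n + 1) + 100) := ⟨_, rfl⟩
  have hL : 3 * (n + 1) + 100 ≤ A := by omega
  have hlev : lev M (n + 1) ≤ A := by omega
  have h1 := EE_split (p := n) (m := 1) (L := A) hL (fun α _ => VV M (n + 1) α.sum) x
  have h2 : EE n (fun α z => (DD M A n α.sum z +
      ∑ a ∈ Icc 1 A, (1 / 2 : ℝ) ^ a * VV M (n + 1) (α.sum + a)) -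
      ∑ β ∈ Wd 1 A, if vd β z ∧ ¬ bar (α ++ β) then wt β else 0) x ≤
      EE (n + 1) (fun α _ => VV M (n + 1) α.sum) x := by
    rw [h1]
    refine EE_mono (fun α _ z => ?_) x
    have h3 := p17_inner M A n α.sum α rfl z
    rw [← h3, sub_le_iff_le_add, ← sum_add_distrib]
    refine sum_le_sum fun β _ => ?_
    have hw := (wt_pos β).le
    have hV0 := VV_nonneg M (n + 1) (α ++ β).sum
    have hV1 := VV_le_one M (n + 1) (α ++ β).sum
    by_cases hv : vd β z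
    · by_cases hb : bar (α ++ β)
      · rw [if_pos hv, if_pos ⟨hv, hb⟩, if_neg (fun h => h.2 hb)]
        linarith
      · rw [if_pos hv, if_neg (fun h => hb h.2), if_pos ⟨hv, hb⟩]
        nlinarith
    · rw [if_neg hv, if_neg (fun h => hv h.1), if_neg (fun h => hv h.1)]
      linarith
  rw [EE_sub, EE_add] at h2
  have h4 := hexit n hn A x
  have h5 := hmain n hn (DD M A n) (fun j z => DD_abs M A n j z)
    (fun j z z' h => DD_congr M A n j h) (fun j => DD_zero M A n j) x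
  have h6 := (abs_le.1 h5).1
  have h7 : EE n (fun α _ => VV M n α.sum) x ≤ hit M n x +
      EE n (fun α _ => ∑ a ∈ Icc 1 A, (1 / 2 : ℝ) ^ a * VV M (n + 1) (α.sum + a)) x := by
    rw [p17_hit, ← EE_add]
    exact EE_mono (fun α _ z => VV_step hM (by omega)) x
  have h8 : (K1 + K2) / ((n : ℝ) + 1) ^ 2 = K1 / ((n : ℝ) + 1) ^ 2 + K2 / ((n : ℝ) + 1) ^ 2 := by
    rw [add_div]
  unfold TT
  rw [sum_range_succ, h8]
  linarith

end Pool.Agent.Lib.MP_d0d59f_nt.PD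

end

section

/-! Row pd-P18b. -/

namespace Pool.Agent.Lib.MP_d0d59f_nt.PD

open Finset

theorem p18b_hit_nonneg (M n : ℕ) (x : ℤ) : 0 ≤ hit M n x := by
  unfold hit
  refine Finset.sum_nonneg fun α _ => ?_
  split_ifs
  · exact (wt_pos α).le
  · exact le_rfl

theorem p18b_tele {K : ℝ} (hK : 0 ≤ K) {M n1 : ℕ} (hn1 : 1 ≤ n1) {b : ℤ}
    (h : ∀ n : ℕ, n1 ≤ n → TT M n b - K / ((n : ℝ) + 1) ^ 2 ≤ TT M (n + 1) b) (N : ℕ)
    (hN : n1 ≤ N) : TT M n1 b - K * (1 / (n1 : ℝ) - 1 / (N : ℝ)) ≤ TT M N b := by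
  induction N, hN using Nat.le_induction with
  | base => simp
  | succ N hN ih =>
    have h1 := h N hN
    have hN0 : (0 : ℝ) < N := by
      have : 0 < N := by omega
      exact_mod_cast this
    have h2 : 1 / ((N : ℝ) + 1) ^ 2 ≤ 1 / (N : ℝ) - 1 / ((N : ℝ) + 1) := by
      have e : 1 / (N : ℝ) - 1 / ((N : ℝ) + 1) = 1 / ((N : ℝ) * ((N : ℝ) + 1)) := by
        field_simp
        ring
      rw [e]
      refine one_div_le_one_div_of_le (by positivity) ?_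
      have e2 : ((N : ℝ) + 1) ^ 2 = (N : ℝ) * ((N : ℝ) + 1) + ((N : ℝ) + 1) := by ring
      rw [e2]
      linarith
    have h3 : K / ((N : ℝ) + 1) ^ 2 ≤ K * (1 / (N : ℝ) - 1 / ((N : ℝ) + 1)) := by
      rw [div_eq_mul_one_div]
      exact mul_le_mul_of_nonneg_left h2 hK
    push_cast
    have e3 : K * (1 / (n1 : ℝ) - 1 / ((N : ℝ) + 1)) =
        K * (1 / (n1 : ℝ) - 1 / (N : ℝ)) + K * (1 / (N : ℝ) - 1 / ((N : ℝ) + 1)) := by ring
    rw [e3]
    linarith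

theorem p18b_exists (n : ℕ) : ∃ x : ℕ, (1 / 2 : ℝ) ≤ EE n (fun _ _ => 1) (x : ℤ) := by
  by_contra hcon
  push Not at hcon
  have h1 := EE_one_sum n
  have h2 : ∑ x ∈ range (3 ^ n), EE n (fun _ _ => 1) (x : ℤ) < ∑ _x ∈ range (3 ^ n), (1 / 2 : ℝ) :=
    Finset.sum_lt_sum_of_nonempty ⟨0, mem_range.2 (by positivity)⟩ fun x _ => hcon x
  rw [Finset.sum_const, card_range, nsmul_eq_mul] at h2
  push_cast at h2
  linarith

theorem p18b_unit {n : ℕ} (hn : 1 ≤ n) {x : ℤ} (h : (1 / 2 : ℝ) ≤ EE n (fun _ _ => 1) x) :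
    ¬ (3 : ℤ) ∣ x := by
  classical
  obtain ⟨α, hα, hv⟩ : ∃ α ∈ Rn n, vd α x := by
    by_contra hcon
    push Not at hcon
    have : EE n (fun _ _ => 1) x = 0 := by
      unfold EE
      exact Finset.sum_eq_zero fun α hα => if_neg (hcon α hα)
    rw [this] at h
    norm_num at h
  have hlen := (mem_Rn.1 hα).1
  cases α with
  | nil =>
    simp only [List.length_nil] at hlen
    omega
  | cons a β =>
    have h1 : vd ([a] ++ β) x := hv
    have h2 := (vd_one a x).1 (vd_append.1 h1).1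
    intro h3
    have h4 : (3 : ℤ) ∣ 2 ^ a * x := Dvd.dvd.mul_left h3 _
    have h5 : (3 : ℤ) ∣ 1 := by
      have := Int.dvd_sub h4 h2
      simpa using this
    norm_num at h5

/-- Let `K` be from `TT_step` and `n1 ≥ max 60 (8 K)`. By `EE_one_sum` there is `x1 < 3^n1` with
`EE n1 1 x1 ≥ 1/2`; a barrier word with `vd α x1` exists, so `3 ∤ x1` (`node`: the head `a` of `α` has
`3 ∣ 2^a x1 - 1`, `vd_append` for `[a] ++ tail`). For `b ≡ x1` modulo `3^n1`: `EE n1 1 b = EE n1 1 x1` (`EE_congr`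
with `k = 0`). For `M ≥ 2^(3 n1 + 200)`: every `α ∈ Rn n1` has `α.sum ≤ 3 n1 + 100 < lev M n1`, so
`TT M n1 b ≥ EE n1 (1/2) b ≥ 1/4` (`hit ≥ 0`). By `TT_step`, `TT M N b ≥ 1/4 - K ∑_{n ≥ n1} 1/(n+1)^2 ≥
1/4 - K/n1 ≥ 1/8` for all `N ≥ n1`. Conclude by `TT_eq_hits`. -/
theorem exists_class : ∃ (n1 : ℕ) (x1 : ℤ) (M0 : ℕ), ¬ (3 : ℤ) ∣ x1 ∧ 1 ≤ M0 ∧ ∀ M : ℕ, M0 ≤ M →
    ∃ N : ℕ, ∀ b : ℤ, b ≡ x1 [ZMOD 3 ^ n1] → 1 / 8 ≤ ∑ i ∈ range N, hit M i b := by
  obtain ⟨K, hK, hstep⟩ := TT_step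
  set n1 : ℕ := max 60 ⌈8 * K⌉₊ with hn1
  have h60 : 60 ≤ n1 := le_max_left _ _
  have h8K : 8 * K ≤ n1 := (Nat.le_ceil _).trans (by exact_mod_cast le_max_right _ _)
  have hn1pos : (0 : ℝ) < n1 := by
    have : 0 < n1 := by omega
    exact_mod_cast this
  obtain ⟨x1, hx1⟩ := p18b_exists n1
  refine ⟨n1, x1, 2 ^ (3 * n1 + 200), p18b_unit (by omega) hx1, Nat.one_le_two_pow, ?_⟩
  intro M hM
  have hM1 : 1 ≤ M := Nat.one_le_two_pow.trans hM
  obtain ⟨N0, hN0⟩ := TT_eq_hits M hM1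
  refine ⟨max N0 n1, fun b hb => ?_⟩
  rw [← hN0 _ (le_max_left _ _) b]
  -- the value at `n1`
  have hE : EE n1 (fun _ _ => 1) b = EE n1 (fun _ _ => 1) (x1 : ℤ) :=
    EE_congr (k := 0) (fun _ _ _ _ => rfl) (by simpa using hb)
  have hlev : 3 * n1 + 200 ≤ lev M n1 := by
    unfold lev
    refine Nat.le_log_of_pow_le (by norm_num) ?_
    calc 2 ^ (3 * n1 + 200) ≤ M := hM
      _ ≤ M * 3 ^ n1 := Nat.le_mul_of_pos_right _ (by positivity)
  have hV : EE n1 (fun _ _ => (1 / 2 : ℝ) * 1) b ≤ EE n1 (fun α _ => VV M n1 α.sum) b := by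
    refine EE_mono (fun α hα z => ?_) b
    have h1 : α.sum ≤ 3 * n1 + 100 := by
      obtain ⟨hl, _, hbar⟩ := mem_Rn.1 hα
      have := (hbar α.length le_rfl).2
      rw [List.take_length, hl] at this
      exact this
    have h2 : VV M n1 α.sum = 1 / 2 := by
      unfold VV
      rw [if_pos (by omega)]
    rw [h2]
    norm_num
  rw [EE_smul n1 (1 / 2) (fun _ _ => 1) b, hE] at hV
  have hTT : (1 / 4 : ℝ) ≤ TT M n1 b := by
    have h1 : 0 ≤ ∑ i ∈ range n1, hit M i b := Finset.sum_nonneg fun i _ => p18b_hit_nonneg M i b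
    unfold TT
    linarith
  have ht := p18b_tele hK (by omega : 1 ≤ n1) (fun n hn => hstep M hM1 n (h60.trans hn) b)
    (max N0 n1) (le_max_right _ _)
  have h3 : K * (1 / (n1 : ℝ) - 1 / ((max N0 n1 : ℕ) : ℝ)) ≤ 1 / 8 := by
    have h4 : K * (1 / (n1 : ℝ) - 1 / ((max N0 n1 : ℕ) : ℝ)) ≤ K * (1 / (n1 : ℝ)) := by
      refine mul_le_mul_of_nonneg_left ?_ hK
      have : (0 : ℝ) ≤ 1 / ((max N0 n1 : ℕ) : ℝ) := by positivity
      linarith
    refine h4.trans ?_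
    rw [mul_one_div, div_le_iff₀ hn1pos]
    linarith
  linarith

end Pool.Agent.Lib.MP_d0d59f_nt.PD

end

section

/-! Row pd-P20b. -/

namespace Pool.Agent.Lib.MP_d0d59f_nt.PD

open Finset

open Classical in
theorem p20b_hit_le {n M : ℕ} (hM : 1 ≤ M) (x : ℤ) :
    hit M n x ≤ 2 / M * (((Rn n).filter fun α => vd α x ∧ α.sum = lev M n).card : ℝ) := by
  unfold hit
  rw [← Finset.sum_filter]
  refine (Finset.sum_le_card_nsmul _ _ (2 / (M : ℝ)) ?_).trans_eq ?_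
  · intro α hα
    rw [Finset.mem_filter] at hα
    exact wt_le_two_div hM hα.1 hα.2.2
  · rw [nsmul_eq_mul, mul_comm]

theorem p20b_finite (B : ℝ) (P : ℤ → Prop) : {m : ℤ | |(m : ℝ)| ≤ B ∧ P m}.Finite := by
  refine (Set.finite_Icc (-⌊B⌋) ⌊B⌋).subset ?_
  rintro m ⟨hm, -⟩
  rw [abs_le] at hm
  refine ⟨?_, Int.le_floor.2 hm.2⟩
  have h1 : -m ≤ ⌊B⌋ := Int.le_floor.2 (by push_cast; linarith [hm.1])
  linarith

/-- Let `n1, x1, M0` be from `exists_class`, `M ≥ M0`, `N` the bound for the levels. Let `e` be an inverse of `d`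
modulo `3^(N + n1)` (`GE.exists_inv`), `x = y e`, so `x d ≡ y` modulo `3^(N+n1)` and `x ≡ x1` modulo `3^n1`
(`y ≡ x1 d`). The words `α ∈ Rn i`, `i < N`, `vd α x`, `α.sum = lev M i` give integers `ndd d α y` in `GE.pre d y`
(`vd_path`, `GE.path_mem_pre`) of size at most `M (|y| + 2^40 |d|)` (`ndd_le`), pairwise different (`path_unique`).
Their number is at least `∑_i hit M i x / (2/M) ≥ M/16` (`wt_le_two_div`). The set is finite (bounded). -/
theorem count_class : ∃ (n1 : ℕ) (x1 : ℤ) (M0 : ℕ), ¬ (3 : ℤ) ∣ x1 ∧ 1 ≤ M0 ∧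
    ∀ d : ℤ, Odd d → ¬ (3 : ℤ) ∣ d → ∀ y : ℤ, Odd y → ¬ GE.pdc d y → y ≡ x1 * d [ZMOD 3 ^ n1] →
      ∀ M : ℕ, M0 ≤ M → (M : ℝ) / 16 ≤
        (Set.ncard {m : ℤ | |(m : ℝ)| ≤ M * (|(y : ℝ)| + 2 ^ 40 * |(d : ℝ)|) ∧ m ∈ GE.pre d y} : ℝ) := by
  classical
  obtain ⟨n1, x1, M0, h3, hM0, H⟩ := exists_class
  refine ⟨n1, x1, M0, h3, hM0, fun d hd hd3 y hy hnp hyx M hM => ?_⟩
  have hM1 : 1 ≤ M := hM0.trans hM
  have hMpos : (0 : ℝ) < M := by exact_mod_cast hM1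
  obtain ⟨N, HN⟩ := H M hM
  obtain ⟨e, he⟩ := GE.exists_inv hd3 (N + n1)
  obtain ⟨x, hx⟩ : ∃ x : ℤ, x = y * e := ⟨_, rfl⟩
  have hxd : x * d ≡ y [ZMOD 3 ^ (N + n1)] := by
    have h1 : x * d = y * (d * e) := by rw [hx]; ring
    rw [h1]
    simpa using he.mul_left y
  have hxd' : ∀ i, i ≤ N → x * d ≡ y [ZMOD 3 ^ i] := fun i hi =>
    hxd.of_dvd (pow_dvd_pow 3 (by omega))
  have he1 : d * e ≡ 1 [ZMOD 3 ^ n1] := he.of_dvd (pow_dvd_pow 3 (by omega))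
  have hx1 : x ≡ x1 [ZMOD 3 ^ n1] := by
    have h1 := hyx.mul_right e
    have h2 := he1.mul_left x1
    rw [hx]
    rw [← mul_assoc, mul_one] at h2
    exact h1.trans h2
  have h8 := HN x hx1
  obtain ⟨S, hS⟩ : ∃ S : ℕ → Finset (List ℕ), S = fun i =>
      (Rn i).filter fun α => vd α x ∧ α.sum = lev M i := ⟨_, rfl⟩
  have hmem : ∀ i α, α ∈ S i ↔ α ∈ Rn i ∧ vd α x ∧ α.sum = lev M i := by
    intro i α
    rw [hS]
    exact Finset.mem_filter
  have hdis : ∀ i ∈ range N, ∀ j ∈ range N, i ≠ j → Disjoint (S i) (S j) := by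
    intro i _ j _ hij
    rw [Finset.disjoint_left]
    intro α h1 h2
    exact hij ((mem_Rn.1 ((hmem i α).1 h1).1).1.symm.trans (mem_Rn.1 ((hmem j α).1 h2).1).1)
  have hcard : (((range N).biUnion S).card : ℝ) = ∑ i ∈ range N, ((S i).card : ℝ) := by
    rw [Finset.card_biUnion hdis]
    push_cast
    rfl
  have hlow : (M : ℝ) / 16 ≤ (((range N).biUnion S).card : ℝ) := by
    have h1 : ∑ i ∈ range N, hit M i x ≤ ∑ i ∈ range N, 2 / (M : ℝ) * ((S i).card : ℝ) := by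
      refine Finset.sum_le_sum fun i _ => ?_
      rw [hS]
      exact p20b_hit_le hM1 x
    rw [← Finset.mul_sum, ← hcard] at h1
    have h2 := h8.trans h1
    rw [div_mul_eq_mul_div, le_div_iff₀ hMpos] at h2
    linarith
  refine hlow.trans ?_
  have hpath : ∀ i < N, ∀ α ∈ S i, AA.isPath d α (ndd d α y) y := by
    intro i hi α hα
    obtain ⟨h1, h2, -⟩ := (hmem i α).1 hα
    obtain ⟨hlen, hpos, -⟩ := mem_Rn.1 h1
    exact vd_path hd hpos h2 hy (by rw [hlen]; exact hxd' i hi.le)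
  have hinj : Set.InjOn (fun α => ndd d α y) ((range N).biUnion S : Finset (List ℕ)) := by
    intro α hα β hβ hab
    rw [Finset.mem_coe, Finset.mem_biUnion] at hα hβ
    obtain ⟨i, hi, hαi⟩ := hα
    obtain ⟨j, hj, hβj⟩ := hβ
    have h1 := hpath i (Finset.mem_range.1 hi) α hαi
    have h2 := hpath j (Finset.mem_range.1 hj) β hβj
    have hab' : ndd d α y = ndd d β y := hab
    rw [← hab'] at h2
    exact path_unique hd h1 h2 hnp
  have himg : (((range N).biUnion S).image fun α => ndd d α y).card = ((range N).biUnion S).card :=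
    Finset.card_image_of_injOn hinj
  rw [← himg, ← Set.ncard_coe_finset]
  refine Nat.cast_le.2 (Set.ncard_le_ncard ?_ (p20b_finite _ _))
  intro m hm
  rw [Finset.mem_coe, Finset.mem_image] at hm
  obtain ⟨α, hα, rfl⟩ := hm
  rw [Finset.mem_biUnion] at hα
  obtain ⟨i, hi, hαi⟩ := hα
  obtain ⟨h1, h2, hl⟩ := (hmem i α).1 hαi
  exact ⟨ndd_le hM1 h1 hl h2 (hxd' i (Finset.mem_range.1 hi).le),
    GE.path_mem_pre hd (hpath i (Finset.mem_range.1 hi) α hαi)⟩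

end Pool.Agent.Lib.MP_d0d59f_nt.PD

end

section

/-! Second version of the density theorem: the orbits stay on the side of `a`, beyond `a`. -/

namespace Pool.Agent.Lib.MP_d0d59f_nt.PD

open Finset

/-- `z` lies beyond `t` in the direction `s`. -/
def OK (s t : ℝ) (z : ℤ) : Prop := t ≤ s * (z : ℝ)

theorem OK_two_pow {s t : ℝ} (ht : 0 ≤ t) {z : ℤ} (h : OK s t z) (j : ℕ) : OK s t (2 ^ j * z) := by
  unfold OK at h ⊢
  push_cast
  have h1 : (1 : ℝ) ≤ 2 ^ j := one_le_pow₀ (by norm_num)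
  have h2 : 0 ≤ s * (z : ℝ) := ht.trans h
  nlinarith

theorem OK_mono {s t t' : ℝ} {z : ℤ} (h : OK s t z) (ht : t' ≤ t) : OK s t' z := ht.trans h

theorem kid_ok {d : ℤ} (hd : Odd d) {s t : ℝ} (ht : 0 ≤ t) {k : ℕ} {N a : ℤ} (hN : Odd N)
    (h : 3 * N + d = 2 ^ k * a) (ha : OK s t a) (i : ℕ) (hi1 : 1 ≤ i) (hi2 : i ≤ k) :
    OK s t ((T d)^[i] N) := by
  have h1 : (T d)^[k - (k - i)] N = 2 ^ (k - i) * a := GE.kid_iter hd hN (by omega) h
  have h2 : k - (k - i) = i := by omega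
  rw [h2] at h1
  rw [h1]
  exact OK_two_pow ht ha _

theorem path_ok {d : ℤ} (hd : Odd d) {s t : ℝ} (ht : 0 ≤ t) (α : List ℕ) :
    ∀ (m y : ℤ), AA.isPath d α m y →
      (∀ i ≤ α.length, ∀ z, AA.isPath d (α.take i) z y → OK s t z) →
      ∀ i ≤ α.sum, OK s t ((T d)^[i] m) := by
  induction α with
  | nil =>
    intro m y hp h i hi
    have : i = 0 := by simpa using hi
    subst this
    obtain ⟨h1, rfl⟩ := hp
    exact h 0 le_rfl y ⟨h1, rfl⟩
  | cons a α ih =>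
    intro m y hp h i hi
    have hp' := hp
    obtain ⟨M', h1, ha, h2, hy⟩ := hp
    rcases le_or_gt i α.sum with hi' | hi'
    · refine ih m M' h1 (fun i' hi' z hz => ?_) i hi'
      refine h (i' + 1) (by rw [List.length_cons]; omega) z ?_
      rw [List.take_succ_cons]
      exact ⟨M', hz, ha, h2, hy⟩
    · rw [List.sum_cons] at hi
      obtain ⟨j, rfl⟩ : ∃ j, i = j + α.sum := ⟨i - α.sum, by omega⟩
      rw [Function.iterate_add_apply, AA.isPath_iterate hd h1]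
      exact kid_ok hd ht (AA.isPath_odd_right h1) h2.symm
        (h 0 (Nat.zero_le _) y (by rw [List.take_zero]; exact ⟨hy, rfl⟩)) j (by omega) (by omega)

theorem take_mem_Rn {n : ℕ} {α : List ℕ} (h : α ∈ Rn n) (i : ℕ) : α.take i ∈ Rn (α.take i).length := by
  obtain ⟨_, h2, h3⟩ := mem_Rn.1 h
  refine mem_Rn.2 ⟨rfl, fun a ha => h2 a (List.mem_of_mem_take ha), ?_⟩
  have : bar (α.take i ++ α.drop i) := by rw [List.take_append_drop]; exact h3
  exact bar_prefix this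

theorem node_ok {d : ℤ} {s t : ℝ} (hs : |s| = 1) (ht : 0 ≤ t) {n : ℕ} {α : List ℕ} (hα : α ∈ Rn n)
    {z y : ℤ} (hp : AA.isPath d α z y)
    (hy : 2 ^ 34 * t + 2 ^ 40 * |(d : ℝ)| ≤ s * (y : ℝ)) : OK s t z := by
  unfold OK
  have hlen : α.length = n := (mem_Rn.1 hα).1
  have h1 := AA.isPath_identity hp
  rw [hlen] at h1
  have h2 : (2 : ℝ) ^ α.sum * (y : ℝ) = 3 ^ n * (z : ℝ) + (d : ℝ) * (AA.cc α : ℝ) := by
    exact_mod_cast h1
  have hcc := cc_le_Rn hα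
  have hcc0 : (0 : ℝ) ≤ (AA.cc α : ℝ) := Nat.cast_nonneg _
  have h3 : s * ((d : ℝ) * (AA.cc α : ℝ)) ≤ |(d : ℝ)| * (2 ^ 40 * 2 ^ α.sum) := by
    refine (le_abs_self _).trans ?_
    rw [abs_mul, abs_mul, hs, one_mul, abs_of_nonneg hcc0]
    exact mul_le_mul_of_nonneg_left hcc (abs_nonneg _)
  have hp2 : (0 : ℝ) < 2 ^ α.sum := by positivity
  have h4 : 3 ^ n * (s * (z : ℝ)) = 2 ^ α.sum * (s * (y : ℝ)) - s * ((d : ℝ) * (AA.cc α : ℝ)) := by
    have : 3 ^ n * (s * (z : ℝ)) = s * (3 ^ n * (z : ℝ)) := by ring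
    rw [this, show (3 : ℝ) ^ n * (z : ℝ) = 2 ^ α.sum * (y : ℝ) - (d : ℝ) * (AA.cc α : ℝ) by linarith]
    ring
  have h5 : 2 ^ α.sum * (2 ^ 34 * t) ≤ 3 ^ n * (s * (z : ℝ)) := by
    rw [h4]
    have := mul_le_mul_of_nonneg_left hy hp2.le
    rw [mul_add] at this
    linarith
  have h6 : (3 : ℝ) ^ n ≤ 2 ^ 34 * 2 ^ α.sum := by
    have := pow_le (n := n) (k := 0) (by omega) hα
    simpa using this
  have h7 : (3 : ℝ) ^ n * t ≤ 2 ^ α.sum * (2 ^ 34 * t) := by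
    have := mul_le_mul_of_nonneg_right h6 ht
    linarith
  have h8 : (0 : ℝ) < 3 ^ n := by positivity
  exact le_of_mul_le_mul_left (h7.trans h5) h8

/-- The predecessors of `a` whose whole orbit up to `a` is beyond `t` in the direction `s`. -/
def pok (d a : ℤ) (s t : ℝ) : Set ℤ := {m | ∃ k, (T d)^[k] m = a ∧ ∀ i ≤ k, OK s t ((T d)^[i] m)}

theorem pok_trans {d a b : ℤ} {s t : ℝ} (h : b ∈ pok d a s t) : pok d b s t ⊆ pok d a s t := by
  rintro m ⟨k, hk, hi⟩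
  obtain ⟨l, hl, hj⟩ := h
  refine ⟨l + k, ?_, fun i hi' => ?_⟩
  · rw [Function.iterate_add_apply, hk, hl]
  · rcases le_or_gt i k with h1 | h1
    · exact hi i h1
    · obtain ⟨j, rfl⟩ : ∃ j, i = j + k := ⟨i - k, by omega⟩
      rw [Function.iterate_add_apply, hk]
      exact hj j (by omega)

theorem kid_pok {d : ℤ} (hd : Odd d) {s t : ℝ} (ht : 0 ≤ t) {k : ℕ} (hk : 1 ≤ k) {N a : ℤ}
    (h : 3 * N + d = 2 ^ k * a) (ha : OK s t a) (hN : OK s t N) : N ∈ pok d a s t := by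
  have hodd := GE.c4_odd hd hk h
  refine ⟨k, AA.b1_step hd hk hodd h.symm, fun i hi => ?_⟩
  rcases Nat.eq_zero_or_pos i with rfl | hi0
  · exact hN
  · exact kid_ok hd ht hodd h ha i hi0 hi

open Classical in
/-- As `count_class`, for the predecessors which stay beyond `t` in the direction `s`. -/
theorem count_class2 : ∃ (n1 : ℕ) (x1 : ℤ) (M0 : ℕ), ¬ (3 : ℤ) ∣ x1 ∧ 1 ≤ M0 ∧
    ∀ d : ℤ, Odd d → ¬ (3 : ℤ) ∣ d → ∀ y : ℤ, Odd y → ¬ GE.pdc d y → y ≡ x1 * d [ZMOD 3 ^ n1] →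
      ∀ s t : ℝ, |s| = 1 → 0 ≤ t → 2 ^ 34 * t + 2 ^ 40 * |(d : ℝ)| ≤ s * (y : ℝ) →
      ∀ M : ℕ, M0 ≤ M → (M : ℝ) / 16 ≤
        (Set.ncard {m : ℤ | |(m : ℝ)| ≤ M * (|(y : ℝ)| + 2 ^ 40 * |(d : ℝ)|) ∧
          m ∈ pok d y s t} : ℝ) := by
  classical
  obtain ⟨n1, x1, M0, h3, hM0, H⟩ := exists_class
  refine ⟨n1, x1, M0, h3, hM0, fun d hd hd3 y hy hnp hyx s t hs ht hst M hM => ?_⟩
  have hM1 : 1 ≤ M := hM0.trans hM
  have hMpos : (0 : ℝ) < M := by exact_mod_cast hM1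
  obtain ⟨N, HN⟩ := H M hM
  obtain ⟨e, he⟩ := GE.exists_inv hd3 (N + n1)
  obtain ⟨x, hx⟩ : ∃ x : ℤ, x = y * e := ⟨_, rfl⟩
  have hxd : x * d ≡ y [ZMOD 3 ^ (N + n1)] := by
    have h1 : x * d = y * (d * e) := by rw [hx]; ring
    rw [h1]
    simpa using he.mul_left y
  have hxd' : ∀ i, i ≤ N → x * d ≡ y [ZMOD 3 ^ i] := fun i hi =>
    hxd.of_dvd (pow_dvd_pow 3 (by omega))
  have he1 : d * e ≡ 1 [ZMOD 3 ^ n1] := he.of_dvd (pow_dvd_pow 3 (by omega))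
  have hx1 : x ≡ x1 [ZMOD 3 ^ n1] := by
    have h1 := hyx.mul_right e
    have h2 := he1.mul_left x1
    rw [hx]
    rw [← mul_assoc, mul_one] at h2
    exact h1.trans h2
  have h8 := HN x hx1
  obtain ⟨S, hS⟩ : ∃ S : ℕ → Finset (List ℕ), S = fun i =>
      (Rn i).filter fun α => vd α x ∧ α.sum = lev M i := ⟨_, rfl⟩
  have hmem : ∀ i α, α ∈ S i ↔ α ∈ Rn i ∧ vd α x ∧ α.sum = lev M i := by
    intro i α
    rw [hS]
    exact Finset.mem_filter
  have hdis : ∀ i ∈ range N, ∀ j ∈ range N, i ≠ j → Disjoint (S i) (S j) := by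
    intro i _ j _ hij
    rw [Finset.disjoint_left]
    intro α h1 h2
    exact hij ((mem_Rn.1 ((hmem i α).1 h1).1).1.symm.trans (mem_Rn.1 ((hmem j α).1 h2).1).1)
  have hcard : (((range N).biUnion S).card : ℝ) = ∑ i ∈ range N, ((S i).card : ℝ) := by
    rw [Finset.card_biUnion hdis]
    push_cast
    rfl
  have hlow : (M : ℝ) / 16 ≤ (((range N).biUnion S).card : ℝ) := by
    have h1 : ∑ i ∈ range N, hit M i x ≤ ∑ i ∈ range N, 2 / (M : ℝ) * ((S i).card : ℝ) := by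
      refine Finset.sum_le_sum fun i _ => ?_
      rw [hS]
      exact p20b_hit_le hM1 x
    rw [← Finset.mul_sum, ← hcard] at h1
    have h2 := h8.trans h1
    rw [div_mul_eq_mul_div, le_div_iff₀ hMpos] at h2
    linarith
  refine hlow.trans ?_
  have hpath : ∀ i < N, ∀ α ∈ S i, AA.isPath d α (ndd d α y) y := by
    intro i hi α hα
    obtain ⟨h1, h2, -⟩ := (hmem i α).1 hα
    obtain ⟨hlen, hpos, -⟩ := mem_Rn.1 h1
    exact vd_path hd hpos h2 hy (by rw [hlen]; exact hxd' i hi.le)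
  have hinj : Set.InjOn (fun α => ndd d α y) ((range N).biUnion S : Finset (List ℕ)) := by
    intro α hα β hβ hab
    rw [Finset.mem_coe, Finset.mem_biUnion] at hα hβ
    obtain ⟨i, hi, hαi⟩ := hα
    obtain ⟨j, hj, hβj⟩ := hβ
    have h1 := hpath i (Finset.mem_range.1 hi) α hαi
    have h2 := hpath j (Finset.mem_range.1 hj) β hβj
    have hab' : ndd d α y = ndd d β y := hab
    rw [← hab'] at h2
    exact path_unique hd h1 h2 hnp
  have himg : (((range N).biUnion S).image fun α => ndd d α y).card = ((range N).biUnion S).card :=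
    Finset.card_image_of_injOn hinj
  rw [← himg, ← Set.ncard_coe_finset]
  refine Nat.cast_le.2 (Set.ncard_le_ncard ?_ (p20b_finite _ _))
  intro m hm
  rw [Finset.mem_coe, Finset.mem_image] at hm
  obtain ⟨α, hα, rfl⟩ := hm
  rw [Finset.mem_biUnion] at hα
  obtain ⟨i, hi, hαi⟩ := hα
  obtain ⟨h1, h2, hl⟩ := (hmem i α).1 hαi
  have hp := hpath i (Finset.mem_range.1 hi) α hαi
  refine ⟨ndd_le hM1 h1 hl h2 (hxd' i (Finset.mem_range.1 hi).le), α.sum, AA.isPath_iterate hd hp,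
    path_ok hd ht α _ y hp fun i' _ z hz => ?_⟩
  exact node_ok hs ht (take_mem_Rn h1 i') hz hst

end Pool.Agent.Lib.MP_d0d59f_nt.PD

end

section

/-! Second version of the density theorem: large kids on the side of `a`. -/

namespace Pool.Agent.Lib.MP_d0d59f_nt.PD

open Finset _root_.Pool.Agent.Lib.MP_d0d59f_nt.GE

theorem v2b_k0 {a R : ℝ} (ha : 1 ≤ a) (hR : a < R) :
    ∃ k : ℕ, 1 ≤ k ∧ R ≤ 2 ^ k * a ∧ 2 ^ k * a ≤ 2 * R := by
  classical
  have hex : ∃ k : ℕ, R ≤ 2 ^ k * a := by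
    obtain ⟨k, hk⟩ := pow_unbounded_of_one_lt R (by norm_num : (1 : ℝ) < 2)
    refine ⟨k, hk.le.trans ?_⟩
    have : (0 : ℝ) < 2 ^ k := by positivity
    nlinarith
  have h1 := Nat.find_spec hex
  have h0 : Nat.find hex ≠ 0 := by
    intro h
    rw [h] at h1
    simp at h1
    linarith
  obtain ⟨j, hj⟩ : ∃ j, Nat.find hex = j + 1 := ⟨Nat.find hex - 1, by omega⟩
  have h2 := Nat.find_min hex (show j < Nat.find hex by omega)
  push Not at h2
  refine ⟨Nat.find hex, by omega, h1, ?_⟩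
  rw [hj, pow_succ]
  linarith

/-- A kid of `a` with a large letter. -/
theorem v2b_kid {d a : ℤ} (h3 : ¬ (3 : ℤ) ∣ d) (ha : ¬ (3 : ℤ) ∣ a) (k : ℕ) :
    ∃ (k' : ℕ) (N : ℤ), k ≤ k' ∧ k' ≤ k + 1 ∧ 3 * N + d = 2 ^ k' * a := by
  have h2 : ∀ k : ℕ, ¬ (3 : ℤ) ∣ 2 ^ k * a := by
    intro k h
    rcases (Int.prime_three.dvd_mul).1 h with h | h
    · have := Int.prime_three.dvd_of_dvd_pow h
      omega
    · exact ha h
  by_cases h : (2 ^ k * a - d) % 3 = 0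
  · exact ⟨k, (2 ^ k * a - d) / 3, le_rfl, by omega, by omega⟩
  · refine ⟨k + 1, (2 ^ (k + 1) * a - d) / 3, by omega, le_rfl, ?_⟩
    have h4 := h2 k
    rw [pow_succ]
    generalize hu : (2 : ℤ) ^ k * a = u at h h4
    have e : (2 : ℤ) ^ k * 2 * a = 2 * u := by rw [← hu]; ring
    rw [e]
    have hu' : u % 3 = 1 ∨ u % 3 = 2 := by omega
    have hd' : d % 3 = 1 ∨ d % 3 = 2 := by omega
    rcases hu' with hu' | hu' <;> rcases hd' with hd' | hd' <;> omega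

theorem v2b_size {d N a : ℤ} {s : ℝ} (hs : |s| = 1) (hsa : s * (a : ℝ) = |(a : ℝ)|) {k : ℕ}
    (h : 3 * N + d = 2 ^ k * a) : 2 ^ k * |(a : ℝ)| ≤ 3 * (s * (N : ℝ)) + |(d : ℝ)| ∧
      3 * |(N : ℝ)| ≤ 2 ^ k * |(a : ℝ)| + |(d : ℝ)| := by
  have h1 : 3 * (N : ℝ) + d = 2 ^ k * a := by exact_mod_cast h
  constructor
  · have h2 : 2 ^ k * |(a : ℝ)| = 3 * (s * (N : ℝ)) + s * (d : ℝ) := by
      rw [← hsa]
      have : (2 : ℝ) ^ k * (s * (a : ℝ)) = s * (2 ^ k * (a : ℝ)) := by ring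
      rw [this, ← h1]
      ring
    have h3 : s * (d : ℝ) ≤ |(d : ℝ)| := by
      refine (le_abs_self _).trans ?_
      rw [abs_mul, hs, one_mul]
    linarith
  · have h3 : |3 * (N : ℝ)| = |2 ^ k * (a : ℝ) - d| := by
      congr 1
      linarith
    rw [abs_mul, abs_of_pos (by norm_num : (0 : ℝ) < 3)] at h3
    rw [h3]
    refine (abs_sub _ _).trans ?_
    rw [abs_mul, abs_of_pos (by positivity : (0 : ℝ) < 2 ^ k)]

theorem exists_kid_class2 (n : ℕ) : ∃ K : ℝ, 1 ≤ K ∧ ∀ d a c : ℤ, Odd d → ¬ (3 : ℤ) ∣ d →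
    ¬ (3 : ℤ) ∣ a → ∀ s : ℝ, |s| = 1 → s * (a : ℝ) = |(a : ℝ)| →
    ∃ y : ℤ, Odd y ∧ ¬ GE.pdc d y ∧ y ≡ c * d [ZMOD 3 ^ n] ∧ y ∈ pok d a s |(a : ℝ)| ∧
      2 ^ 34 * |(a : ℝ)| + 2 ^ 40 * |(d : ℝ)| ≤ s * (y : ℝ) ∧
      |(y : ℝ)| ≤ K * (|(a : ℝ)| + |(d : ℝ)|) := by
  refine ⟨2 ^ (47 + 4 * 3 ^ n), one_le_pow₀ (by norm_num), fun d a c hd h3 ha s hs hsa => ?_⟩
  have ha0 : a ≠ 0 := by
    rintro rfl
    exact ha (dvd_zero _)
  have ha1 : 1 ≤ |(a : ℝ)| := by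
    have := Int.one_le_abs ha0
    exact_mod_cast this
  have hd0 := abs_nonneg (d : ℝ)
  set R : ℝ := 3 * (2 ^ 34 * |(a : ℝ)| + 2 ^ 40 * |(d : ℝ)|) + |(d : ℝ)| with hR
  have hRa : |(a : ℝ)| < R := by
    rw [hR]
    linarith
  obtain ⟨k0, hk0, hk1, hk2⟩ := v2b_k0 ha1 hRa
  obtain ⟨k, N₀, hkk, hkk', h0⟩ := v2b_kid h3 ha k0
  obtain ⟨i, hi, hic⟩ := p21_class h3 n N₀ c
  obtain ⟨j, hj, hjc⟩ := p21_class h3 n ((fun z : ℤ => 4 * z + d)^[3 ^ n] N₀) c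
  have e1 := p21_kid h0 i
  have e2 := p21_kid (p21_kid h0 (3 ^ n)) j
  have o1 := GE.c4_odd hd (by omega) e1
  have o2 := GE.c4_odd hd (by omega) e2
  -- the bounds
  have key : ∀ (k' : ℕ) (y : ℤ), k ≤ k' → k' ≤ k + 4 * 3 ^ n → 3 * y + d = 2 ^ k' * a →
      y ∈ pok d a s |(a : ℝ)| ∧ 2 ^ 34 * |(a : ℝ)| + 2 ^ 40 * |(d : ℝ)| ≤ s * (y : ℝ) ∧
      |(y : ℝ)| ≤ 2 ^ (47 + 4 * 3 ^ n) * (|(a : ℝ)| + |(d : ℝ)|) := by
    intro k' y hk'1 hk'2 hy
    obtain ⟨b1, b2⟩ := v2b_size hs hsa hy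
    have h5 : (2 : ℝ) ^ k0 * |(a : ℝ)| ≤ 2 ^ k' * |(a : ℝ)| :=
      mul_le_mul_of_nonneg_right (pow_le_pow_right₀ (by norm_num) (by omega)) (by linarith)
    have h6 : 2 ^ 34 * |(a : ℝ)| + 2 ^ 40 * |(d : ℝ)| ≤ s * (y : ℝ) := by
      rw [hR] at hk1
      linarith
    refine ⟨?_, h6, ?_⟩
    · refine kid_pok hd (by linarith) (by omega) hy (le_of_eq hsa.symm) ?_
      unfold OK
      linarith
    · have h7 : (2 : ℝ) ^ k' * |(a : ℝ)| ≤ 2 ^ (1 + 4 * 3 ^ n) * (2 ^ k0 * |(a : ℝ)|) := by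
        rw [← mul_assoc, ← pow_add]
        exact mul_le_mul_of_nonneg_right (pow_le_pow_right₀ (by norm_num) (by omega)) (by linarith)
      have h8 : (2 : ℝ) ^ k0 * |(a : ℝ)| ≤ 2 ^ 45 * (|(a : ℝ)| + |(d : ℝ)|) := by
        rw [hR] at hk2
        linarith
      have h9 : (2 : ℝ) ^ k' * |(a : ℝ)| ≤ 2 ^ (46 + 4 * 3 ^ n) * (|(a : ℝ)| + |(d : ℝ)|) := by
        refine h7.trans ?_
        have h10 : (0 : ℝ) ≤ 2 ^ (1 + 4 * 3 ^ n) := by positivity
        refine (mul_le_mul_of_nonneg_left h8 h10).trans (le_of_eq ?_)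
        rw [← mul_assoc, ← pow_add]
        congr 2
        ring
      have h11 : (2 : ℝ) ^ (47 + 4 * 3 ^ n) * (|(a : ℝ)| + |(d : ℝ)|) =
          2 * (2 ^ (46 + 4 * 3 ^ n) * (|(a : ℝ)| + |(d : ℝ)|)) := by
        rw [show 47 + 4 * 3 ^ n = (46 + 4 * 3 ^ n) + 1 by ring, pow_succ]
        ring
      have h12 : |(d : ℝ)| ≤ 2 ^ (46 + 4 * 3 ^ n) * (|(a : ℝ)| + |(d : ℝ)|) := by
        have : (1 : ℝ) ≤ 2 ^ (46 + 4 * 3 ^ n) := one_le_pow₀ (by norm_num)
        nlinarith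
      have h13 := abs_nonneg (y : ℝ)
      rw [h11]
      linarith
  have h4n : 4 * 3 ^ n = 2 * 3 ^ n + 2 * 3 ^ n := by ring
  by_cases hp : GE.pdc d ((fun z : ℤ => 4 * z + d)^[i] N₀)
  · obtain ⟨g1, g2, g3⟩ := key _ _ (by omega) (by omega) e2
    exact ⟨_, o2, fun hp' => GE.kids_not_both hd (by omega) (by omega) o1 o2 e1 e2 ⟨hp, hp'⟩, hjc,
      g1, g2, g3⟩
  · obtain ⟨g1, g2, g3⟩ := key _ _ (by omega) (by omega) e1
    exact ⟨_, o1, hp, hic, g1, g2, g3⟩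

/-- `exists_free_kid` starting from a given kid. -/
theorem exists_free_kid2 {d a : ℤ} (hd : Odd d) (ha : ¬ (3 : ℤ) ∣ a) (h3 : ¬ (3 : ℤ) ∣ d)
    {k0 : ℕ} {N0 : ℤ} (hk1 : 1 ≤ k0) (h0 : 3 * N0 + d = 2 ^ k0 * a) (F : Finset ℤ) :
    ∃ (k : ℕ) (y : ℤ), k0 ≤ k ∧ k ≤ k0 + (4 * F.card + 6) ∧ 3 * y + d = 2 ^ k * a ∧ ¬ (3 : ℤ) ∣ y ∧
      ∀ f ∈ F, f ∉ GE.pre d y := by
  classical
  have ha0 : a ≠ 0 := by
    rintro rfl
    exact ha (dvd_zero _)
  have hkid : ∀ i : ℕ, ∃ N : ℤ, 3 * N + d = 2 ^ (k0 + 2 * i) * a := by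
    intro i
    induction i with
    | zero => exact ⟨N0, by simpa using h0⟩
    | succ i ih =>
      obtain ⟨N, hN⟩ := ih
      refine ⟨4 * N + d, ?_⟩
      have : k0 + 2 * (i + 1) = k0 + 2 * i + 2 := by ring
      rw [this, pow_add, mul_right_comm, ← hN]
      ring
  have hpair : ∀ t : ℕ, ∃ (k : ℕ) (y : ℤ), k0 + 4 * t ≤ k ∧ k ≤ k0 + 4 * t + 2 ∧
      3 * y + d = 2 ^ k * a ∧ ¬ (3 : ℤ) ∣ y := by
    intro t
    obtain ⟨N, hN⟩ := hkid (2 * t)
    have e1 : k0 + 2 * (2 * t) = k0 + 4 * t := by ring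
    rw [e1] at hN
    by_cases hd3 : (3 : ℤ) ∣ N
    · refine ⟨k0 + 4 * t + 2, 4 * N + d, by omega, le_rfl, ?_, by omega⟩
      rw [pow_add, mul_right_comm, ← hN]
      ring
    · exact ⟨k0 + 4 * t, N, le_rfl, by omega, hN, hd3⟩
  choose k y hk3 hk4 hy hy3 using hpair
  have hk1' : ∀ t, 1 ≤ k t := fun t => by have := hk3 t; omega
  have hyodd : ∀ t, Odd (y t) := fun t => c4_odd hd (hk1' t) (hy t)
  have hkne : ∀ t t', t < t' → k t < k t' := by
    intro t t' h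
    have h1 := hk4 t
    have h2 := hk3 t'
    omega
  have hkne' : ∀ t t', t ≠ t' → k t ≠ k t' := by
    intro t t' h
    rcases lt_or_gt_of_ne h with h1 | h1
    · exact (hkne t t' h1).ne
    · exact (hkne t' t h1).ne'
  -- the non periodic ones
  set S : Finset ℕ := (range (F.card + 2)).filter fun t => ¬ pdc d (y t) with hS
  have hScard : F.card + 1 ≤ S.card := by
    have h1 : ((range (F.card + 2)).filter fun t => pdc d (y t)).card ≤ 1 := by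
      rw [Finset.card_le_one]
      intro t ht t' ht'
      rw [mem_filter] at ht ht'
      by_contra hne
      rcases lt_or_gt_of_ne hne with h1 | h1
      · exact kids_not_both hd (hk1' t) (hkne t t' h1) (hyodd t) (hyodd t') (hy t) (hy t') ⟨ht.2, ht'.2⟩
      · exact kids_not_both hd (hk1' t') (hkne t' t h1) (hyodd t') (hyodd t) (hy t') (hy t) ⟨ht'.2, ht.2⟩
    have h2 := Finset.card_filter_add_card_filter_not (s := range (F.card + 2)) (fun t => pdc d (y t))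
    rw [card_range] at h2
    rw [hS]
    omega
  by_contra hcon
  push Not at hcon
  have hex : ∀ t ∈ S, ∃ f, f ∈ F ∧ f ∈ pre d (y t) := by
    intro t ht
    rw [hS, mem_filter, mem_range] at ht
    obtain ⟨f, hf, hf2⟩ := hcon (k t) (y t) (by have := hk3 t; omega) (by have := hk4 t; omega)
      (hy t) (hy3 t)
    exact ⟨f, hf, hf2⟩
  choose! g hg1 hg2 using hex
  have hinj : Set.InjOn g (S : Set ℕ) := by
    intro t ht t' ht' heq
    by_contra hne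
    have h1 := hg2 t ht
    have h2 := hg2 t' ht'
    rw [← heq] at h2
    have h3 := p23a_disj hd (hk1' t) (hk1' t') (hkne' t t' hne) ha0 (hyodd t) (hyodd t') (hy t) (hy t') h1 h2
    have h4 := (mem_filter.1 (Finset.mem_coe.1 ht)).2
    have h5 := (mem_filter.1 (Finset.mem_coe.1 ht')).2
    rcases h3 with h3 | h3
    · exact h4 h3
    · exact h5 h3
  have hcard := Finset.card_le_card_of_injOn g (fun t ht => hg1 t (Finset.mem_coe.1 ht)) hinj
  omega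

theorem density2 : ∃ c : ℝ, 0 < c ∧ ∀ d a : ℤ, Odd d → ¬ (3 : ℤ) ∣ d → ¬ (3 : ℤ) ∣ a →
    ∀ s : ℝ, |s| = 1 → s * (a : ℝ) = |(a : ℝ)| →
    ∀ X : ℝ, |(a : ℝ)| + |(d : ℝ)| ≤ X → c * (X / (|(a : ℝ)| + |(d : ℝ)|)) ≤
      (Set.ncard {m : ℤ | |(m : ℝ)| ≤ X ∧ m ∈ pok d a s |(a : ℝ)|} : ℝ) := by
  obtain ⟨n1, x1, M0, hx1, hM0, hcount⟩ := count_class2
  obtain ⟨K, hK, hkid⟩ := exists_kid_class2 n1
  set Q : ℝ := K + 2 ^ 40 with hQ
  have hQ0 : 0 < Q := by positivity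
  have hM0' : (1 : ℝ) ≤ M0 := by exact_mod_cast hM0
  refine ⟨min (1 / (32 * Q)) (1 / (M0 * Q)), lt_min (by positivity) (by positivity), ?_⟩
  intro d a hd h3 ha s hs hsa X hX
  have hd1 : 1 ≤ |(d : ℝ)| := by
    have h0 : d ≠ 0 := by
      rintro rfl
      exact h3 (dvd_zero _)
    have := Int.one_le_abs h0
    exact_mod_cast this
  have ha0 := abs_nonneg (a : ℝ)
  set A : ℝ := |(a : ℝ)| + |(d : ℝ)| with hA
  have hA1 : 1 ≤ A := by linarith
  have hA0 : 0 < A := by linarith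
  have hX0 : 0 < X := by linarith
  have hfin : {m : ℤ | |(m : ℝ)| ≤ X ∧ m ∈ pok d a s |(a : ℝ)|}.Finite := p20b_finite _ _
  have hXA : 0 ≤ X / A := by positivity
  rcases le_or_gt (M0 * (Q * A)) X with hbig | hsmall
  · obtain ⟨y, hy1, hy2, hy3, hy4, hy6, hy5⟩ := hkid d a x1 hd h3 ha s hs hsa
    have hB0 : 0 < Q * A := by positivity
    have hyB : |(y : ℝ)| + 2 ^ 40 * |(d : ℝ)| ≤ Q * A := by
      have h1 : (2 : ℝ) ^ 40 * |(d : ℝ)| ≤ 2 ^ 40 * A := by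
        refine mul_le_mul_of_nonneg_left ?_ (by positivity)
        linarith
      rw [hQ, add_mul]
      linarith
    obtain ⟨M, hM⟩ : ∃ M : ℕ, M = ⌊X / (Q * A)⌋₊ := ⟨_, rfl⟩
    have hMge : M0 ≤ M := by
      rw [hM]
      refine Nat.le_floor ?_
      rw [le_div_iff₀ hB0]
      exact hbig
    have hM1 : (1 : ℝ) ≤ M := by
      have : 1 ≤ M := hM0.trans hMge
      exact_mod_cast this
    have hMle : (M : ℝ) * (Q * A) ≤ X := by
      rw [← le_div_iff₀ hB0, hM]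
      exact Nat.floor_le (by positivity)
    have hMlt : X / (Q * A) < M + 1 := by
      rw [hM]
      exact Nat.lt_floor_add_one _
    have h6 := hcount d hd h3 y hy1 hy2 hy3 s |(a : ℝ)| hs ha0 hy6 M hMge
    have h7 : Set.ncard {m : ℤ | |(m : ℝ)| ≤ M * (|(y : ℝ)| + 2 ^ 40 * |(d : ℝ)|) ∧
        m ∈ pok d y s |(a : ℝ)|} ≤ Set.ncard {m : ℤ | |(m : ℝ)| ≤ X ∧ m ∈ pok d a s |(a : ℝ)|} := by
      refine Set.ncard_le_ncard ?_ hfin
      rintro m ⟨hm1, hm2⟩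
      refine ⟨hm1.trans (le_trans ?_ hMle), pok_trans hy4 hm2⟩
      exact mul_le_mul_of_nonneg_left hyB (by positivity)
    have h7' : (Set.ncard {m : ℤ | |(m : ℝ)| ≤ M * (|(y : ℝ)| + 2 ^ 40 * |(d : ℝ)|) ∧
        m ∈ pok d y s |(a : ℝ)|} : ℝ) ≤
        (Set.ncard {m : ℤ | |(m : ℝ)| ≤ X ∧ m ∈ pok d a s |(a : ℝ)|} : ℝ) := by
      exact_mod_cast h7
    refine le_trans ?_ (h6.trans h7')
    have h8 : X / A = Q * (X / (Q * A)) := by
      field_simp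
    calc min (1 / (32 * Q)) (1 / (M0 * Q)) * (X / A)
        ≤ 1 / (32 * Q) * (X / A) := mul_le_mul_of_nonneg_right (min_le_left _ _) hXA
      _ = (X / (Q * A)) / 32 := by rw [h8]; field_simp
      _ ≤ (M + 1) / 32 := by linarith
      _ ≤ (M : ℝ) / 16 := by linarith
  · have hone : (1 : ℝ) ≤
        (Set.ncard {m : ℤ | |(m : ℝ)| ≤ X ∧ m ∈ pok d a s |(a : ℝ)|} : ℝ) := by
      have h5 : 1 ≤ Set.ncard {m : ℤ | |(m : ℝ)| ≤ X ∧ m ∈ pok d a s |(a : ℝ)|} := by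
        rw [Nat.one_le_iff_ne_zero]
        refine Set.ncard_ne_zero_of_mem (a := a) ⟨?_, 0, rfl, ?_⟩ hfin
        · linarith
        · intro i hi
          have : i = 0 := by omega
          subst this
          exact le_of_eq hsa.symm
      exact_mod_cast h5
    refine le_trans ?_ hone
    have h8 : X / A ≤ M0 * Q := by
      rw [div_le_iff₀ hA0]
      linarith
    calc min (1 / (32 * Q)) (1 / (M0 * Q)) * (X / A)
        ≤ 1 / (M0 * Q) * (X / A) := mul_le_mul_of_nonneg_right (min_le_right _ _) hXA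
      _ ≤ 1 / (M0 * Q) * (M0 * Q) := mul_le_mul_of_nonneg_left h8 (by positivity)
      _ = 1 := by field_simp

end Pool.Agent.Lib.MP_d0d59f_nt.PD

end

section

/-! Second version of the density theorem, with an exceptional set. -/

namespace Pool.Agent.Lib.MP_d0d59f_nt.PD

open Finset

theorem v2c_sign (a : ℤ) : ∃ s : ℝ, |s| = 1 ∧ s * (a : ℝ) = |(a : ℝ)| := by
  rcases le_total 0 (a : ℝ) with h | h
  · exact ⟨1, by norm_num, by rw [abs_of_nonneg h, one_mul]⟩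
  · exact ⟨-1, by norm_num, by rw [abs_of_nonpos h]; ring⟩

theorem v2c_ratio {a z : ℤ} (ha : a ≠ 0) {s : ℝ} (hsa : s * (a : ℝ) = |(a : ℝ)|)
    (h : OK s |(a : ℝ)| z) : (1 : ℝ) ≤ (z : ℝ) / (a : ℝ) := by
  have haR : (a : ℝ) ≠ 0 := by exact_mod_cast ha
  have hpos : 0 < |(a : ℝ)| := abs_pos.2 haR
  have hs0 : s ≠ 0 := by
    rintro rfl
    rw [zero_mul] at hsa
    linarith
  have h1 : (z : ℝ) / (a : ℝ) = (s * (z : ℝ)) / |(a : ℝ)| := by
    rw [← hsa]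
    field_simp
  rw [h1, le_div_iff₀ hpos, one_mul]
  exact h

/-- There is `c > 0` such that for all odd `d` and all `a`, both prime to `3`, every finite set `F` which
contains no `2^j a` and all `X ≥ |a| + |d|`, at least `c X / (16^|F| (|a| + |d|))` integers `m`, `|m| ≤ X`,
have an orbit which reaches `a` before it meets `F`, and which stays beyond `a` (on the same side) before. -/
theorem density_cut2 : ∃ c : ℝ, 0 < c ∧ ∀ d a : ℤ, Odd d →
    ¬ (3 : ℤ) ∣ d → ¬ (3 : ℤ) ∣ a → ∀ F : Finset ℤ, (∀ j : ℕ, 2 ^ j * a ∉ F) →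
    ∀ X : ℝ, |(a : ℝ)| + |(d : ℝ)| ≤ X →
      c * (X / (16 ^ F.card * (|(a : ℝ)| + |(d : ℝ)|))) ≤
        (Set.ncard {m : ℤ | |(m : ℝ)| ≤ X ∧
          ∃ k : ℕ, (T d)^[k] m = a ∧ ∀ i ≤ k, (T d)^[i] m ∉ F ∧
            1 ≤ (((T d)^[i] m : ℤ) : ℝ) / (a : ℝ)} : ℝ) := by
  obtain ⟨c, hc, hmain⟩ := density2
  refine ⟨min (c / 300) (1 / 300), lt_min (by positivity) (by positivity), ?_⟩
  intro d a hd h3 ha F hF X hX
  have ha0 : a ≠ 0 := by
    rintro rfl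
    exact ha (dvd_zero _)
  have ha1 : 1 ≤ |(a : ℝ)| := by
    have := Int.one_le_abs ha0
    exact_mod_cast this
  have hd1 : 1 ≤ |(d : ℝ)| := by
    have h0 : d ≠ 0 := by
      rintro rfl
      exact h3 (dvd_zero _)
    have := Int.one_le_abs h0
    exact_mod_cast this
  obtain ⟨s, hs, hsa⟩ := v2c_sign a
  set A : ℝ := |(a : ℝ)| + |(d : ℝ)| with hA
  have hA1 : 1 ≤ A := by linarith
  have hX0 : 0 < X := by linarith
  set B : ℝ := 16 ^ F.card * A with hB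
  have hB0 : 0 < B := by positivity
  have hfin : {m : ℤ | |(m : ℝ)| ≤ X ∧
      ∃ k : ℕ, (T d)^[k] m = a ∧ ∀ i ≤ k, (T d)^[i] m ∉ F ∧
        1 ≤ (((T d)^[i] m : ℤ) : ℝ) / (a : ℝ)}.Finite := p20b_finite _ _
  have hpow : (0 : ℝ) ≤ X / B := by positivity
  rcases le_or_gt (300 * B) X with hbig | hsmall
  · set R : ℝ := 3 * |(a : ℝ)| + |(d : ℝ)| with hR
    obtain ⟨k0, hk0, hk1, hk2⟩ := v2b_k0 (a := |(a : ℝ)|) (R := R) ha1 (by rw [hR]; linarith)
    obtain ⟨k1, N₀, hkk, hkk', h0⟩ := v2b_kid h3 ha k0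
    obtain ⟨k, y, hk3, hk4, hy, hy3, hyF⟩ := exists_free_kid2 hd ha h3 (by omega) h0 F
    have hyodd := GE.c4_odd hd (by omega) hy
    obtain ⟨b1, b2⟩ := v2b_size hs hsa hy
    -- size of `y`
    have h16 : (1 : ℝ) ≤ 16 ^ F.card := one_le_pow₀ (by norm_num)
    have hsy : |(a : ℝ)| ≤ s * (y : ℝ) := by
      have h5 : (2 : ℝ) ^ k0 * |(a : ℝ)| ≤ 2 ^ k * |(a : ℝ)| :=
        mul_le_mul_of_nonneg_right (pow_le_pow_right₀ (by norm_num) (by omega)) (by linarith)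
      rw [hR] at hk1
      linarith
    have hsy' : s * (y : ℝ) = |(y : ℝ)| := by
      have h5 : |s * (y : ℝ)| = |(y : ℝ)| := by rw [abs_mul, hs, one_mul]
      rw [← h5, abs_of_nonneg (by linarith)]
    have hysize : |(y : ℝ)| + |(d : ℝ)| ≤ 300 * B := by
      have h5 : (2 : ℝ) ^ k * |(a : ℝ)| ≤ 128 * 16 ^ F.card * (2 ^ k0 * |(a : ℝ)|) := by
        have h6 : (2 : ℝ) ^ k ≤ 128 * 16 ^ F.card * 2 ^ k0 := by
          calc (2 : ℝ) ^ k ≤ 2 ^ (7 + 4 * F.card + k0) := pow_le_pow_right₀ (by norm_num) (by omega)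
            _ = 128 * 16 ^ F.card * 2 ^ k0 := by
              rw [pow_add, pow_add, pow_mul]
              norm_num
        have := mul_le_mul_of_nonneg_right h6 (by linarith : (0 : ℝ) ≤ |(a : ℝ)|)
        linarith
      have h7 : (2 : ℝ) ^ k0 * |(a : ℝ)| ≤ 6 * A := by
        rw [hR] at hk2
        linarith
      have h8 : 128 * 16 ^ F.card * (2 ^ k0 * |(a : ℝ)|) ≤ 128 * 16 ^ F.card * (6 * A) :=
        mul_le_mul_of_nonneg_left h7 (by positivity)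
      have h9 : |(d : ℝ)| ≤ B := by
        rw [hB]
        have : 1 * A ≤ 16 ^ F.card * A := mul_le_mul_of_nonneg_right h16 (by linarith)
        linarith
      have h10 : 128 * 16 ^ F.card * (6 * A) = 768 * B := by rw [hB]; ring
      linarith
    have hR1 : 0 < |(y : ℝ)| + |(d : ℝ)| := by
      have := abs_nonneg (y : ℝ)
      linarith
    have h6 := hmain d y hd h3 hy3 s hs hsy' X (hysize.trans hbig)
    have h7 : Set.ncard {m : ℤ | |(m : ℝ)| ≤ X ∧ m ∈ pok d y s |(y : ℝ)|} ≤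
        Set.ncard {m : ℤ | |(m : ℝ)| ≤ X ∧
          ∃ k : ℕ, (T d)^[k] m = a ∧ ∀ i ≤ k, (T d)^[i] m ∉ F ∧
            1 ≤ (((T d)^[i] m : ℤ) : ℝ) / (a : ℝ)} := by
      refine Set.ncard_le_ncard ?_ hfin
      rintro m ⟨hm1, l, hl, hok⟩
      refine ⟨hm1, k + l, ?_, ?_⟩
      · rw [Function.iterate_add_apply, hl]
        have := GE.kid_iter hd hyodd (j := 0) (k := k) (by omega) hy
        simpa using this
      · intro i hi
        rcases le_or_gt i l with hil | hil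
        · refine ⟨fun hiF => hyF _ hiF ⟨l - i, ?_⟩, v2c_ratio ha0 hsa ?_⟩
          · rw [← Function.iterate_add_apply]
            have h8 : l - i + i = l := by omega
            rw [h8, hl]
          · exact OK_mono (hok i hil) (by rw [← hsy']; exact hsy)
        · obtain ⟨j, rfl⟩ : ∃ j, i = j + l := ⟨i - l, by omega⟩
          have h9 : (T d)^[j + l] m = 2 ^ (k - j) * a := by
            rw [Function.iterate_add_apply, hl]
            have := GE.kid_iter hd hyodd (j := k - j) (k := k) (by omega) hy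
            have h10 : k - (k - j) = j := by omega
            rwa [h10] at this
          rw [h9]
          refine ⟨hF _, v2c_ratio ha0 hsa ?_⟩
          exact OK_two_pow (by linarith) (le_of_eq hsa.symm) _
    have h7' : (Set.ncard {m : ℤ | |(m : ℝ)| ≤ X ∧ m ∈ pok d y s |(y : ℝ)|} : ℝ) ≤
        (Set.ncard {m : ℤ | |(m : ℝ)| ≤ X ∧
          ∃ k : ℕ, (T d)^[k] m = a ∧ ∀ i ≤ k, (T d)^[i] m ∉ F ∧
            1 ≤ (((T d)^[i] m : ℤ) : ℝ) / (a : ℝ)} : ℝ) := by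
      exact_mod_cast h7
    refine le_trans ?_ (h6.trans h7')
    set R' : ℝ := |(y : ℝ)| + |(d : ℝ)| with hR'
    have h8 : X / B ≤ 300 * (X / R') := by
      rw [div_le_iff₀ hB0]
      have h9 : X = X / R' * R' := (div_mul_cancel₀ X hR1.ne').symm
      calc X = X / R' * R' := h9
        _ ≤ X / R' * (300 * B) := mul_le_mul_of_nonneg_left hysize (by positivity)
        _ = _ := by ring
    calc min (c / 300) (1 / 300) * (X / B)
        ≤ c / 300 * (X / B) :=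
          mul_le_mul_of_nonneg_right (min_le_left _ _) hpow
      _ ≤ c / 300 * (300 * (X / R')) :=
          mul_le_mul_of_nonneg_left h8 (by positivity)
      _ = c * (X / R') := by field_simp
  · have hone : (1 : ℝ) ≤
        (Set.ncard {m : ℤ | |(m : ℝ)| ≤ X ∧
          ∃ k : ℕ, (T d)^[k] m = a ∧ ∀ i ≤ k, (T d)^[i] m ∉ F ∧
            1 ≤ (((T d)^[i] m : ℤ) : ℝ) / (a : ℝ)} : ℝ) := by
      have h5 : 1 ≤ Set.ncard {m : ℤ | |(m : ℝ)| ≤ X ∧
          ∃ k : ℕ, (T d)^[k] m = a ∧ ∀ i ≤ k, (T d)^[i] m ∉ F ∧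
            1 ≤ (((T d)^[i] m : ℤ) : ℝ) / (a : ℝ)} := by
        rw [Nat.one_le_iff_ne_zero]
        refine Set.ncard_ne_zero_of_mem (a := a) ⟨?_, 0, rfl, ?_⟩ hfin
        · linarith
        · intro i hi
          have h6 : i = 0 := by omega
          subst h6
          refine ⟨by simpa using hF 0, v2c_ratio ha0 hsa ?_⟩
          exact le_of_eq hsa.symm
      exact_mod_cast h5
    refine le_trans ?_ hone
    have h8 : X / B ≤ 300 := by
      rw [div_le_iff₀ hB0]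
      exact hsmall.le
    calc min (c / 300) (1 / 300) * (X / B)
        ≤ 1 / 300 * (X / B) :=
          mul_le_mul_of_nonneg_right (min_le_right _ _) hpow
      _ ≤ 1 / 300 * 300 := mul_le_mul_of_nonneg_left h8 (by positivity)
      _ = 1 := by norm_num

end Pool.Agent.Lib.MP_d0d59f_nt.PD

end
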